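import Pool.Agent.Helper104.PCV.Arith
import Pool.Agent.Y227.SS.StableFinal
import Pool.Agent.Y227.RT.Final

set_option autoImplicit false

/-!
Irreducible systems of rank two, prime denominators, at most four nonintegral differences.
-/

namespace Pool.Agent.Helper104.PCV

open Finset Pool.Agent.W432.PC Pool.Agent.Y227.SS Pool.Agent.Y227.RT

universe u

/-- Integral vectors of odd sum close to a multiple. -/
theorem coreMu {ι : Type*} [Fintype ι] [DecidableEq ι] [Nonempty ι] {N : ℕ} [hN : Fact N.Prime]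
    (e : ι → ℤ) (he : Even (∑ i, e i))
    (h4 : (univ.filter fun i => ¬ (N : ℤ) ∣ e i).card ≤ 4) :
    (∃ (c : ℤ) (μ : ι → ℤ), IsCoprime c (N : ℤ) ∧ ∑ i, |c * e i - N * μ i| ≤ N ∧
      Odd (∑ i, μ i)) ∨
    ∃ f : Fin 4 → ι, Function.Injective f ∧ (∀ i, (N : ℤ) ∣ e i ↔ i ∉ Set.range f) ∧
      ((N : ℤ) ∣ e (f 0) + e (f 1) ∨ (N : ℤ) ∣ e (f 0) - e (f 1)) ∧
      ((N : ℤ) ∣ e (f 2) + e (f 3) ∨ (N : ℤ) ∣ e (f 2) - e (f 3)) := by
  classical
  by_cases h2 : N = 2
  · subst h2
    set S := univ.filter fun i => ¬ ((2 : ℕ) : ℤ) ∣ e i with hS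
    have hmod : ∀ i, e i - 2 * (e i / 2) = if i ∈ S then 1 else 0 := by
      intro i
      by_cases hi : i ∈ S
      · rw [if_pos hi]
        have := (mem_filter.1 hi).2
        push_cast at this
        omega
      · rw [if_neg hi]
        have h1 : ((2 : ℕ) : ℤ) ∣ e i := by
          by_contra hcon
          exact hi (mem_filter.2 ⟨mem_univ _, hcon⟩)
        push_cast at h1
        omega
    have hsum : ∑ i, e i = 2 * ∑ i, e i / 2 + S.card := by
      have h1 : ∑ i, (e i - 2 * (e i / 2)) = S.card := by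
        rw [sum_congr rfl fun i _ => hmod i]
        simp
      rw [sum_sub_distrib, ← mul_sum] at h1
      linarith
    have hSev : Even (S.card : ℤ) := by
      rw [hsum] at he
      obtain ⟨m, hm⟩ := he
      exact ⟨m - ∑ i, e i / 2, by linarith⟩
    by_cases hS2 : S.card ≤ 2
    · left
      by_cases hodd : Odd (∑ i, e i / 2)
      · refine ⟨1, fun i => e i / 2, isCoprime_one_left, ?_, hodd⟩
        have h1 : ∀ i, |1 * e i - ((2 : ℕ) : ℤ) * (e i / 2)| = if i ∈ S then 1 else 0 := by
          intro i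
          have := hmod i
          push_cast
          rw [one_mul, this]
          split_ifs <;> simp
        rw [sum_congr rfl fun i _ => h1 i]
        simp only [sum_ite_mem, univ_inter, sum_const, nsmul_eq_mul, mul_one]
        exact_mod_cast hS2
      · obtain ⟨i0, hi0⟩ : ∃ i0, S.Nonempty → i0 ∈ S := by
          by_cases h : S.Nonempty
          · obtain ⟨i, hi⟩ := h
            exact ⟨i, fun _ => hi⟩
          · exact ⟨Classical.arbitrary ι, fun h' => absurd h' h⟩
        refine ⟨1, fun i => e i / 2 + if i = i0 then 1 else 0, isCoprime_one_left, ?_, ?_⟩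
        · have h1 : ∀ i, |1 * e i - ((2 : ℕ) : ℤ) * (e i / 2 + if i = i0 then 1 else 0)| =
              (if i ∈ S then 1 else 0) + if i = i0 then (if S.Nonempty then 0 else 2) else 0 := by
            intro i
            have := hmod i
            have h3 : 1 * e i - ((2 : ℕ) : ℤ) * (e i / 2 + if i = i0 then 1 else 0) =
              (if i ∈ S then 1 else 0) - 2 * (if i = i0 then 1 else 0) := by
              push_cast
              linarith
            rw [h3]
            by_cases hi : i = i0
            · subst hi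
              by_cases hne : S.Nonempty
              · simp [hi0 hne, hne]
              · rw [not_nonempty_iff_eq_empty] at hne
                simp [hne]
            · simp only [hi, if_false]
              split_ifs <;> simp
          rw [sum_congr rfl fun i _ => h1 i, sum_add_distrib]
          simp only [sum_ite_mem, univ_inter, sum_const, nsmul_eq_mul, mul_one, sum_ite_eq',
            mem_univ, if_true]
          split_ifs with hne
          · rw [add_zero]
            exact_mod_cast hS2
          · rw [not_nonempty_iff_eq_empty] at hne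
            simp [hne]
        · rw [sum_add_distrib]
          simp only [sum_ite_eq', mem_univ, if_true]
          exact (Int.not_odd_iff_even.1 hodd).add_odd odd_one
    · right
      have hc4 : S.card = 4 := by
        obtain ⟨m, hm⟩ := hSev
        have : S.card ≤ 4 := h4
        omega
      let F : S ≃ Fin 4 := S.equivFinOfCardEq hc4
      have hmem : ∀ k, ¬ ((2 : ℕ) : ℤ) ∣ e (F.symm k).1 := fun k => (mem_filter.1 (F.symm k).2).2
      refine ⟨fun k => (F.symm k).1, fun k l h => F.symm.injective (Subtype.ext h), fun i => ?_,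
        Or.inl ?_, Or.inl ?_⟩
      · constructor
        · rintro h ⟨k, rfl⟩
          exact hmem k h
        · intro h
          by_contra hcon
          apply h
          exact ⟨F ⟨i, mem_filter.2 ⟨mem_univ _, hcon⟩⟩, by simp⟩
      · have a := hmem 0
        have b := hmem 1
        push_cast at a b ⊢
        omega
      · have a := hmem 2
        have b := hmem 3
        push_cast at a b ⊢
        omega
  · rcases core h2 e h4 with ⟨c, r, hc, hr, hn, ho⟩ | h
    · left
      have hodd : Odd (N : ℤ) := by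
        exact_mod_cast hN.out.odd_of_ne_two h2
      have h1 : ∀ i, ∃ m : ℤ, c * e i - r i = N * m := fun i => by
        have h3 := (dvd_neg).2 (hr i)
        rw [neg_sub] at h3
        exact h3
      choose μ hμ using h1
      refine ⟨c, μ, hc, ?_, ?_⟩
      · rw [sum_congr rfl fun i _ => by rw [← hμ i, sub_sub_cancel]]
        exact hn
      · have h3 : (N : ℤ) * ∑ i, μ i = c * ∑ i, e i - ∑ i, r i := by
          rw [mul_sum, mul_sum, ← sum_sub_distrib]
          exact sum_congr rfl fun i _ => (hμ i).symm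
        have h5 : Odd ((N : ℤ) * ∑ i, μ i) := by
          rw [h3]
          exact (he.mul_left c).sub_odd ho
        exact (Int.odd_mul.1 h5).2
    · exact Or.inr h

/-- Exactly four of the numbers are not integers, and they cancel modulo the integers in two
pairs, for suitable signs. -/
def Paired {ι : Type*} (x : ι → ℚ) : Prop :=
  ∃ f : Fin 4 → ι, Function.Injective f ∧ (∀ i, (∃ m : ℤ, x i = m) ↔ i ∉ Set.range f) ∧
    ((∃ m : ℤ, x (f 0) + x (f 1) = m) ∨ (∃ m : ℤ, x (f 0) - x (f 1) = m)) ∧
    ((∃ m : ℤ, x (f 2) + x (f 3) = m) ∨ (∃ m : ℤ, x (f 2) - x (f 3) = m))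

/-- The traces. -/
lemma trace_lam {R : Type u} [CommRing R] [IsDomain R] [CharZero R] {n r : ℕ}
    (A : Fin n → Matrix (Fin r) (Fin r) R) (lam : Fin n → Fin r → ℚ) (phi : Fin r → ℚ)
    (hlam : ∀ j, HasExponents (A j) (lam j)) (hphi : HasExponents (∑ j, A j) phi) :
    ∑ j, ∑ l, lam j l = ∑ l, phi l := by
  have := charZero_fraction (R := R)
  have h1 := hphi.trace
  rw [Matrix.trace_sum, map_sum] at h1
  have h2 : ∑ j, algebraMap R (FractionRing R) (A j).trace =
      ((∑ j, ∑ l, lam j l : ℚ) : FractionRing R) := by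
    push_cast
    refine Finset.sum_congr rfl fun j _ => ?_
    rw [(hlam j).trace]
    push_cast
    rfl
  rw [h2] at h1
  exact_mod_cast h1

theorem le_or_paired {n : ℕ} (lam : Fin n → Fin 2 → ℚ) (phi : Fin 2 → ℚ)
    (htr : ∑ j, ∑ l, lam j l = ∑ l, phi l) (N : ℕ) [hN : Fact N.Prime]
    (hNlam : ∀ j l, ∃ m : ℤ, (N : ℚ) * lam j l = m) (hNphi : ∀ l, ∃ m : ℤ, (N : ℚ) * phi l = m)
    (h4 : {i | ¬ ∃ m : ℤ, theta lam phi i = m}.ncard ≤ 4) :
    Paired (theta lam phi) ∨ ∃ a : ℤ, IsCoprime a (N : ℤ) ∧
      Le (zz (fun j l => (a : ℝ) * lam j l) (fun l => (a : ℝ) * phi l)) := by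
  classical
  have hNq : (N : ℚ) ≠ 0 := by exact_mod_cast hN.out.ne_zero
  have hNr : (0 : ℝ) < N := by exact_mod_cast hN.out.pos
  choose ml hml using hNlam
  choose mp hmp using hNphi
  let e : Option (Fin n) → ℤ := fun o => o.elim (mp 0 - mp 1) fun j => ml j 0 - ml j 1
  have hee : ∀ i, (N : ℚ) * theta lam phi i = e i := by
    intro i
    rcases i with _ | j
    · simp only [theta, e, Option.elim]
      push_cast
      rw [mul_sub, hmp, hmp]
    · simp only [theta, e, Option.elim]
      push_cast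
      rw [mul_sub, hml, hml]
  have htr' : ∑ j, ∑ l, ml j l = ∑ l, mp l := by
    have h1 : (N : ℚ) * ∑ j, ∑ l, lam j l = N * ∑ l, phi l := by rw [htr]
    rw [mul_sum, mul_sum, sum_congr rfl fun l _ => hmp l] at h1
    have h3 : ∀ j, (N : ℚ) * ∑ l, lam j l = ∑ l, (ml j l : ℚ) := fun j => by
      rw [mul_sum]
      exact sum_congr rfl fun l _ => hml j l
    rw [sum_congr rfl fun j _ => h3 j] at h1
    exact_mod_cast h1
  have heven : Even (∑ i, e i) := by
    rw [Fintype.sum_option]
    simp only [e, Option.elim]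
    simp only [Fin.sum_univ_two, sum_add_distrib] at htr'
    rw [sum_sub_distrib]
    exact ⟨∑ j, ml j 0 - mp 1, by linarith⟩
  have hint : ∀ (z : ℤ) (x : ℚ), (N : ℚ) * x = z → ((∃ m : ℤ, x = m) ↔ (N : ℤ) ∣ z) := by
    intro z x hx
    constructor
    · rintro ⟨m, rfl⟩
      exact ⟨m, by exact_mod_cast hx.symm⟩
    · rintro ⟨m, rfl⟩
      refine ⟨m, ?_⟩
      apply mul_left_cancel₀ hNq
      rw [hx]
      push_cast
      ring
  have hcard : (univ.filter fun i => ¬ (N : ℤ) ∣ e i).card ≤ 4 := by
    have h1 : {i | ¬ ∃ m : ℤ, theta lam phi i = m} =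
        ((univ.filter fun i => ¬ (N : ℤ) ∣ e i : Finset _) : Set (Option (Fin n))) := by
      ext i
      simp only [Set.mem_ofPred_eq, coe_filter, mem_univ, true_and]
      rw [hint _ _ (hee i)]
    rw [h1, Set.ncard_coe_finset] at h4
    exact h4
  rcases coreMu e heven hcard with ⟨c, μ, hc, hn, ho⟩ | ⟨f, hf, hr, h1, h2⟩
  · right
    refine ⟨c, hc, μ, ?_, ?_⟩
    · obtain ⟨E, hE⟩ := ho
      refine ⟨E, ?_⟩
      have e1 : ∀ (x : Fin n → Fin 2 → ℝ) (y : Fin 2 → ℝ),
          (2 * zz x y none - ∑ i, zz x y (some i)) = ∑ j, ∑ l, x j l - ∑ l, y l := by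
        intro x y
        rw [Fintype.sum_option]
        simp only [zz, Fin.sum_univ_two, sum_sub_distrib, sum_add_distrib]
        ring
      rw [e1]
      have e2 : ∑ j, ∑ l, (c : ℝ) * (lam j l : ℝ) = ∑ l, (c : ℝ) * (phi l : ℝ) := by
        simp only [← mul_sum]
        congr 1
        exact_mod_cast htr
      rw [e2, sub_self, add_zero]
      rw [hE]
      push_cast
      ring
    · have hkey : ∀ i, |zz (fun j l => (c : ℝ) * lam j l) (fun l => (c : ℝ) * phi l) (some i) - μ i| =
          ((|c * e i - N * μ i| : ℤ) : ℝ) / N := by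
        intro i
        rw [zz_xx]
        have h1 : ((xx lam phi (some i) : ℚ) : ℝ) = (e i : ℝ) / N := by
          have h3 : xx lam phi (some i) = theta lam phi i := rfl
          rw [h3, eq_div_iff hNr.ne', mul_comm]
          exact_mod_cast hee i
        beta_reduce
        rw [h1]
        push_cast
        rw [eq_div_iff hNr.ne']
        nth_rewrite 2 [← abs_of_pos hNr]
        rw [← abs_mul]
        congr 1
        field_simp
      rw [sum_congr rfl fun i _ => hkey i, ← sum_div, div_le_one hNr]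
      exact_mod_cast hn
  · left
    have hadd : ∀ i j, (N : ℚ) * (theta lam phi i + theta lam phi j) = ((e i + e j : ℤ) : ℚ) := by
      intro i j
      rw [mul_add, hee, hee]
      push_cast
      ring
    have hsub : ∀ i j, (N : ℚ) * (theta lam phi i - theta lam phi j) = ((e i - e j : ℤ) : ℚ) := by
      intro i j
      rw [mul_sub, hee, hee]
      push_cast
      ring
    refine ⟨f, hf, fun i => by rw [hint _ _ (hee i), hr], ?_, ?_⟩
    · rw [hint _ _ (hadd _ _), hint _ _ (hsub _ _)]
      exact h1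
    · rw [hint _ _ (hadd _ _), hint _ _ (hsub _ _)]
      exact h2

theorem main {R : Type u} [CommRing R] [IsDomain R] [CharZero R] [Algebra.FiniteType ℤ R]
    {n : ℕ} (α : Fin n → R) (hα : ∀ i j, i ≠ j → IsUnit (α i - α j))
    (A : Fin n → Matrix (Fin 2) (Fin 2) R) (lam : Fin n → Fin 2 → ℚ) (phi : Fin 2 → ℚ)
    (hlam : ∀ j, HasExponents (A j) (lam j)) (hphi : HasExponents (∑ j, A j) phi)
    (N : ℕ) (hN : N.Prime) (hNlam : ∀ j l, ∃ m : ℤ, (N : ℚ) * lam j l = m)
    (hNphi : ∀ l, ∃ m : ℤ, (N : ℚ) * phi l = m) (hirr : AbsIrreducible α A)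
    (h4 : {i | ¬ ∃ m : ℤ, theta lam phi i = m}.ncard ≤ 4) :
    Paired (theta lam phi) ∨
      ((∃ a : ℤ, IsCoprime a (N : ℤ) ∧ ∃ g : R, g ≠ 0 ∧ ∃ P₀ : ℕ, ∀ p : ℕ, p.Prime → P₀ < p →
        (N : ℤ) ∣ a * p + 1 → ∀ (𝔪 : Ideal R) [𝔪.IsMaximal], (p : R) ∈ 𝔪 → g ∉ 𝔪 →
          ¬ PCurvZeroAt α A 𝔪) ∧ ¬ CondII α A) := by
  have : Fact N.Prime := ⟨hN⟩
  rcases le_or_paired lam phi (trace_lam A lam phi hlam hphi) N hNlam hNphi h4 with
    h | ⟨a, ha, hLe⟩
  · exact Or.inl h
  · right
    have h1 := (final α hα A lam phi hlam hphi N hN.pos hNlam hNphi a).2.1 hirr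
      (fun h => stable_not_le h hLe)
    exact ⟨⟨a, ha, h1⟩, not_condII_of α A N hN.pos a ha h1⟩

end Pool.Agent.Helper104.PCV
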