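import Pool.Agent.Helper104.PCV.Blocks
import Pool.Agent.Y227.SO.Final

set_option autoImplicit false

/-!
Second order operators whose exponent differences have equal or coprime denominators.
-/

namespace Pool.Agent.Helper104.PCV

open Finset Polynomial Pool.Agent.Y227.SS Pool.Agent.Y227.RT Pool.Agent.Y227.SO
open Pool.Agent.W432.WB Pool.Agent.W432.HK

/-- The sum of the weights is an integer. -/
lemma semistable_trace {K : Type*} [Field K] {n : ℕ} {x : Fin n → Fin 2 → ℝ} {y : Fin 2 → ℝ}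
    (h : SemistableWeights K x y) : ∃ T : ℤ, ∑ j, ∑ l, x j l - ∑ l, y l = T := by
  obtain ⟨β, P, w, e, -, -, -, hw, ⟨σe, he⟩, hsum, -⟩ := h
  choose σ hσ using hw
  choose m hm using hσ
  choose me hme using he
  refine ⟨∑ l, me l - ∑ j, ∑ l, m j l, ?_⟩
  have h1 : ∑ j, ∑ l, w j l = ∑ j, ∑ l, x j l + ∑ j, ∑ l, (m j l : ℝ) := by
    rw [← sum_add_distrib]
    refine sum_congr rfl fun j _ => ?_
    rw [← Equiv.sum_comp (σ j) (x j), ← sum_add_distrib]
    exact sum_congr rfl fun l _ => hm j l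
  have h2 : ∑ l, e l = ∑ l, y l + ∑ l, (me l : ℝ) := by
    rw [← Equiv.sum_comp σe y, ← sum_add_distrib]
    exact sum_congr rfl fun l _ => hme l
  push_cast
  linarith

theorem lo_of_close {n : ℕ} (lam : Fin n → Fin 2 → ℚ) (phi : Fin 2 → ℚ) {T : ℤ}
    (hT : ∑ j, ∑ l, lam j l - ∑ l, phi l = T) {a : ℤ} {ε : Option (Fin n) → ℚ}
    (hm : ∀ x, ∃ m : ℤ, a * theta lam phi x - ε x = m) (hlt : ∑ x, |ε x| < 1)
    (he : ∃ e : ℤ, 2 * a * (∑ j, lam j 0 - phi 1) - ∑ x, ε x = 2 * e + 1) :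
    Lo (zz (fun j l => (a : ℝ) * lam j l) (fun l => (a : ℝ) * phi l)) := by
  choose μ hμ using hm
  obtain ⟨e, he⟩ := he
  refine ⟨μ, ⟨e, ?_⟩, ?_⟩
  · have e1 : ∀ (x : Fin n → Fin 2 → ℝ) (y : Fin 2 → ℝ),
        (2 * zz x y none - ∑ i, zz x y (some i)) = ∑ j, ∑ l, x j l - ∑ l, y l := by
      intro x y
      rw [Fintype.sum_option]
      simp only [zz, Fin.sum_univ_two, sum_sub_distrib, sum_add_distrib]
      ring
    rw [e1]
    have e2 : ∑ j, ∑ l, (a : ℝ) * (lam j l : ℝ) - ∑ l, (a : ℝ) * (phi l : ℝ) = a * T := by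
      simp only [← mul_sum]
      rw [← mul_sub]
      congr 1
      exact_mod_cast congrArg (fun q : ℚ => (q : ℝ)) hT
    rw [e2]
    have e3 : ∑ x, theta lam phi x = 2 * (∑ j, lam j 0 - phi 1) - T := by
      rw [Fintype.sum_option]
      simp only [theta, Option.elim]
      simp only [Fin.sum_univ_two, sum_add_distrib] at hT
      rw [sum_sub_distrib]
      linarith
    have e4 : (∑ i, μ i : ℚ) + a * T = 2 * e + 1 := by
      rw [← he, sum_congr rfl fun i _ => (hμ i).symm, sum_sub_distrib, ← mul_sum, e3]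
      ring
    have e5 : (((∑ i, μ i : ℤ) : ℚ) : ℝ) + a * T = 2 * e + 1 := by
      rw [Int.cast_sum]
      exact_mod_cast congrArg (fun q : ℚ => (q : ℝ)) e4
    rw [Rat.cast_intCast] at e5
    exact e5
  · have hkey : ∀ i, |zz (fun j l => (a : ℝ) * lam j l) (fun l => (a : ℝ) * phi l) (some i) - μ i| =
        ((|ε i| : ℚ) : ℝ) := by
      intro i
      rw [zz_xx]
      beta_reduce
      have h3 : xx lam phi (some i) = theta lam phi i := rfl
      rw [h3]
      have h4 := congrArg (fun q : ℚ => (q : ℝ)) (hμ i)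
      push_cast at h4 ⊢
      rw [← h4]
      congr 1
      ring
    rw [sum_congr rfl fun i _ => hkey i]
    have : ((∑ i, |ε i| : ℚ) : ℝ) < ((1 : ℚ) : ℝ) := by exact_mod_cast hlt
    push_cast at this ⊢
    exact this

/-- The weights of some conjugate are not semistable. -/
theorem not_semistable {n : ℕ} (lam : Fin n → Fin 2 → ℚ) (phi : Fin 2 → ℚ) (N : ℕ) (hN : 0 < N)
    (hNlam : ∀ j l, ∃ m : ℤ, (N : ℚ) * lam j l = m) (hNphi : ∀ l, ∃ m : ℤ, (N : ℚ) * phi l = m)
    (h : ∀ x y, (theta lam phi x).den.Coprime (theta lam phi y).den ∨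
      (∃ m : ℤ, theta lam phi x - theta lam phi y = m) ∨
      (∃ m : ℤ, theta lam phi x + theta lam phi y = m))
    (x₀ : Option (Fin n)) (h0 : (theta lam phi x₀).den ≠ 1)
    (hodd : Odd (univ.filter fun x => (theta lam phi x).den = (theta lam phi x₀).den).card)
    (hlt : (∑ x, if (theta lam phi x).den = 1 then (0 : ℚ) else 1 / (theta lam phi x).den) +
      (if Even (theta lam phi x₀).den then 0 else
        ((univ.filter fun x => (theta lam phi x).den = (theta lam phi x₀).den).card : ℚ) /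
          (theta lam phi x₀).den) < 1) :
    ∃ a : ℤ, IsCoprime a (N : ℤ) ∧
      ¬ SemistableWeights ℂ (fun j l => (a : ℝ) * lam j l) (fun l => (a : ℝ) * phi l) := by
  by_cases h1 : SemistableWeights ℂ (fun j l => ((1 : ℤ) : ℝ) * lam j l)
      (fun l => ((1 : ℤ) : ℝ) * phi l)
  · obtain ⟨T, hT⟩ := semistable_trace h1
    have hTq : ∑ j, ∑ l, lam j l - ∑ l, phi l = T := by
      have h2 : (((∑ j, ∑ l, lam j l - ∑ l, phi l : ℚ)) : ℝ) = ((T : ℚ) : ℝ) := by
        rw [Rat.cast_intCast, ← hT]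
        push_cast
        simp only [one_mul]
      exact_mod_cast h2
    have hsum : ∑ x, theta lam phi x = 2 * (∑ j, lam j 0 - phi 1) - T := by
      rw [Fintype.sum_option]
      simp only [theta, Option.elim]
      simp only [Fin.sum_univ_two, sum_add_distrib] at hTq
      rw [sum_sub_distrib]
      linarith
    have hσ : ∃ m : ℤ, (N : ℚ) * (∑ j, lam j 0 - phi 1) = m := by
      choose ml hml using hNlam
      choose mp hmp using hNphi
      refine ⟨∑ j, ml j 0 - mp 1, ?_⟩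
      push_cast
      rw [mul_sub, mul_sum, hmp, sum_congr rfl fun j _ => hml j 0]
    obtain ⟨a, ε, ha, hm, hl, he⟩ := blocks h hsum hN hσ x₀ h0 hodd hlt
    exact ⟨a, ha, fun hs => semistable_not_lo hs (lo_of_close lam phi hTq hm hl he)⟩
  · exact ⟨1, isCoprime_one_left, h1⟩

theorem op_blocks {m : ℕ} (hm : 0 < m) (b : Fin 3 → ℤ[X]) (α : Fin m → AlgebraicClosure ℚ)
    (lam : Fin m → Fin 2 → ℚ) (phi : Fin 2 → ℚ) (N : ℕ) (hF : FuchsianWith b α lam phi)
    (hN : CommonDen lam phi N)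
    (h : ∀ x y, (theta lam phi x).den.Coprime (theta lam phi y).den ∨
      (∃ m : ℤ, theta lam phi x - theta lam phi y = m) ∨
      (∃ m : ℤ, theta lam phi x + theta lam phi y = m))
    (x₀ : Option (Fin m)) (h0 : (theta lam phi x₀).den ≠ 1)
    (hodd : Odd (univ.filter fun x => (theta lam phi x).den = (theta lam phi x₀).den).card)
    (hlt : (∑ x, if (theta lam phi x).den = 1 then (0 : ℚ) else 1 / (theta lam phi x).den) +
      (if Even (theta lam phi x₀).den then 0 else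
        ((univ.filter fun x => (theta lam phi x).den = (theta lam phi x₀).den).card : ℚ) /
          (theta lam phi x₀).den) < 1) :
    (∃ a : ℤ, IsCoprime a (N : ℤ) ∧ ∃ P₀ : ℕ, ∀ p : ℕ, P₀ < p → (N : ℤ) ∣ a * p + 1 →
      ∀ _hp : Fact p.Prime, ¬ FullMod b p) ∧ ¬ Cond b := by
  obtain ⟨a, ha, hss⟩ := not_semistable lam phi N hN.1 hN.2.1 hN.2.2 h x₀ h0 hodd hlt
  obtain ⟨P₀, hP⟩ := bad_class hm (n := 2) two_pos hF hN a (Or.inl hss)
  refine ⟨⟨a, ha, P₀, hP⟩, fun hc => ?_⟩
  obtain ⟨p, hp1, hp2, hp3, hp4⟩ := cond_infinite hc hN.1 ha P₀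
  exact hP p hp1 hp2 hp3 hp4

end Pool.Agent.Helper104.PCV
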