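import Pool.Agent.Helper104.PCV.Near
import Pool.Agent.Helper104.PCV.Coprime
import Pool.Agent.Helper104.PCV.Main

set_option autoImplicit false

/-!
Explicit results for all numbers of singular points.
-/

namespace Pool.Agent.Helper104.PCV

open Finset Polynomial Pool.Agent.Y227.SS Pool.Agent.Y227.RT Pool.Agent.Y227.SO
open Pool.Agent.W432.WB Pool.Agent.W432.HK Pool.Agent.W432.PC

universe u

lemma setup {n : ℕ} (lam : Fin n → Fin 2 → ℚ) (phi : Fin 2 → ℚ) {T : ℤ}
    (hT : ∑ j, ∑ l, lam j l - ∑ l, phi l = T) {N : ℕ}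
    (hNlam : ∀ j l, ∃ m : ℤ, (N : ℚ) * lam j l = m) (hNphi : ∀ l, ∃ m : ℤ, (N : ℚ) * phi l = m)
    (S : Finset (Option (Fin n))) (hS : ∀ x ∉ S, ∃ z : ℤ, theta lam phi x = z) :
    ∃ I : ℤ, (∃ w : ℤ, (N : ℚ) * (∑ x : S, theta lam phi x + I) = 2 * w) ∧
      ∀ a : ℤ, Near (fun x : S => theta lam phi x) I a →
        Lo (zz (fun j l => (a : ℝ) * lam j l) (fun l => (a : ℝ) * phi l)) := by
  classical
  have hz : ∀ x, ∃ z : ℤ, x ∉ S → theta lam phi x = z := by
    intro x
    by_cases hx : x ∈ S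
    · exact ⟨0, fun h => absurd hx h⟩
    · obtain ⟨z, hz⟩ := hS x hx
      exact ⟨z, fun _ => hz⟩
  choose z hz using hz
  have hsum : ∑ x, theta lam phi x = 2 * (∑ j, lam j 0 - phi 1) - T := by
    rw [Fintype.sum_option]
    simp only [theta, Option.elim]
    simp only [Fin.sum_univ_two, sum_add_distrib] at hT
    rw [sum_sub_distrib]
    linarith
  have hsplit : ∀ f : Option (Fin n) → ℚ, ∑ x, f x = ∑ x : S, f x + ∑ x ∈ Sᶜ, f x := by
    intro f
    rw [← sum_add_sum_compl S f, sum_coe_sort S f]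
  have hcompl : ∑ x ∈ Sᶜ, theta lam phi x = ((∑ x ∈ Sᶜ, z x : ℤ) : ℚ) := by
    push_cast
    exact sum_congr rfl fun x hx => hz x (mem_compl.1 hx)
  have hSsum : ∑ x : S, theta lam phi x + ((T + ∑ x ∈ Sᶜ, z x : ℤ) : ℚ) =
      2 * (∑ j, lam j 0 - phi 1) := by
    have h1 := hsplit (theta lam phi)
    rw [hsum, hcompl] at h1
    push_cast at h1 ⊢
    linarith
  refine ⟨T + ∑ x ∈ Sᶜ, z x, ?_, ?_⟩
  · choose ml hml using hNlam
    choose mp hmp using hNphi
    refine ⟨∑ j, ml j 0 - mp 1, ?_⟩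
    rw [hSsum]
    push_cast
    rw [← hmp, sum_congr rfl fun j _ => (hml j 0).symm, ← mul_sum]
    ring
  · rintro a ⟨μ, ⟨e, he⟩, hlt⟩
    let μ' : Option (Fin n) → ℤ := fun x => if h : x ∈ S then μ ⟨x, h⟩ else a * z x
    have hin : ∀ x : S, μ' x = μ x := fun x => by
      simp only [μ', dif_pos x.2]
    have hout : ∀ x ∈ Sᶜ, μ' x = a * z x := fun x hx => by
      simp only [μ', dif_neg (mem_compl.1 hx)]
    refine lo_of_close lam phi hT (a := a) (ε := fun x => a * theta lam phi x - μ' x)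
      (fun x => ⟨μ' x, by ring⟩) ?_ ⟨e, ?_⟩
    · rw [hsplit]
      have h1 : ∑ x ∈ Sᶜ, |(a : ℚ) * theta lam phi x - μ' x| = 0 := by
        refine sum_eq_zero fun x hx => ?_
        rw [hout x hx, hz x (mem_compl.1 hx)]
        simp
      rw [h1, add_zero]
      simp only [hin]
      exact hlt
    · rw [sum_sub_distrib, ← mul_sum, hsum, hsplit (fun x => (μ' x : ℚ))]
      have h1 : ∑ x : S, (μ' x : ℚ) = ((∑ x : S, μ x : ℤ) : ℚ) := by
        push_cast
        exact sum_congr rfl fun x _ => by rw [hin x]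
      have h2 : ∑ x ∈ Sᶜ, (μ' x : ℚ) = ((a * ∑ x ∈ Sᶜ, z x : ℤ) : ℚ) := by
        push_cast
        rw [mul_sum]
        exact sum_congr rfl fun x hx => by rw [hout x hx]; push_cast; ring
      rw [h1, h2]
      have h3 : ((a * (T + ∑ x ∈ Sᶜ, z x) + ∑ x, μ x : ℤ) : ℚ) = ((2 * e + 1 : ℤ) : ℚ) := by
        rw [he]
      push_cast at h3 ⊢
      linear_combination h3

/-- Prime denominators. -/
theorem not_semistable_prime {n : ℕ} (lam : Fin n → Fin 2 → ℚ) (phi : Fin 2 → ℚ) {T : ℤ}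
    (hT : ∑ j, ∑ l, lam j l - ∑ l, phi l = T) {N : ℕ} (hN : N.Prime)
    (hNlam : ∀ j l, ∃ m : ℤ, (N : ℚ) * lam j l = m) (hNphi : ∀ l, ∃ m : ℤ, (N : ℚ) * phi l = m)
    (S : Finset (Option (Fin n))) (hS : ∀ x, x ∈ S ↔ ¬ ∃ z : ℤ, theta lam phi x = z)
    (hne : S.Nonempty)
    (hrel : ∀ j : Option (Fin n) → ℤ, (∃ x ∈ S, j x ≠ 0) → (∀ x ∈ S, |j x| ≤ S.card) →
      ((∀ x ∈ S, Even (j x)) ∨ ∀ x ∈ S, Odd (j x)) →
        ¬ ∃ z : ℤ, ∑ x ∈ S, j x * theta lam phi x = z) :
    ∃ a : ℤ, IsCoprime a (N : ℤ) ∧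
      ¬ SemistableWeights ℂ (fun j l => (a : ℝ) * lam j l) (fun l => (a : ℝ) * phi l) := by
  classical
  obtain ⟨I, hI, hLo⟩ := setup lam phi hT hNlam hNphi S (fun x hx => by
    by_contra hcon
    exact hx ((hS x).2 hcon))
  have hNth : ∀ x, ∃ z : ℤ, (N : ℚ) * theta lam phi x = z := by
    choose ml hml using hNlam
    choose mp hmp using hNphi
    rintro (_ | j)
    · refine ⟨mp 0 - mp 1, ?_⟩
      simp only [theta, Option.elim]
      push_cast
      rw [mul_sub, hmp, hmp]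
    · refine ⟨ml j 0 - ml j 1, ?_⟩
      simp only [theta, Option.elim]
      push_cast
      rw [mul_sub, hml, hml]
  have : Nonempty S := hne.to_subtype
  obtain ⟨a, ha0, haN, hnear⟩ := near_prime (θ := fun x : S => theta lam phi x) (I := I) hN.pos
    (fun x => hNth x) hI (by
      intro j hj hjM hpar
      rw [Fintype.card_coe] at hjM
      let j' : Option (Fin n) → ℤ := fun x => if h : x ∈ S then j ⟨x, h⟩ else 0
      have hj' : ∀ x : S, j' x = j x := fun x => by simp only [j', dif_pos x.2]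
      have h1 := hrel j' (by
          by_contra hcon
          push Not at hcon
          apply hj
          funext x
          rw [← hj' x, hcon x.1 x.2]
          rfl) (fun x hx => by
          have := hjM ⟨x, hx⟩
          rwa [← hj' ⟨x, hx⟩] at this) (by
          rcases hpar with h | h
          · left
            intro x hx
            have := h ⟨x, hx⟩
            rwa [← hj' ⟨x, hx⟩] at this
          · right
            intro x hx
            have := h ⟨x, hx⟩
            rwa [← hj' ⟨x, hx⟩] at this)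
      have h2 : ∑ x ∈ S, (j' x : ℚ) * theta lam phi x = ∑ x : S, (j x : ℚ) * theta lam phi x := by
        rw [← sum_coe_sort S (fun x => (j' x : ℚ) * theta lam phi x)]
        exact sum_congr rfl fun x _ => by rw [hj' x]
      rw [h2] at h1
      exact h1)
  refine ⟨a, ?_, fun hs => semistable_not_lo hs (hLo a hnear)⟩
  have hp : Prime (N : ℤ) := Nat.prime_iff_prime_int.mp hN
  refine ((hp.coprime_iff_not_dvd).2 fun hdvd => ?_).symm
  have := Int.le_of_dvd ha0 hdvd
  omega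

/-- General denominators. -/
theorem not_semistable_units {n : ℕ} (lam : Fin n → Fin 2 → ℚ) (phi : Fin 2 → ℚ)
    {N : ℕ} [NeZero N]
    (hNlam : ∀ j l, ∃ m : ℤ, (N : ℚ) * lam j l = m) (hNphi : ∀ l, ∃ m : ℤ, (N : ℚ) * phi l = m)
    (S : Finset (Option (Fin n))) (hS : ∀ x, x ∈ S ↔ ¬ ∃ z : ℤ, theta lam phi x = z)
    (hne : S.Nonempty)
    (hrel : ∀ j : Option (Fin n) → ℤ, (∃ x ∈ S, j x ≠ 0) → (∀ x ∈ S, |j x| ≤ S.card) →
      ((∀ x ∈ S, Even (j x)) ∨ ∀ x ∈ S, Odd (j x)) →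
        ¬ Squarefree (∑ x ∈ S, j x * theta lam phi x).den ∨
        (S.card + 1) ^ 2 * S.card ^ (S.card + 1) ≤
          (∑ x ∈ S, j x * theta lam phi x).den.totient) :
    ∃ U : Finset (ZMod N)ˣ, N.totient ≤ (S.card + 1) ^ 2 * S.card ^ (S.card + 1) * U.card ∧
      ∀ u ∈ U, ¬ SemistableWeights ℂ (fun j l => ((((u : ZMod N).val : ℕ) : ℤ) : ℝ) * lam j l)
        (fun l => ((((u : ZMod N).val : ℕ) : ℤ) : ℝ) * phi l) := by
  classical
  have hNq : (N : ℚ) ≠ 0 := by exact_mod_cast NeZero.ne N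
  by_cases hTr : ∃ T : ℤ, ∑ j, ∑ l, lam j l - ∑ l, phi l = T
  · obtain ⟨T, hT⟩ := hTr
    obtain ⟨I, hI, hLo⟩ := setup lam phi hT hNlam hNphi S (fun x hx => by
      by_contra hcon
      exact hx ((hS x).2 hcon))
    have hNth : ∀ x, ∃ z : ℤ, (N : ℚ) * theta lam phi x = z := by
      choose ml hml using hNlam
      choose mp hmp using hNphi
      rintro (_ | j)
      · refine ⟨mp 0 - mp 1, ?_⟩
        simp only [theta, Option.elim]
        push_cast
        rw [mul_sub, hmp, hmp]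
      · refine ⟨ml j 0 - ml j 1, ?_⟩
        simp only [theta, Option.elim]
        push_cast
        rw [mul_sub, hml, hml]
    have : Nonempty S := hne.to_subtype
    obtain ⟨U, hU, hnear⟩ := near_units (θ := fun x : S => theta lam phi x) (I := I) (N := N)
      (fun x => hNth x) hI (by
        intro j hj hjM hpar
        rw [Fintype.card_coe] at hjM ⊢
        let j' : Option (Fin n) → ℤ := fun x => if h : x ∈ S then j ⟨x, h⟩ else 0
        have hj' : ∀ x : S, j' x = j x := fun x => by simp only [j', dif_pos x.2]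
        have h1 := hrel j' (by
            by_contra hcon
            push Not at hcon
            apply hj
            funext x
            rw [← hj' x, hcon x.1 x.2]
            rfl) (fun x hx => by
            have := hjM ⟨x, hx⟩
            rwa [← hj' ⟨x, hx⟩] at this) (by
            rcases hpar with h | h
            · left
              intro x hx
              have := h ⟨x, hx⟩
              rwa [← hj' ⟨x, hx⟩] at this
            · right
              intro x hx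
              have := h ⟨x, hx⟩
              rwa [← hj' ⟨x, hx⟩] at this)
        have h2 : ∑ x ∈ S, (j' x : ℚ) * theta lam phi x =
            ∑ x : S, (j x : ℚ) * theta lam phi x := by
          rw [← sum_coe_sort S (fun x => (j' x : ℚ) * theta lam phi x)]
          exact sum_congr rfl fun x _ => by rw [hj' x]
        rw [h2] at h1
        exact h1)
    rw [Fintype.card_coe] at hU
    exact ⟨U, hU, fun u hu hs => semistable_not_lo hs (hLo _ (hnear u hu))⟩
  · refine ⟨univ, ?_, fun u _ hs => ?_⟩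
    · rw [card_univ, ZMod.card_units_eq_totient]
      have h1 : 0 < S.card := hne.card_pos
      exact Nat.le_mul_of_pos_left _ (by positivity)
    · apply hTr
      obtain ⟨T, hT⟩ := semistable_trace hs
      set c : ℤ := (((u : ZMod N).val : ℕ) : ℤ) with hc
      have hcop : IsCoprime c (N : ℤ) := Nat.isCoprime_iff_coprime.2 (ZMod.val_coe_unit_coprime u)
      have hcT : (c : ℚ) * (∑ j, ∑ l, lam j l - ∑ l, phi l) = T := by
        have h2 : (((c : ℚ) * (∑ j, ∑ l, lam j l - ∑ l, phi l) : ℚ) : ℝ) = ((T : ℚ) : ℝ) := by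
          rw [Rat.cast_intCast, ← hT]
          push_cast
          rw [mul_sub, mul_sum, mul_sum]
          congr 1
          exact sum_congr rfl fun j _ => by rw [mul_sum]
        exact_mod_cast h2
      have hNT : ∃ T' : ℤ, (N : ℚ) * (∑ j, ∑ l, lam j l - ∑ l, phi l) = T' := by
        choose ml hml using hNlam
        choose mp hmp using hNphi
        refine ⟨∑ j, ∑ l, ml j l - ∑ l, mp l, ?_⟩
        push_cast
        rw [mul_sub, mul_sum, mul_sum, sum_congr rfl fun l _ => hmp l]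
        congr 1
        refine sum_congr rfl fun j _ => ?_
        rw [mul_sum]
        exact sum_congr rfl fun l _ => hml j l
      obtain ⟨T', hT'⟩ := hNT
      obtain ⟨p, q, hpq⟩ := hcop
      refine ⟨p * T + q * T', ?_⟩
      have hpq' : (p : ℚ) * c + q * N = 1 := by exact_mod_cast hpq
      push_cast
      rw [← hcT, ← hT']
      linear_combination (-(∑ j, ∑ l, lam j l - ∑ l, phi l)) * hpq'

/-- Systems. -/
theorem sys_prime {R : Type u} [CommRing R] [IsDomain R] [CharZero R] [Algebra.FiniteType ℤ R]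
    {n : ℕ} (α : Fin n → R) (hα : ∀ i j, i ≠ j → IsUnit (α i - α j))
    (A : Fin n → Matrix (Fin 2) (Fin 2) R) (lam : Fin n → Fin 2 → ℚ) (phi : Fin 2 → ℚ)
    (hlam : ∀ j, HasExponents (A j) (lam j)) (hphi : HasExponents (∑ j, A j) phi)
    (N : ℕ) (hN : N.Prime) (hNlam : ∀ j l, ∃ m : ℤ, (N : ℚ) * lam j l = m)
    (hNphi : ∀ l, ∃ m : ℤ, (N : ℚ) * phi l = m)
    (S : Finset (Option (Fin n))) (hS : ∀ x, x ∈ S ↔ ¬ ∃ z : ℤ, theta lam phi x = z)
    (hne : S.Nonempty)
    (hrel : ∀ j : Option (Fin n) → ℤ, (∃ x ∈ S, j x ≠ 0) → (∀ x ∈ S, |j x| ≤ S.card) →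
      ((∀ x ∈ S, Even (j x)) ∨ ∀ x ∈ S, Odd (j x)) →
        ¬ ∃ z : ℤ, ∑ x ∈ S, j x * theta lam phi x = z) :
    (∃ a : ℤ, IsCoprime a (N : ℤ) ∧ ∃ P₀ : ℕ, ∀ p : ℕ, p.Prime → P₀ < p →
        (N : ℤ) ∣ a * p + 1 → ∀ (𝔪 : Ideal R) [𝔪.IsMaximal], (p : R) ∈ 𝔪 →
          ¬ PCurvZeroAt α A 𝔪) ∧ ¬ CondII α A := by
  have htr := trace_lam A lam phi hlam hphi
  obtain ⟨a, ha, hns⟩ := not_semistable_prime lam phi (T := 0) (by rw [htr]; simp) hN hNlam hNphi S
    hS hne hrel
  have h1 := (final α hα A lam phi hlam hphi N hN.pos hNlam hNphi a).1 hns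
  refine ⟨⟨a, ha, h1⟩, not_condII_of α A N hN.pos a ha ?_⟩
  obtain ⟨P₀, hP⟩ := h1
  exact ⟨1, one_ne_zero, P₀, fun p hp hpP hap 𝔪 _ hpm _ => hP p hp hpP hap 𝔪 hpm⟩

/-- Operators. -/
theorem op_units {m : ℕ} (hm : 0 < m) (b : Fin 3 → ℤ[X]) (α : Fin m → AlgebraicClosure ℚ)
    (lam : Fin m → Fin 2 → ℚ) (phi : Fin 2 → ℚ) (N : ℕ) (hF : FuchsianWith b α lam phi)
    (hN : CommonDen lam phi N)
    (S : Finset (Option (Fin m))) (hS : ∀ x, x ∈ S ↔ ¬ ∃ z : ℤ, theta lam phi x = z)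
    (hne : S.Nonempty)
    (hrel : ∀ j : Option (Fin m) → ℤ, (∃ x ∈ S, j x ≠ 0) → (∀ x ∈ S, |j x| ≤ S.card) →
      ((∀ x ∈ S, Even (j x)) ∨ ∀ x ∈ S, Odd (j x)) →
        ¬ Squarefree (∑ x ∈ S, j x * theta lam phi x).den ∨
        (S.card + 1) ^ 2 * S.card ^ (S.card + 1) ≤
          (∑ x ∈ S, j x * theta lam phi x).den.totient) :
    (∃ (V : Finset (ZMod N)ˣ) (P₀ : ℕ),
      N.totient ≤ (S.card + 1) ^ 2 * S.card ^ (S.card + 1) * V.card ∧
      ∀ p : ℕ, P₀ < p → (∃ v ∈ V, ((p : ℕ) : ZMod N) = ((v : (ZMod N)ˣ) : ZMod N)) →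
        ∀ _hp : Fact p.Prime, ¬ FullMod b p) ∧ ¬ Cond b := by
  classical
  have hN0 := hN.1
  have : NeZero N := ⟨hN0.ne'⟩
  obtain ⟨U, hU, hns⟩ := not_semistable_units lam phi hN.2.1 hN.2.2 S hS hne hrel
  have hbad : ∀ u ∈ U, ∃ P : ℕ, ∀ p : ℕ, P < p → (N : ℤ) ∣ (((u : ZMod N).val : ℕ) : ℤ) * p + 1 →
      ∀ _hp : Fact p.Prime, ¬ FullMod b p := fun u hu =>
    bad_class hm (n := 2) two_pos hF hN _ (Or.inl (hns u hu))
  refine ⟨?_, ?_⟩
  · choose! P hP using hbad
    refine ⟨U.image (fun u => -u⁻¹), U.sup P, ?_, ?_⟩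
    · rw [Finset.card_image_of_injective]
      · exact hU
      · intro u v huv
        have h1 : -u⁻¹ = -v⁻¹ := huv
        exact inv_injective (neg_injective h1)
    · rintro p hpP ⟨v, hv, hpv⟩ hp
      obtain ⟨u, hu, rfl⟩ := Finset.mem_image.mp hv
      refine hP u hu p (lt_of_le_of_lt (Finset.le_sup hu) hpP) ?_ hp
      rw [← ZMod.intCast_zmod_eq_zero_iff_dvd]
      push_cast
      rw [ZMod.natCast_zmod_val, hpv, Units.val_neg, mul_neg, Units.mul_inv, neg_add_cancel]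
  · intro hc
    have hpos : 0 < U.card := by
      by_contra hcon
      push Not at hcon
      have h1 : U.card = 0 := by omega
      rw [h1, mul_zero] at hU
      have := Nat.totient_pos.2 hN0
      omega
    obtain ⟨u, hu⟩ := Finset.card_pos.1 hpos
    obtain ⟨P₀, hP⟩ := hbad u hu
    obtain ⟨p, hp1, hp2, hp3, hp4⟩ := cond_infinite hc hN0
      (Nat.isCoprime_iff_coprime.2 (ZMod.val_coe_unit_coprime u)) P₀
    exact hP p hp1 hp2 hp3 hp4

end Pool.Agent.Helper104.PCV
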