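import Mathlib

set_option autoImplicit false

/-!
Sums of the powers of a root of unity over the units modulo `N`.
-/

namespace Pool.Agent.Helper104.PCV

open Finset

lemma sum_nthRoots {n : ℕ} (hn : 0 < n) : ∑ z ∈ Polynomial.nthRootsFinset n (1 : ℂ), z =
    if n = 1 then 1 else 0 := by
  classical
  split_ifs with h
  · subst h
    have : Polynomial.nthRootsFinset 1 (1 : ℂ) = {1} := by
      ext z
      simp [Polynomial.mem_nthRootsFinset one_pos]
    rw [this, sum_singleton]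
  · have hζ := Complex.isPrimitiveRoot_exp n hn.ne'
    set ζ := Complex.exp (2 * Real.pi * Complex.I / n) with hζd
    have hinj : ∑ z ∈ Polynomial.nthRootsFinset n (1 : ℂ), ζ * z =
        ∑ z ∈ Polynomial.nthRootsFinset n (1 : ℂ), z := by
      refine sum_bij (fun z _ => ζ * z) ?_ ?_ ?_ ?_
      · intro z hz
        rw [Polynomial.mem_nthRootsFinset hn] at hz ⊢
        rw [mul_pow, hz, hζ.pow_eq_one, mul_one]
      · intro a _ b _ h
        exact mul_left_cancel₀ (hζ.ne_zero hn.ne') h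
      · intro z hz
        rw [Polynomial.mem_nthRootsFinset hn] at hz
        refine ⟨ζ⁻¹ * z, ?_, ?_⟩
        · rw [Polynomial.mem_nthRootsFinset hn, mul_pow, hz, inv_pow, hζ.pow_eq_one]
          simp
        · rw [mul_inv_cancel_left₀ (hζ.ne_zero hn.ne')]
      · intro z _
        rfl
    rw [← mul_sum] at hinj
    have h1 : (ζ - 1) * ∑ z ∈ Polynomial.nthRootsFinset n (1 : ℂ), z = 0 := by
      rw [sub_mul, hinj, one_mul, sub_self]
    rcases mul_eq_zero.1 h1 with h2 | h2
    · exfalso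
      have h3 : ζ = 1 := by linear_combination h2
      have h4 := hζ.eq_orderOf
      rw [h3, orderOf_one] at h4
      exact h h4
    · exact h2

lemma sum_primitiveRoots {n : ℕ} (hn : 0 < n) :
    ∑ z ∈ primitiveRoots n ℂ, z = (ArithmeticFunction.moebius n : ℂ) := by
  classical
  have h1 : ∀ n > 0, ∑ i ∈ n.divisors, ∑ z ∈ primitiveRoots i ℂ, z =
      (fun n : ℕ => if n = 1 then (1 : ℂ) else 0) n := by
    intro n hn
    beta_reduce
    rw [← sum_nthRoots hn, IsPrimitiveRoot.nthRoots_one_eq_biUnion_primitiveRoots, sum_biUnion]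
    intro i _ j _ hij
    exact IsPrimitiveRoot.disjoint hij
  have h2 := ArithmeticFunction.sum_eq_iff_sum_mul_moebius_eq.1 h1 n hn
  rw [← h2]
  rw [sum_eq_single (n, 1)]
  · simp
  · rintro ⟨a, b⟩ hab hne
    rw [Nat.mem_divisorsAntidiagonal] at hab
    have : b ≠ 1 := by
      rintro rfl
      apply hne
      simp at hab
      rw [hab.1]
    simp [this]
  · intro h
    exfalso
    apply h
    rw [Nat.mem_divisorsAntidiagonal]
    exact ⟨mul_one n, hn.ne'⟩

lemma sum_units {ζ : ℂ} {D : ℕ} [NeZero D] (hζ : IsPrimitiveRoot ζ D) :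
    ∑ v : (ZMod D)ˣ, ζ ^ (v : ZMod D).val = (ArithmeticFunction.moebius D : ℂ) := by
  classical
  have hD : 0 < D := Nat.pos_of_ne_zero (NeZero.ne D)
  rw [← sum_primitiveRoots hD]
  have hinj : Set.InjOn (fun v : (ZMod D)ˣ => ζ ^ (v : ZMod D).val)
      ((univ : Finset (ZMod D)ˣ) : Set (ZMod D)ˣ) := by
    intro v _ w _ h
    have h1 := hζ.pow_inj (ZMod.val_lt _) (ZMod.val_lt _) h
    exact Units.ext (ZMod.val_injective D h1)
  have himg : (univ : Finset (ZMod D)ˣ).image (fun v : (ZMod D)ˣ => ζ ^ (v : ZMod D).val) =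
      primitiveRoots D ℂ := by
    apply eq_of_subset_of_card_le
    · intro z hz
      obtain ⟨v, -, rfl⟩ := mem_image.1 hz
      rw [mem_primitiveRoots hD]
      exact hζ.pow_of_coprime _ (ZMod.val_coe_unit_coprime v)
    · rw [card_image_of_injOn hinj, hζ.card_primitiveRoots, card_univ, ZMod.card_units_eq_totient]
  rw [← himg, sum_image hinj]

theorem sum_units_eq {N : ℕ} [NeZero N] {ζ : ℂ} (h : ζ ^ N = 1) : ∃ k : ℕ,
    k * (orderOf ζ).totient = N.totient ∧ ∑ u : (ZMod N)ˣ, ζ ^ (u : ZMod N).val =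
      k * (ArithmeticFunction.moebius (orderOf ζ) : ℂ) := by
  classical
  set D := orderOf ζ with hD
  have hdvd : D ∣ N := orderOf_dvd_of_pow_eq_one h
  have hN : 0 < N := Nat.pos_of_ne_zero (NeZero.ne N)
  have hD0 : 0 < D := Nat.pos_of_dvd_of_pos hdvd hN
  have : NeZero D := ⟨hD0.ne'⟩
  have hζ : IsPrimitiveRoot ζ D := IsPrimitiveRoot.orderOf ζ
  let f := ZMod.unitsMap hdvd
  have hf : Function.Surjective f := ZMod.unitsMap_surjective hdvd
  have hpow : ∀ u : (ZMod N)ˣ, ζ ^ (u : ZMod N).val = ζ ^ ((f u : (ZMod D)ˣ) : ZMod D).val := by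
    intro u
    rw [← pow_mod_orderOf ζ (u : ZMod N).val, ← pow_mod_orderOf ζ ((f u : (ZMod D)ˣ) : ZMod D).val,
      ← hD]
    have h1 : (((u : ZMod N).val : ℕ) : ZMod D) =
        ((((f u : (ZMod D)ˣ) : ZMod D).val : ℕ) : ZMod D) := by
      rw [ZMod.natCast_zmod_val]
      change _ = ((ZMod.unitsMap hdvd u : (ZMod D)ˣ) : ZMod D)
      rw [ZMod.unitsMap_val, ZMod.natCast_val]
    have h2 : (u : ZMod N).val % D = ((f u : (ZMod D)ˣ) : ZMod D).val % D :=
      (ZMod.natCast_eq_natCast_iff _ _ _).1 h1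
    rw [h2]
  obtain ⟨k, hk⟩ : ∃ k : ℕ, ∀ v : (ZMod D)ˣ, (univ.filter fun u => f u = v).card = k := by
    refine ⟨(univ.filter fun u => f u = 1).card, fun v => ?_⟩
    exact MonoidHom.card_fiber_eq_of_mem_range f (hf v) (hf 1)
  have hcard : k * D.totient = N.totient := by
    have h1 := card_eq_sum_card_fiberwise (f := f) (s := (univ : Finset (ZMod N)ˣ))
      (t := univ) (fun _ _ => mem_univ _)
    rw [sum_congr rfl fun v _ => hk v, sum_const, card_univ, card_univ,
      ZMod.card_units_eq_totient, ZMod.card_units_eq_totient, smul_eq_mul] at h1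
    rw [h1]
    ring
  refine ⟨k, hcard, ?_⟩
  rw [← sum_units hζ, sum_congr rfl fun u _ => hpow u,
    ← sum_fiberwise_of_maps_to (s := (univ : Finset (ZMod N)ˣ)) (t := univ) (g := f)
      (fun _ _ => mem_univ _), mul_sum]
  refine sum_congr rfl fun v _ => ?_
  rw [sum_congr rfl fun u hu => by rw [(mem_filter.1 hu).2], sum_const, hk v, nsmul_eq_mul]

theorem norm_sum_units {N : ℕ} [NeZero N] {ζ : ℂ} (h : ζ ^ N = 1) :
    ‖∑ u : (ZMod N)ˣ, ζ ^ (u : ZMod N).val‖ * (orderOf ζ).totient ≤ N.totient := by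
  obtain ⟨k, hcard, hsum⟩ := sum_units_eq h
  rw [hsum, norm_mul, Complex.norm_natCast]
  have hμ : ‖(ArithmeticFunction.moebius (orderOf ζ) : ℂ)‖ ≤ 1 := by
    rw [Complex.norm_intCast]
    exact_mod_cast ArithmeticFunction.abs_moebius_le_one
  calc (k : ℝ) * ‖(ArithmeticFunction.moebius (orderOf ζ) : ℂ)‖ * (orderOf ζ).totient ≤
        k * 1 * (orderOf ζ).totient := by gcongr
    _ = N.totient := by rw [mul_one]; exact_mod_cast hcard

theorem sum_units_zero {N : ℕ} [NeZero N] {ζ : ℂ} (h : ζ ^ N = 1)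
    (hs : ¬ Squarefree (orderOf ζ)) : ∑ u : (ZMod N)ˣ, ζ ^ (u : ZMod N).val = 0 := by
  obtain ⟨k, hcard, hsum⟩ := sum_units_eq h
  rw [hsum, ArithmeticFunction.moebius_eq_zero_of_not_squarefree hs, Int.cast_zero, mul_zero]

end Pool.Agent.Helper104.PCV
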