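import Pool.Agent.Helper104.PCV.Good
import Pool.Agent.Helper104.PCV.Ram

set_option autoImplicit false

/-!
Multiples of a rational point near the odd points: explicit results.
-/

namespace Pool.Agent.Helper104.PCV

open Finset Real

section

variable {S : Type*} [Fintype S] [DecidableEq S]

/-- The multiple by `a` of the point is near an odd point. -/
def Near (θ : S → ℚ) (I : ℤ) (a : ℤ) : Prop :=
  ∃ μ : S → ℤ, Odd (a * I + ∑ x, μ x) ∧ ∑ x, |(a : ℚ) * θ x - μ x| < 1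

/-- The inner sum. -/
noncomputable def HH (θ : S → ℚ) (I : ℤ) (a : ℤ) : ℝ :=
  ∑ μ : S → Fin 2, (if WW I a μ then gg (fun x => a * (θ x : ℝ) - (μ x : ℕ)) else 0)

lemma near_of_gg [Nonempty S] {θ : S → ℚ} {I a : ℤ} {μ : S → Fin 2} (hW : WW I a μ)
    (h : 0 < gg (fun x => a * (θ x : ℝ) - (μ x : ℕ))) : Near θ I a := by
  have hF : 0 ≤ ∏ x, FF (Fintype.card S) (a * (θ x : ℝ) - (μ x : ℕ)) :=
    prod_nonneg fun x _ => FF_nonneg _ _
  have h1 : 0 < ∑ y, cos (π * (a * (θ y : ℝ) - (μ y : ℕ))) -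
      Fintype.card S * cos (π / Fintype.card S) := by
    by_contra hcon
    push Not at hcon
    have := mul_nonpos_of_nonpos_of_nonneg hcon hF
    unfold gg at h
    beta_reduce at h
    linarith
  obtain ⟨z, hz⟩ := close_of_cos (fun x => a * (θ x : ℝ) - (μ x : ℕ)) (by linarith)
  refine ⟨fun x => (μ x : ℕ) + 2 * z x, ?_, ?_⟩
  · rw [sum_add_distrib, ← mul_sum, ← add_assoc]
    exact Odd.add_even hW ⟨∑ x, z x, by ring⟩
  · have h2 : ((∑ x, |(a : ℚ) * θ x - (((μ x : ℕ) + 2 * z x : ℤ) : ℚ)| : ℚ) : ℝ) < 1 := by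
      push_cast
      refine lt_of_le_of_lt (le_of_eq ?_) hz
      refine sum_congr rfl fun x _ => ?_
      congr 1
      ring
    exact_mod_cast h2

lemma near_of_HH [Nonempty S] {θ : S → ℚ} {I a : ℤ} (h : 0 < HH θ I a) : Near θ I a := by
  unfold HH at h
  obtain ⟨μ, -, hμ⟩ := exists_lt_of_sum_lt (s := (univ : Finset (S → Fin 2)))
    (f := fun _ => (0 : ℝ)) (g := fun μ : S → Fin 2 =>
      (if WW I a μ then gg (fun x => a * (θ x : ℝ) - (μ x : ℕ)) else 0)) (by simpa using h)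
  by_cases hW : WW I a μ
  · rw [if_pos hW] at hμ
    exact near_of_gg hW hμ
  · rw [if_neg hW] at hμ
    exact absurd hμ (lt_irrefl _)

/-- The number of the shifts of the given parity. -/
lemma card_WW [Nonempty S] (I a : ℤ) :
    (∑ μ : S → Fin 2, (if WW I a μ then (1 : ℝ) else 0)) = 2 ^ Fintype.card S / 2 := by
  have h1 := TT_zero (S := S) (fun _ => (0 : ℝ)) I {a}
  unfold TT at h1
  rw [sum_singleton] at h1
  simp only [Pi.zero_apply, Int.cast_zero, zero_mul, sum_const_zero, ee_zero, mul_one,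
    card_singleton, Nat.cast_one] at h1
  have h2 : ((∑ μ : S → Fin 2, (if WW I a μ then (1 : ℝ) else 0) : ℝ) : ℂ) =
      ((2 ^ Fintype.card S / 2 : ℝ) : ℂ) := by
    push_cast
    rw [← h1]
    refine sum_congr rfl fun μ _ => ?_
    split_ifs <;> simp
  exact_mod_cast h2

lemma HH_le [Nonempty S] (θ : S → ℚ) (I a : ℤ) : HH θ I a ≤ 2 ^ Fintype.card S / 2 *
    (2 * Fintype.card S * (Fintype.card S * nrm (Fintype.card S)) ^ Fintype.card S) := by
  rw [← card_WW I a, sum_mul]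
  unfold HH
  refine sum_le_sum fun μ _ => ?_
  split_ifs
  · rw [one_mul]
    exact gg_le _
  · rw [zero_mul]

/-- The frequencies. -/
lemma freq_even {θ : S → ℚ} {N : ℕ} (hθ : ∀ x, ∃ z : ℤ, (N : ℚ) * θ x = z) {j : S → ℤ}
    (hj : ∀ x, Even (j x)) : ∃ z : ℤ, (N : ℝ) * ∑ x, (j x : ℝ) * (θ x : ℝ) = 2 * z := by
  choose e he using hθ
  choose k hk using fun x => (hj x).two_dvd
  refine ⟨∑ x, k x * e x, ?_⟩
  have h1 : ∀ x, (N : ℝ) * (θ x : ℝ) = e x := fun x => by exact_mod_cast he x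
  push_cast
  rw [mul_sum, mul_sum]
  refine sum_congr rfl fun x _ => ?_
  rw [hk x, ← h1]
  push_cast
  ring

lemma freq_odd {θ : S → ℚ} {I : ℤ} {N : ℕ} (hθ : ∀ x, ∃ z : ℤ, (N : ℚ) * θ x = z)
    (hσ : ∃ w : ℤ, (N : ℚ) * (∑ x, θ x + I) = 2 * w) {j : S → ℤ} (hj : ∀ x, Odd (j x)) :
    ∃ z : ℤ, (N : ℝ) * (∑ x, (j x : ℝ) * (θ x : ℝ) + I) = 2 * z := by
  choose e he using hθ
  choose k hk using hj
  obtain ⟨w, hw⟩ := hσ
  refine ⟨∑ x, k x * e x + w, ?_⟩
  have h1 : ∀ x, (N : ℝ) * (θ x : ℝ) = e x := fun x => by exact_mod_cast he x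
  have h2 : (N : ℝ) * (∑ x, (θ x : ℝ) + I) = 2 * w := by
    have := congrArg (fun q : ℚ => (q : ℝ)) hw
    push_cast at this
    exact this
  have h3 : ∑ x, (j x : ℝ) * (θ x : ℝ) = 2 * ∑ x, (k x : ℝ) * θ x + ∑ x, (θ x : ℝ) := by
    rw [mul_sum, ← sum_add_distrib]
    refine sum_congr rfl fun x _ => ?_
    rw [hk x]
    push_cast
    ring
  have h4 : (N : ℝ) * ∑ x, (k x : ℝ) * θ x = ∑ x, (k x : ℝ) * e x := by
    rw [mul_sum]
    exact sum_congr rfl fun x _ => by rw [← h1]; ring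
  push_cast
  rw [h3]
  linear_combination h2 + 2 * h4

/-- A sum over all residues. -/
lemma sum_range_ee {N : ℕ} {t : ℝ} (h : ∃ z : ℤ, (N : ℝ) * t = 2 * z)
    (ht : ¬ ∃ z : ℤ, t = 2 * z) :
    ∑ a ∈ (range N).map (Nat.castEmbedding : ℕ ↪ ℤ), ee (a * t) = 0 := by
  rw [sum_map]
  have h1 : ∀ k : ℕ, ee (((Nat.castEmbedding (R := ℤ) k : ℤ) : ℝ) * t) = ee t ^ k := by
    intro k
    rw [← ee_nat_mul]
    simp
  rw [sum_congr rfl fun k _ => h1 k]
  have h2 : ee t ≠ 1 := fun h' => ht ((ee_eq_one_iff t).1 h')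
  rw [geom_sum_eq h2, ← ee_nat_mul, (ee_eq_one_iff _).2 h, sub_self, zero_div]

/-- Prime denominators: no short relation. -/
theorem near_prime [Nonempty S] {θ : S → ℚ} {I : ℤ} {N : ℕ} (hN : 0 < N)
    (hθ : ∀ x, ∃ z : ℤ, (N : ℚ) * θ x = z) (hσ : ∃ w : ℤ, (N : ℚ) * (∑ x, θ x + I) = 2 * w)
    (hrel : ∀ j : S → ℤ, j ≠ 0 → (∀ x, |j x| ≤ Fintype.card S) →
      ((∀ x, Even (j x)) ∨ ∀ x, Odd (j x)) → ¬ ∃ z : ℤ, ∑ x, j x * θ x = z) :
    ∃ a : ℤ, 0 < a ∧ a < N ∧ Near θ I a := by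
  have hMpos : 0 < Fintype.card S := Fintype.card_pos
  set 𝒜 := (range N).map (Nat.castEmbedding : ℕ ↪ ℤ) with h𝒜
  have hcast : ∀ j : S → ℤ, ((∑ x, j x * θ x : ℚ) : ℝ) = ∑ x, (j x : ℝ) * (θ x : ℝ) := by
    intro j
    push_cast
    rfl
  have hB : ∀ j : S → ℤ, j ≠ 0 → (∀ x, |j x| ≤ Fintype.card S) →
      ‖TT (fun x => (θ x : ℝ)) I 𝒜 j‖ ≤ 0 := by
    intro j hj hjM
    have h1 := TT_le (fun x => (θ x : ℝ)) I 𝒜 j (B := 0) le_rfl (fun he => by
      rw [sum_range_ee (freq_even hθ he), norm_zero]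
      rintro ⟨z, hz⟩
      apply hrel j hj hjM (Or.inl he)
      refine ⟨2 * z, ?_⟩
      rw [← hcast] at hz
      exact_mod_cast hz) (fun ho => by
      rw [sum_range_ee (freq_odd hθ hσ ho), norm_zero]
      rintro ⟨z, hz⟩
      apply hrel j hj hjM (Or.inr ho)
      refine ⟨2 * z - I, ?_⟩
      rw [← hcast] at hz
      have h2 : ((∑ x, j x * θ x : ℚ) : ℝ) = ((2 * z - I : ℤ) : ℝ) := by
        push_cast
        push_cast at hz
        linarith
      exact_mod_cast h2)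
    simpa using h1
  have hlow := main_lower (fun x => (θ x : ℝ)) I 𝒜 le_rfl hB
  have hgap := cos_gap hMpos
  have hgap0 : (0 : ℝ) < 4 / ((Fintype.card S : ℝ) * (Fintype.card S + 1) ^ 2) := by
    have : (0 : ℝ) < Fintype.card S := by exact_mod_cast hMpos
    positivity
  have hpos : 0 < ∑ a ∈ 𝒜, HH θ I a := by
    refine lt_of_lt_of_le ?_ hlow
    rw [zero_mul, mul_zero, sub_zero]
    have hc : (0 : ℝ) < 𝒜.card := by
      rw [h𝒜, card_map, card_range]
      exact_mod_cast hN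
    have h2 := nrm_pos hMpos
    have h3 : (0 : ℝ) < Fintype.card S := by exact_mod_cast hMpos
    have h4 : 0 < cos (π / (Fintype.card S + 1)) - cos (π / Fintype.card S) := by linarith
    positivity
  obtain ⟨a, ha, hpa⟩ := exists_lt_of_sum_lt (s := 𝒜) (f := fun _ => (0 : ℝ))
    (g := fun a => HH θ I a) (by simpa using hpos)
  obtain ⟨k, hk, rfl⟩ := mem_map.1 ha
  rw [mem_range] at hk
  have hnear := near_of_HH hpa
  refine ⟨(k : ℤ), ?_, by exact_mod_cast hk, hnear⟩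
  rcases Nat.eq_zero_or_pos k with rfl | hk0
  · exfalso
    obtain ⟨μ, hμ, hlt⟩ := hnear
    have hz : ∀ x, μ x = 0 := by
      intro x
      have h1 : |((Nat.castEmbedding (R := ℤ) 0 : ℤ) : ℚ) * θ x - μ x| < 1 :=
        lt_of_le_of_lt (single_le_sum
          (f := fun x => |((Nat.castEmbedding (R := ℤ) 0 : ℤ) : ℚ) * θ x - μ x|)
          (fun x _ => abs_nonneg _) (mem_univ x)) hlt
      simp only [Nat.castEmbedding_apply, Nat.cast_zero, Int.cast_zero, zero_mul, zero_sub,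
        abs_neg] at h1
      have h2 : |μ x| < 1 := by exact_mod_cast h1
      exact Int.abs_lt_one_iff.1 h2
    simp only [hz, Nat.castEmbedding_apply, Nat.cast_zero, zero_mul, sum_const_zero,
      add_zero] at hμ
    exact absurd hμ (by decide)
  · exact_mod_cast hk0

/-- The units as a set of integers. -/
noncomputable def unitSet (N : ℕ) [NeZero N] : Finset ℤ :=
  (univ : Finset (ZMod N)ˣ).image fun u : (ZMod N)ˣ => ((u : ZMod N).val : ℤ)

lemma unitSet_inj (N : ℕ) [NeZero N] :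
    Function.Injective fun u : (ZMod N)ˣ => ((u : ZMod N).val : ℤ) := by
  intro u v h
  have h' : (((u : ZMod N).val : ℕ) : ℤ) = (((v : ZMod N).val : ℕ) : ℤ) := h
  have h1 : (u : ZMod N).val = (v : ZMod N).val := by exact_mod_cast h'
  exact Units.ext (ZMod.val_injective N h1)

lemma unitSet_card (N : ℕ) [NeZero N] : (unitSet N).card = N.totient := by
  unfold unitSet
  rw [card_image_of_injective _ (unitSet_inj N), card_univ, ZMod.card_units_eq_totient]

/-- A sum over the units. -/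
lemma sum_unit_ee {N : ℕ} [NeZero N] {t : ℝ} (h : ∃ z : ℤ, (N : ℝ) * t = 2 * z) {q : ℚ} {I : ℤ}
    (hq : t = q + I) {C : ℝ} (hC0 : 0 < C)
    (hC : ¬ Squarefree q.den ∨ C ≤ (q.den.totient : ℝ)) :
    ‖∑ a ∈ unitSet N, ee (a * t)‖ ≤ N.totient / C := by
  have h1 : ∑ a ∈ unitSet N, ee (a * t) = ∑ u : (ZMod N)ˣ, ee t ^ (u : ZMod N).val := by
    unfold unitSet
    rw [sum_image (unitSet_inj N).injOn]
    refine sum_congr rfl fun u _ => ?_
    rw [← ee_nat_mul]
    simp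
  have h2 : ee t ^ N = 1 := by
    rw [← ee_nat_mul, ee_eq_one_iff]
    exact h
  have h4 : q.den ∣ orderOf (ee t) := by
    have h5 : ee t ^ orderOf (ee t) = 1 := pow_orderOf_eq_one _
    rw [← ee_nat_mul, ee_eq_one_iff] at h5
    obtain ⟨z, hz⟩ := h5
    have hq' : (q : ℝ) = t - I := by linarith
    have h6 : (orderOf (ee t) : ℚ) * q = ((2 * z - orderOf (ee t) * I : ℤ) : ℚ) := by
      have h7 : (orderOf (ee t) : ℝ) * (q : ℝ) = 2 * z - orderOf (ee t) * I := by
        rw [hq']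
        linear_combination hz
      exact_mod_cast h7
    have h8 : (q.den : ℤ) ∣ (orderOf (ee t) : ℤ) * q.num := by
      have h9 : (orderOf (ee t) : ℚ) * q.num = (2 * z - orderOf (ee t) * I : ℤ) * q.den := by
        rw [← h6, ← Rat.mul_den_eq_num q]
        ring
      have h10 : (orderOf (ee t) : ℤ) * q.num = (2 * z - orderOf (ee t) * I : ℤ) * q.den := by
        exact_mod_cast h9
      rw [h10]
      exact dvd_mul_left _ _
    have h11 : (q.den : ℤ) ∣ (orderOf (ee t) : ℤ) :=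
      q.isCoprime_num_den.symm.dvd_of_dvd_mul_right h8
    exact_mod_cast h11
  have hord : 0 < orderOf (ee t) := by
    rw [orderOf_pos_iff, isOfFinOrder_iff_pow_eq_one]
    exact ⟨N, Nat.pos_of_ne_zero (NeZero.ne N), h2⟩
  rcases hC with hC | hC
  · rw [h1, sum_units_zero h2 (fun h' => hC (h'.squarefree_of_dvd h4)), norm_zero]
    positivity
  have h3 := norm_sum_units h2
  rw [← h1] at h3
  have h5 : (q.den.totient : ℝ) ≤ (orderOf (ee t)).totient := by
    exact_mod_cast Nat.le_of_dvd (Nat.totient_pos.2 hord) (Nat.totient_dvd_of_dvd h4)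
  rw [le_div_iff₀ hC0]
  refine le_trans ?_ h3
  exact mul_le_mul_of_nonneg_left (hC.trans h5) (norm_nonneg _)

/-- General denominators: relations only with large denominators. -/
theorem near_units [Nonempty S] {θ : S → ℚ} {I : ℤ} {N : ℕ} [NeZero N]
    (hθ : ∀ x, ∃ z : ℤ, (N : ℚ) * θ x = z) (hσ : ∃ w : ℤ, (N : ℚ) * (∑ x, θ x + I) = 2 * w)
    (hrel : ∀ j : S → ℤ, j ≠ 0 → (∀ x, |j x| ≤ Fintype.card S) →
      ((∀ x, Even (j x)) ∨ ∀ x, Odd (j x)) → ¬ Squarefree (∑ x, j x * θ x).den ∨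
        (Fintype.card S + 1) ^ 2 * Fintype.card S ^ (Fintype.card S + 1) ≤
          (∑ x, j x * θ x).den.totient) :
    ∃ U : Finset (ZMod N)ˣ, N.totient ≤ (Fintype.card S + 1) ^ 2 *
      Fintype.card S ^ (Fintype.card S + 1) * U.card ∧
      ∀ u ∈ U, Near θ I (((u : ZMod N).val : ℕ) : ℤ) := by
  classical
  have hMpos : 0 < Fintype.card S := Fintype.card_pos
  set M := Fintype.card S with hM
  have hM0 : (0 : ℝ) < M := by exact_mod_cast hMpos
  set C : ℝ := (M + 1) ^ 2 * M ^ (M + 1) with hC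
  have hC0 : 0 < C := by positivity
  have hcast : ∀ j : S → ℤ, ((∑ x, j x * θ x : ℚ) : ℝ) = ∑ x, (j x : ℝ) * (θ x : ℝ) := by
    intro j
    push_cast
    rfl
  set T₀ : ℝ := 2 ^ M * (unitSet N).card / 2 with hT₀
  have hN0 : (0 : ℝ) < N.totient := by
    exact_mod_cast Nat.totient_pos.2 (Nat.pos_of_ne_zero (NeZero.ne N))
  have hT₀pos : 0 < T₀ := by
    rw [hT₀, unitSet_card]
    positivity
  have hB : ∀ j : S → ℤ, j ≠ 0 → (∀ x, |j x| ≤ M) →
      ‖TT (fun x => (θ x : ℝ)) I (unitSet N) j‖ ≤ T₀ / C := by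
    intro j hj hjM
    have h1 := TT_le (fun x => (θ x : ℝ)) I (unitSet N) j (B := N.totient / C) (by positivity)
      (fun he => by
        refine sum_unit_ee (freq_even hθ he) (q := ∑ x, j x * θ x) (I := 0) ?_ hC0 ?_
        · rw [hcast]
          push_cast
          ring
        · refine (hrel j hj hjM (Or.inl he)).imp_right fun this => ?_
          rw [hC]
          exact_mod_cast this)
      (fun ho => by
        refine sum_unit_ee (freq_odd hθ hσ ho) (q := ∑ x, j x * θ x) (I := I) ?_ hC0 ?_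
        · rw [hcast]
        · refine (hrel j hj hjM (Or.inr ho)).imp_right fun this => ?_
          rw [hC]
          exact_mod_cast this)
    refine h1.trans (le_of_eq ?_)
    rw [hT₀, unitSet_card]
    ring
  have hlow := main_lower (fun x => (θ x : ℝ)) I (unitSet N) (by positivity : 0 ≤ T₀ / C) hB
  rw [← hM, ← hT₀] at hlow
  have hgap := cos_gap hMpos
  have hnrm := nrm_pos hMpos
  -- the lower bound
  have h1 : T₀ * nrm M ^ M * (2 / (M + 1) ^ 2) ≤
      T₀ * (M * nrm M ^ M * (cos (π / (M + 1)) - cos (π / M))) -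
        2 * M * (T₀ / C * (M * nrm M) ^ M) := by
    have e1 : 2 * M * (T₀ / C * (M * nrm M) ^ M) = T₀ * nrm M ^ M * (2 / (M + 1) ^ 2) := by
      rw [hC, mul_pow, pow_succ (M : ℝ) M]
      field_simp
    have e2 : T₀ * nrm M ^ M * (4 / (M + 1) ^ 2) ≤
        T₀ * (M * nrm M ^ M * (cos (π / (M + 1)) - cos (π / M))) := by
      have e3 : T₀ * nrm M ^ M * (4 / (M + 1) ^ 2) =
          T₀ * (M * nrm M ^ M * (4 / ((M : ℝ) * (M + 1) ^ 2))) := by
        field_simp
      rw [e3]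
      gcongr
    rw [e1]
    have e4 : T₀ * nrm M ^ M * (4 / (M + 1) ^ 2) =
        T₀ * nrm M ^ M * (2 / (M + 1) ^ 2) + T₀ * nrm M ^ M * (2 / (M + 1) ^ 2) := by ring
    linarith
  -- the upper bound
  set U : Finset (ZMod N)ˣ := univ.filter fun u => 0 < HH θ I (((u : ZMod N).val : ℕ) : ℤ) with hU
  have hup : ∑ a ∈ unitSet N, HH θ I a ≤ U.card * (2 ^ M / 2 * (2 * M * (M * nrm M) ^ M)) := by
    unfold unitSet
    rw [sum_image (unitSet_inj N).injOn]
    calc ∑ u : (ZMod N)ˣ, HH θ I ((u : ZMod N).val : ℤ) ≤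
        ∑ u : (ZMod N)ˣ, (if u ∈ U then 2 ^ M / 2 * (2 * M * (M * nrm M) ^ M) else 0) := by
          refine sum_le_sum fun u _ => ?_
          split_ifs with h
          · exact HH_le θ I _
          · by_contra hcon
            push Not at hcon
            exact h (mem_filter.2 ⟨mem_univ _, hcon⟩)
      _ = U.card * (2 ^ M / 2 * (2 * M * (M * nrm M) ^ M)) := by
          rw [sum_ite_mem, univ_inter, sum_const, nsmul_eq_mul]
  have h2 : T₀ * nrm M ^ M * (2 / (M + 1) ^ 2) ≤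
      U.card * (2 ^ M / 2 * (2 * M * (M * nrm M) ^ M)) := h1.trans (hlow.trans hup)
  refine ⟨U, ?_, fun u hu => near_of_HH (mem_filter.1 hu).2⟩
  have h3 : (N.totient : ℝ) ≤ C * U.card := by
    have e1 : T₀ * nrm M ^ M * (2 / (M + 1) ^ 2) =
        (2 ^ M * nrm M ^ M / (M + 1) ^ 2) * N.totient := by
      rw [hT₀, unitSet_card]
      ring
    have e2 : (U.card : ℝ) * (2 ^ M / 2 * (2 * M * (M * nrm M) ^ M)) =
        (2 ^ M * nrm M ^ M / (M + 1) ^ 2) * (C * U.card) := by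
      rw [hC, mul_pow, pow_succ (M : ℝ) M]
      field_simp
    rw [e1, e2] at h2
    exact le_of_mul_le_mul_left h2 (by positivity)
  rw [hC] at h3
  exact_mod_cast h3

end

end Pool.Agent.Helper104.PCV
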