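import Pool.Agent.W280.PC.Average
import Pool.Agent.H916T.Core

set_option autoImplicit false

/-!
Four residues modulo an odd prime `N`: multiples of them which are close to an odd point.
-/

namespace Pool.Agent.Helper104.PCV

open Finset Pool.Agent.H916R2 Pool.Agent.W280.PC

lemma dvdeq {a b c : ℤ} (h : a ∣ b) (e : b = c) : a ∣ c := e ▸ h

/-- Residues whose sawtooth sums vanish for all multiples by units cancel in pairs. -/
lemma count_eq {N : ℕ} [hN : Fact N.Prime] (S : Multiset (ZMod N)ˣ)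
    (hs : ∀ t : (ZMod N)ˣ,
      (S.map fun v : (ZMod N)ˣ => saw ((t : ZMod N) * (v : ZMod N))).sum = 0)
    (u : (ZMod N)ˣ) : S.count u = S.count (-u) := by
  classical
  have hSS : ∀ χ : DirichletCharacter ℂ N, χ.Odd → SS χ 1 ≠ 0 := by
    intro χ hχ h1
    obtain ⟨a, ha⟩ := exists_SS_ne_zero χ hχ
    by_cases h0 : a = 0
    · apply ha
      rw [h0]
      unfold SS
      simp [saw_zero]
    · have := SS_unit χ (Units.mk0 a h0) 1
      rw [mul_one, Units.val_mk0, h1, mul_zero] at this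
      exact ha this
  have h := H916T.balanced_of_saw (p := 1) (F := 1) (Nat.coprime_one_left N) hSS S (by
    intro t
    simpa using hs t) u
  have h2 : ∀ S : Multiset (ZMod N)ˣ,
      (S.map fun v : (ZMod N)ˣ => H916T.phi 1 1 (u : ZMod N) (v : ZMod N)).sum =
        (S.count u : ℤ) - S.count (-u) := by
    intro S
    induction S using Multiset.induction_on with
    | empty => simp
    | cons v S ih =>
      rw [Multiset.map_cons, Multiset.sum_cons, ih, Multiset.count_cons, Multiset.count_cons]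
      unfold H916T.phi
      have e1 : ((v : ZMod N) = (u : ZMod N)) ↔ u = v := by
        rw [Units.val_inj, eq_comm]
      have e2 : ((v : ZMod N) = -(u : ZMod N)) ↔ -u = v := by
        rw [← Units.val_neg, Units.val_inj, eq_comm]
      simp only [Nat.cast_one, sum_range_one, pow_zero, one_mul, e1, e2]
      push_cast
      ring
  rw [h2] at h
  omega

/-- The vector `r` is congruent to a multiple by a unit of `d`, of norm at most `N`, and odd. -/
def Close {ι : Type*} [Fintype ι] (N : ℕ) (d : ι → ℤ) : Prop :=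
  ∃ (c : ℤ) (r : ι → ℤ), IsCoprime c (N : ℤ) ∧ (∀ i, (N : ℤ) ∣ r i - c * d i) ∧
    (∀ i, (N : ℤ) ∣ d i → r i = 0) ∧ ∑ i, |r i| ≤ N ∧ Odd (∑ i, r i)

/-- Signs do not matter. -/
lemma Close.signs {ι : Type*} [Fintype ι] {N : ℕ} {d d' : ι → ℤ} (h : Close N d)
    (hd : ∀ i, d' i = d i ∨ d' i = - d i) : Close N d' := by
  obtain ⟨c, r, hc, hr, h0, hn, ho⟩ := h
  refine ⟨c, fun i => if d' i = d i then r i else - r i, hc, fun i => ?_, fun i hi => ?_, ?_, ?_⟩
  · by_cases h : d' i = d i
    · simp only [h, if_true]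
      exact hr i
    · simp only [h, if_false]
      have h1 := (hd i).resolve_left h
      rw [h1]
      have : -r i - c * -d i = -(r i - c * d i) := by ring
      rw [this]
      exact (dvd_neg).2 (hr i)
  · have h1 : (N : ℤ) ∣ d i := by
      rcases hd i with h | h
      · rwa [h] at hi
      · rw [h] at hi
        exact (dvd_neg).1 hi
    simp only [h0 i h1, neg_zero, ite_self]
  · refine le_trans (le_of_eq ?_) hn
    refine sum_congr rfl fun i _ => ?_
    beta_reduce
    split_ifs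
    · rfl
    · rw [abs_neg]
  · have h1 : ∀ i, (if d' i = d i then r i else - r i) = r i - 2 * (if d' i = d i then 0 else r i) := by
      intro i
      split_ifs <;> ring
    simp only [h1, sum_sub_distrib, ← mul_sum]
    rw [Int.odd_sub]
    simp [ho]

lemma val_mod {N : ℕ} (_hN : 0 < N) (z : ℤ) : (N : ℤ) ∣ z % N - z := by
  have := Int.dvd_self_sub_emod (x := z) (m := N)
  rw [← dvd_neg, neg_sub]
  exact this

/-- Only the residues matter. -/
lemma Close.congr {ι : Type*} [Fintype ι] {N : ℕ} {d d' : ι → ℤ} (h : Close N d)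
    (hd : ∀ i, (N : ℤ) ∣ d' i - d i) : Close N d' := by
  obtain ⟨c, r, hc, hr, h0, hn, ho⟩ := h
  refine ⟨c, r, hc, fun i => ?_, fun i hi => h0 i ?_, hn, ho⟩
  · have h1 : r i - c * d' i = (r i - c * d i) - c * (d' i - d i) := by ring
    rw [h1]
    exact dvd_sub (hr i) ((hd i).mul_left c)
  · have h1 : d i = d' i - (d' i - d i) := by ring
    rw [h1]
    exact dvd_sub hi (hd i)

/-- The resonant case with four nonzero residues. -/
lemma close_res4 {N : ℕ} [hN : Fact N.Prime] (h2 : N ≠ 2) (d : Fin 4 → ℤ)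
    (hd : ∀ i, ¬ (N : ℤ) ∣ d i) (hs : (N : ℤ) ∣ ∑ i, d i) :
    Close N d ∨ ∃ j, j ≠ 0 ∧ (N : ℤ) ∣ d 0 + d j := by
  classical
  by_cases hcl : Close N d
  · exact Or.inl hcl
  right
  have hN0 : 0 < N := hN.out.pos
  have hNz : (0 : ℤ) < N := by exact_mod_cast hN0
  have hodd : Odd (N : ℤ) := by
    exact_mod_cast hN.out.odd_of_ne_two h2
  have hd' : ∀ i, ((d i : ℤ) : ZMod N) ≠ 0 := fun i h =>
    hd i ((ZMod.intCast_zmod_eq_zero_iff_dvd _ _).1 h)
  let u : Fin 4 → (ZMod N)ˣ := fun i => Units.mk0 _ (hd' i)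
  have hu : ∀ i, ((u i : (ZMod N)ˣ) : ZMod N) = ((d i : ℤ) : ZMod N) := fun i => rfl
  have key : ∀ t : (ZMod N)ˣ, ∑ i, saw ((t : ZMod N) * ((u i : (ZMod N)ˣ) : ZMod N)) = 0 := by
    intro t
    set c : ℤ := (((t : ZMod N).val : ℕ) : ℤ) with hc
    have hcc : IsCoprime c (N : ℤ) :=
      Nat.isCoprime_iff_coprime.2 (ZMod.val_coe_unit_coprime t)
    set v : Fin 4 → ℤ := fun i => (c * d i) % N with hv
    have hval : ∀ i, ((((t : ZMod N) * ((u i : (ZMod N)ˣ) : ZMod N)).val : ℕ) : ℤ) = v i := by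
      intro i
      have h1 : (t : ZMod N) * ((u i : (ZMod N)ˣ) : ZMod N) = (((c * d i : ℤ)) : ZMod N) := by
        rw [hu, hc]
        push_cast
        rw [ZMod.natCast_zmod_val]
      rw [h1, ZMod.val_intCast]
    have hv0 : ∀ i, 0 ≤ v i := fun i => Int.emod_nonneg _ hNz.ne'
    have hvN : ∀ i, v i < N := fun i => Int.emod_lt_of_pos _ hNz
    have hvd : ∀ i, (N : ℤ) ∣ v i - c * d i := fun i => val_mod hN0 _
    have hne : ∀ i, ¬ (N : ℤ) ∣ v i := by
      intro i h
      have h1 : (N : ℤ) ∣ c * d i := by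
        have := dvd_sub h (hvd i)
        rwa [sub_sub_cancel] at this
      exact hd i (hcc.symm.dvd_of_dvd_mul_left h1)
    have hpos : ∀ i, 0 < v i := fun i => lt_of_le_of_ne (hv0 i) fun h => hne i (by
      rw [← h]
      exact dvd_zero _)
    obtain ⟨k, hk⟩ : (N : ℤ) ∣ ∑ i, v i := by
      have h1 : (N : ℤ) ∣ ∑ i, (v i - c * d i) := dvd_sum fun i _ => hvd i
      rw [sum_sub_distrib, ← mul_sum] at h1
      have h3 := dvd_add h1 (hs.mul_left c)
      rwa [sub_add_cancel] at h3
    have hk0 : 0 < k := by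
      have h1 : 0 < ∑ i, v i := sum_pos (fun i _ => hpos i) univ_nonempty
      rw [hk] at h1
      exact (mul_pos_iff_of_pos_left hNz).1 h1
    have hk4 : k < 4 := by
      have h1 : ∑ i, v i < ∑ _i : Fin 4, (N : ℤ) := sum_lt_sum_of_nonempty univ_nonempty
        fun i _ => hvN i
      rw [hk, sum_const, card_univ, Fintype.card_fin, nsmul_eq_mul] at h1
      push_cast at h1
      nlinarith
    have hk1 : k ≠ 1 := by
      rintro rfl
      apply hcl
      refine ⟨c, v, hcc, hvd, fun i hi => absurd hi (hd i), ?_, ?_⟩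
      · rw [sum_congr rfl fun i _ => abs_of_nonneg (hv0 i), hk, mul_one]
      · rw [hk, mul_one]
        exact hodd
    have hk3 : k ≠ 3 := by
      rintro rfl
      apply hcl
      refine ⟨c, fun i => v i - N, hcc, fun i => ?_, fun i hi => absurd hi (hd i), ?_, ?_⟩
      · have h1 : v i - N - c * d i = (v i - c * d i) - N := by ring
        rw [h1]
        exact dvd_sub (hvd i) dvd_rfl
      · rw [sum_congr rfl fun i _ => abs_of_neg (by linarith [hvN i] : v i - (N : ℤ) < 0)]
        simp only [neg_sub, sum_sub_distrib, sum_const, card_univ, Fintype.card_fin,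
          nsmul_eq_mul]
        rw [hk]
        push_cast
        linarith
      · simp only [sum_sub_distrib, sum_const, card_univ, Fintype.card_fin, nsmul_eq_mul]
        rw [hk]
        obtain ⟨m, hm⟩ := hodd
        exact ⟨-m - 1, by push_cast; linarith⟩
    have hk2 : k = 2 := by omega
    have hsaw : ∀ i, saw ((t : ZMod N) * ((u i : (ZMod N)ˣ) : ZMod N)) = 2 * v i - N := by
      intro i
      unfold saw
      rw [if_neg, hval]
      exact (t * u i).ne_zero
    rw [sum_congr rfl fun i _ => hsaw i, sum_sub_distrib, ← mul_sum, hk, hk2]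
    simp only [sum_const, card_univ, Fintype.card_fin, nsmul_eq_mul]
    push_cast
    ring
  have hcount := count_eq (univ.val.map u) (by
    intro t
    rw [Multiset.map_map]
    exact key t) (u 0)
  have h1 : 0 < (univ.val.map u).count (u 0) := by
    rw [Multiset.count_pos]
    exact Multiset.mem_map_of_mem _ (mem_univ_val _)
  rw [hcount, Multiset.count_pos] at h1
  obtain ⟨j, -, hj⟩ := Multiset.mem_map.1 h1
  have h3 : (N : ℤ) ∣ d 0 + d j := by
    rw [← ZMod.intCast_zmod_eq_zero_iff_dvd]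
    push_cast
    rw [← hu 0, ← hu j, hj, Units.val_neg, add_neg_cancel]
  refine ⟨j, ?_, h3⟩
  rintro rfl
  have h4 : (N : ℤ) ∣ 2 * d 0 := by rwa [two_mul]
  have hp : Prime (N : ℤ) := Nat.prime_iff_prime_int.mp hN.out
  rcases hp.dvd_or_dvd h4 with h5 | h5
  · have h6 : N ∣ 2 := by exact_mod_cast h5
    exact h2 ((Nat.prime_dvd_prime_iff_eq hN.out Nat.prime_two).1 h6)
  · exact hd 0 h5

/-- The resonant case with at most three nonzero residues. -/
lemma close_res3 {N : ℕ} [hN : Fact N.Prime] (h2 : N ≠ 2) (d : Fin 4 → ℤ)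
    (h3 : (univ.filter fun i => ¬ (N : ℤ) ∣ d i).card ≤ 3) (hnz : ∃ i, ¬ (N : ℤ) ∣ d i)
    (hs : (N : ℤ) ∣ ∑ i, d i) : Close N d := by
  classical
  have hN0 : 0 < N := hN.out.pos
  have hNz : (0 : ℤ) < N := by exact_mod_cast hN0
  have hodd : Odd (N : ℤ) := by
    exact_mod_cast hN.out.odd_of_ne_two h2
  set S := univ.filter fun i => ¬ (N : ℤ) ∣ d i with hS
  set v : Fin 4 → ℤ := fun i => d i % N with hv
  have hv0 : ∀ i, 0 ≤ v i := fun i => Int.emod_nonneg _ hNz.ne'
  have hvN : ∀ i, v i < N := fun i => Int.emod_lt_of_pos _ hNz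
  have hvd : ∀ i, (N : ℤ) ∣ v i - d i := fun i => val_mod hN0 _
  have hz : ∀ i, i ∉ S → v i = 0 := by
    intro i hi
    rw [hS, mem_filter] at hi
    push Not at hi
    exact Int.emod_eq_zero_of_dvd (hi (mem_univ _))
  have hsumS : ∑ i, v i = ∑ i ∈ S, v i := by
    symm
    exact sum_subset (subset_univ _) fun i _ hi => hz i hi
  obtain ⟨k, hk⟩ : (N : ℤ) ∣ ∑ i, v i := by
    have h1 : (N : ℤ) ∣ ∑ i, (v i - d i) := dvd_sum fun i _ => hvd i
    rw [sum_sub_distrib] at h1
    have h3 := dvd_add h1 hs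
    rwa [sub_add_cancel] at h3
  obtain ⟨i0, hi0⟩ := hnz
  have hSne : S.Nonempty := ⟨i0, mem_filter.2 ⟨mem_univ _, hi0⟩⟩
  have hpos : ∀ i ∈ S, 0 < v i := by
    intro i hi
    refine lt_of_le_of_ne (hv0 i) fun h => (mem_filter.1 hi).2 (Int.dvd_of_emod_eq_zero h.symm)
  have hk0 : 0 < k := by
    have h1 : 0 < ∑ i ∈ S, v i := sum_pos hpos hSne
    rw [← hsumS, hk] at h1
    exact (mul_pos_iff_of_pos_left hNz).1 h1
  have hkc : k < S.card := by
    have h1 : ∑ i ∈ S, v i < ∑ _i ∈ S, (N : ℤ) := sum_lt_sum_of_nonempty hSne fun i _ => hvN i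
    rw [← hsumS, hk, sum_const, nsmul_eq_mul] at h1
    nlinarith
  have hcase : k = 1 ∨ (k = 2 ∧ S.card = 3) := by omega
  rcases hcase with rfl | ⟨rfl, hc3⟩
  · refine ⟨1, v, isCoprime_one_left, fun i => by simpa using hvd i, fun i hi => ?_, ?_, ?_⟩
    · exact Int.emod_eq_zero_of_dvd hi
    · rw [sum_congr rfl fun i _ => abs_of_nonneg (hv0 i), hk, mul_one]
    · rw [hk, mul_one]
      exact hodd
  · have hsum : ∑ i, (if (N : ℤ) ∣ d i then 0 else v i - N) = -N := by
      have h1 : ∑ i, (if (N : ℤ) ∣ d i then 0 else v i - N) = ∑ i ∈ S, (v i - N) := by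
        rw [hS, sum_filter]
        refine sum_congr rfl fun i _ => ?_
        split_ifs <;> simp_all
      rw [h1, sum_sub_distrib, ← hsumS, hk, sum_const, hc3, nsmul_eq_mul]
      push_cast
      ring
    refine ⟨1, fun i => if (N : ℤ) ∣ d i then 0 else v i - N, isCoprime_one_left, fun i => ?_,
      fun i hi => by simp only [hi, if_true], ?_, ?_⟩
    · by_cases hi : (N : ℤ) ∣ d i
      · simp only [hi, if_true]
        simpa using hi
      · simp only [hi, if_false]
        have h1 : v i - N - 1 * d i = (v i - d i) - N := by ring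
        rw [h1]
        exact dvd_sub (hvd i) dvd_rfl
    · have h1 : ∀ i, |if (N : ℤ) ∣ d i then 0 else v i - N| =
          -(if (N : ℤ) ∣ d i then 0 else v i - N) := by
        intro i
        split_ifs
        · simp
        · exact abs_of_neg (by linarith [hvN i])
      rw [sum_congr rfl fun i _ => h1 i, sum_neg_distrib, hsum, neg_neg]
    · rw [hsum]
      exact hodd.neg

lemma cop {N : ℕ} [hN : Fact N.Prime] {z : ℤ} (h : ¬ (N : ℤ) ∣ z) : IsCoprime z (N : ℤ) := by
  have hp : Prime (N : ℤ) := Nat.prime_iff_prime_int.mp hN.out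
  exact ((hp.coprime_iff_not_dvd).2 h).symm

/-- The nonresonant case. -/
lemma close_nonres {N : ℕ} [hN : Fact N.Prime] (h2 : N ≠ 2) (d : Fin 4 → ℤ)
    (he : Even (∑ i, d i))
    (hres : ∀ ε : Fin 4 → ℤ, (∀ i, ε i = 1 ∨ ε i = -1) → ¬ (N : ℤ) ∣ ∑ i, ε i * d i) :
    Close N d := by
  classical
  by_contra hcl
  have hN0 : 0 < N := hN.out.pos
  have hNz : (0 : ℤ) < N := by exact_mod_cast hN0
  have hodd : Odd (N : ℤ) := by
    exact_mod_cast hN.out.odd_of_ne_two h2
  obtain ⟨a, ha⟩ : ∃ a : ℤ, d 0 - d 1 - d 2 - d 3 = 2 * a := by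
    rw [Fin.sum_univ_four] at he
    obtain ⟨m, hm⟩ := he
    exact ⟨m - d 1 - d 2 - d 3, by linarith⟩
  obtain ⟨b, hb⟩ : ∃ b : ℤ, -d 0 - d 1 - d 2 - d 3 = 2 * b := ⟨a - d 0, by linarith⟩
  have hab : a - b = d 0 := by linarith
  have hsum0 : a + b + d 1 + d 2 + d 3 = 0 := by linarith
  have hor : ∀ z : ℤ, IsCoprime z (N : ℤ) ∨ (N : ℤ) ∣ z := fun z => by
    by_cases h : (N : ℤ) ∣ z
    · exact Or.inr h
    · exact Or.inl (cop h)
  -- half sums
  have hform : ∀ (s1 s2 s3 : ℤ) (z : ℤ), (s1 = 1 ∨ s1 = -1) → (s2 = 1 ∨ s2 = -1) →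
      (s3 = 1 ∨ s3 = -1) → 2 * z = d 0 + s1 * d 1 + s2 * d 2 + s3 * d 3 →
      IsCoprime z (N : ℤ) := by
    intro s1 s2 s3 z h1 h2 h3 hz
    apply cop
    intro hdvd
    apply hres ![1, s1, s2, s3] (by
      intro i
      fin_cases i
      · exact Or.inl rfl
      · exact h1
      · exact h2
      · exact h3)
    rw [Fin.sum_univ_four]
    have e : (![1, s1, s2, s3] : Fin 4 → ℤ) 0 * d 0 + (![1, s1, s2, s3] : Fin 4 → ℤ) 1 * d 1 +
        (![1, s1, s2, s3] : Fin 4 → ℤ) 2 * d 2 + (![1, s1, s2, s3] : Fin 4 → ℤ) 3 * d 3 =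
        2 * z := by
      rw [hz]
      simp
    rw [e]
    exact hdvd.mul_left 2
  refine arith (D := N) (a := a) (b := b) (r1 := d 1) (r2 := d 2) (r3 := d 3) hN.out.one_lt
    (by rw [hsum0]; exact dvd_zero _) (hor _) (hor _) (hor _) (hor _)
    (hform (-1) (-1) (-1) _ (Or.inr rfl) (Or.inr rfl) (Or.inr rfl) (by linarith))
    (hform 1 (-1) (-1) _ (Or.inl rfl) (Or.inr rfl) (Or.inr rfl) (by linarith))
    (hform (-1) 1 (-1) _ (Or.inr rfl) (Or.inl rfl) (Or.inr rfl) (by linarith))
    (hform (-1) (-1) 1 _ (Or.inr rfl) (Or.inr rfl) (Or.inl rfl) (by linarith))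
    (hform 1 1 (-1) _ (Or.inl rfl) (Or.inl rfl) (Or.inr rfl) (by linarith))
    (hform 1 (-1) 1 _ (Or.inl rfl) (Or.inr rfl) (Or.inl rfl) (by linarith))
    (hform (-1) 1 1 _ (Or.inr rfl) (Or.inl rfl) (Or.inl rfl) (by linarith))
    (hform 1 1 1 _ (Or.inl rfl) (Or.inl rfl) (Or.inl rfl) (by linarith)) ?_
  intro c hc
  unfold Uni
  have w1 := val_mod hN0 (-(c * d 1))
  have w2 := val_mod hN0 (-(c * d 2))
  have w3 := val_mod hN0 (-(c * d 3))
  have x1 := val_mod hN0 (c * a)
  have x2 := val_mod hN0 (c * b)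
  have bw1 := Int.emod_nonneg (-(c * d 1)) hNz.ne'
  have bw2 := Int.emod_nonneg (-(c * d 2)) hNz.ne'
  have bw3 := Int.emod_nonneg (-(c * d 3)) hNz.ne'
  have bx1 := Int.emod_nonneg (c * a) hNz.ne'
  have bx2 := Int.emod_nonneg (c * b) hNz.ne'
  have cw1 := Int.emod_lt_of_pos (-(c * d 1)) hNz
  have cw2 := Int.emod_lt_of_pos (-(c * d 2)) hNz
  have cw3 := Int.emod_lt_of_pos (-(c * d 3)) hNz
  have cx1 := Int.emod_lt_of_pos (c * a) hNz
  have cx2 := Int.emod_lt_of_pos (c * b) hNz
  have z1 : (N : ℤ) ∣ d 1 → (-(c * d 1)) % N = 0 := fun h =>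
    Int.emod_eq_zero_of_dvd ((dvd_neg).2 (h.mul_left c))
  have z2 : (N : ℤ) ∣ d 2 → (-(c * d 2)) % N = 0 := fun h =>
    Int.emod_eq_zero_of_dvd ((dvd_neg).2 (h.mul_left c))
  have z3 : (N : ℤ) ∣ d 3 → (-(c * d 3)) % N = 0 := fun h =>
    Int.emod_eq_zero_of_dvd ((dvd_neg).2 (h.mul_left c))
  have z0 : (N : ℤ) ∣ d 0 → (c * a) % N = (c * b) % N := fun h => by
    apply Int.emod_eq_emod_iff_emod_sub_eq_zero.2
    apply Int.emod_eq_zero_of_dvd
    have : c * a - c * b = c * d 0 := by rw [← hab]; ring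
    rw [this]
    exact h.mul_left c
  generalize (-(c * d 1)) % (N : ℤ) = W1 at *
  generalize (-(c * d 2)) % (N : ℤ) = W2 at *
  generalize (-(c * d 3)) % (N : ℤ) = W3 at *
  generalize (c * a) % (N : ℤ) = X1 at *
  generalize (c * b) % (N : ℤ) = X2 at *
  obtain ⟨k, hk⟩ : (N : ℤ) ∣ (X1 + X2) - (W1 + W2 + W3) := by
    have h1 := dvd_sub (dvd_add x1 x2) (dvd_add (dvd_add w1 w2) w3)
    have h3 : X1 - c * a + (X2 - c * b) - (W1 - -(c * d 1) + (W2 - -(c * d 2)) +
        (W3 - -(c * d 3))) = X1 + X2 - (W1 + W2 + W3) - c * (a + b + d 1 + d 2 + d 3) := by ring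
    rw [h3, hsum0, mul_zero, sub_zero] at h1
    exact h1
  have hX0 : (N : ℤ) ∣ (X1 - X2) - c * d 0 := by
    have h1 := dvd_sub x1 x2
    have h3 : X1 - c * a - (X2 - c * b) = X1 - X2 - c * (a - b) := by ring
    rwa [h3, hab] at h1
  have hmax : |X1 - X2| + (X1 + X2) = 2 * max X1 X2 := by
    rcases le_total X1 X2 with h | h
    · rw [abs_of_nonpos (by linarith), max_eq_right h]
      ring
    · rw [abs_of_nonneg (by linarith), max_eq_left h]
      ring
  have hmaxN : max X1 X2 < N := max_lt cx1 cx2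
  have hmax0 : 0 ≤ max X1 X2 := le_max_of_le_left bx1
  have build : ∀ R1 R2 R3 : ℤ, (N : ℤ) ∣ R1 - c * d 1 → (N : ℤ) ∣ R2 - c * d 2 →
      (N : ℤ) ∣ R3 - c * d 3 → ((N : ℤ) ∣ d 1 → R1 = 0) → ((N : ℤ) ∣ d 2 → R2 = 0) →
      ((N : ℤ) ∣ d 3 → R3 = 0) → |X1 - X2| + |R1| + |R2| + |R3| ≤ N →
      Odd (X1 - X2 + R1 + R2 + R3) → False := by
    intro R1 R2 R3 h1 h2' h3 g1 g2 g3 hn ho
    apply hcl
    refine ⟨c, ![X1 - X2, R1, R2, R3], hc, ?_, ?_, ?_, ?_⟩
    · intro i
      fin_cases i
      · exact hX0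
      · exact h1
      · exact h2'
      · exact h3
    · intro i hi
      fin_cases i
      · change X1 - X2 = 0
        rw [z0 hi, sub_self]
      · exact g1 hi
      · exact g2 hi
      · exact g3 hi
    · rw [Fin.sum_univ_four]
      exact hn
    · rw [Fin.sum_univ_four]
      exact ho
  have n1 : (N : ℤ) ∣ -W1 - c * d 1 := by
    have : -W1 - c * d 1 = -(W1 - -(c * d 1)) := by ring
    rw [this]; exact (dvd_neg).2 w1
  have n2 : (N : ℤ) ∣ -W2 - c * d 2 := by
    have : -W2 - c * d 2 = -(W2 - -(c * d 2)) := by ring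
    rw [this]; exact (dvd_neg).2 w2
  have n3 : (N : ℤ) ∣ -W3 - c * d 3 := by
    have : -W3 - c * d 3 = -(W3 - -(c * d 3)) := by ring
    rw [this]; exact (dvd_neg).2 w3
  have m1 : (N : ℤ) ∣ N - W1 - c * d 1 := by
    have : (N : ℤ) - W1 - c * d 1 = N + (-W1 - c * d 1) := by ring
    rw [this]; exact dvd_add dvd_rfl n1
  have m2 : (N : ℤ) ∣ N - W2 - c * d 2 := by
    have : (N : ℤ) - W2 - c * d 2 = N + (-W2 - c * d 2) := by ring
    rw [this]; exact dvd_add dvd_rfl n2
  have m3 : (N : ℤ) ∣ N - W3 - c * d 3 := by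
    have : (N : ℤ) - W3 - c * d 3 = N + (-W3 - c * d 3) := by ring
    rw [this]; exact dvd_add dvd_rfl n3
  obtain ⟨m, hm⟩ := hodd
  constructor
  · by_contra hcon
    push Not at hcon
    have hk1 : k = 1 := by
      have h1 : 0 < (N : ℤ) * k := by rw [← hk]; linarith
      have h3 : (N : ℤ) * k < N * 2 := by rw [← hk]; linarith
      have h4 := (mul_pos_iff_of_pos_left hNz).1 h1
      have h5 := lt_of_mul_lt_mul_left h3 hNz.le
      omega
    rw [hk1, mul_one] at hk
    refine build (-W1) (-W2) (-W3) n1 n2 n3 (fun h => by rw [z1 h, neg_zero])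
      (fun h => by rw [z2 h, neg_zero]) (fun h => by rw [z3 h, neg_zero]) ?_ ?_
    · rw [abs_neg, abs_neg, abs_neg, abs_of_nonneg bw1, abs_of_nonneg bw2, abs_of_nonneg bw3]
      linarith
    · exact ⟨m - X2, by linarith⟩
  · intro heq
    refine ⟨?_, ?_, ?_⟩
    · by_contra hcon
      push Not at hcon
      refine build (N - W1) (-W2) (-W3) m1 n2 n3 (fun h => by
          have := z1 h
          linarith) (fun h => by rw [z2 h, neg_zero]) (fun h => by rw [z3 h, neg_zero]) ?_ ?_
      · rw [abs_neg, abs_neg, abs_of_nonneg (by linarith : 0 ≤ (N : ℤ) - W1), abs_of_nonneg bw2,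
          abs_of_nonneg bw3]
        linarith
      · exact ⟨m - X2, by linarith⟩
    · by_contra hcon
      push Not at hcon
      refine build (-W1) (N - W2) (-W3) n1 m2 n3 (fun h => by rw [z1 h, neg_zero]) (fun h => by
          have := z2 h
          linarith) (fun h => by rw [z3 h, neg_zero]) ?_ ?_
      · rw [abs_neg, abs_neg, abs_of_nonneg (by linarith : 0 ≤ (N : ℤ) - W2), abs_of_nonneg bw1,
          abs_of_nonneg bw3]
        linarith
      · exact ⟨m - X2, by linarith⟩
    · by_contra hcon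
      push Not at hcon
      refine build (-W1) (-W2) (N - W3) n1 n2 m3 (fun h => by rw [z1 h, neg_zero])
        (fun h => by rw [z2 h, neg_zero]) (fun h => by
          have := z3 h
          linarith) ?_ ?_
      · rw [abs_neg, abs_neg, abs_of_nonneg (by linarith : 0 ≤ (N : ℤ) - W3), abs_of_nonneg bw1,
          abs_of_nonneg bw2]
        linarith
      · exact ⟨m - X2, by linarith⟩

/-- The residues cancel in two pairs, for suitable signs. -/
def Pairs (N : ℕ) (d : Fin 4 → ℤ) : Prop :=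
  ∃ σ : Equiv.Perm (Fin 4), ((N : ℤ) ∣ d (σ 0) + d (σ 1) ∨ (N : ℤ) ∣ d (σ 0) - d (σ 1)) ∧
    ((N : ℤ) ∣ d (σ 2) + d (σ 3) ∨ (N : ℤ) ∣ d (σ 2) - d (σ 3))

/-- Four residues. -/
theorem core4 {N : ℕ} [hN : Fact N.Prime] (h2 : N ≠ 2) (d : Fin 4 → ℤ)
    (hnz : ∃ i, ¬ (N : ℤ) ∣ d i) : Close N d ∨ ((∀ i, ¬ (N : ℤ) ∣ d i) ∧ Pairs N d) := by
  classical
  have hodd : Odd (N : ℤ) := by
    exact_mod_cast hN.out.odd_of_ne_two h2
  by_cases hres : ∀ ε : Fin 4 → ℤ, (∀ i, ε i = 1 ∨ ε i = -1) → ¬ (N : ℤ) ∣ ∑ i, ε i * d i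
  · left
    rcases Int.even_or_odd (∑ i, d i) with he | ho
    · exact close_nonres h2 d he hres
    · have hd' : ∀ i, (N : ℤ) ∣ (d i + if i = 0 then (N : ℤ) else 0) - d i := by
        intro i
        split_ifs
        · rw [add_sub_cancel_left]
        · rw [add_zero, sub_self]
          exact dvd_zero _
      refine (close_nonres h2 (fun i => d i + if i = 0 then (N : ℤ) else 0) ?_ ?_).congr
        (d' := d) (fun i => by
          have := hd' i
          rw [← dvd_neg, neg_sub]
          exact this)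
      · rw [sum_add_distrib, sum_ite_eq' univ (0 : Fin 4) (fun _ => (N : ℤ)),
          if_pos (mem_univ _)]
        exact ho.add_odd hodd
      · intro ε hε hdvd
        apply hres ε hε
        have h1 : (N : ℤ) ∣ ∑ i, ε i * ((d i + if i = 0 then (N : ℤ) else 0) - d i) :=
          dvd_sum fun i _ => (hd' i).mul_left _
        have h3 := dvd_sub hdvd h1
        rw [← sum_sub_distrib] at h3
        exact dvdeq h3 (sum_congr rfl fun i _ => by ring)
  · push Not at hres
    obtain ⟨ε, hε, hdvd⟩ := hres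
    have hsg : ∀ i, d i = ε i * d i ∨ d i = -(ε i * d i) := by
      intro i
      rcases hε i with h | h <;> rw [h]
      · left; ring
      · right; ring
    have hiff : ∀ i, (N : ℤ) ∣ ε i * d i ↔ (N : ℤ) ∣ d i := by
      intro i
      rcases hε i with h | h <;> rw [h]
      · rw [one_mul]
      · rw [neg_one_mul, dvd_neg]
    by_cases hall : ∀ i, ¬ (N : ℤ) ∣ d i
    · rcases close_res4 h2 (fun i => ε i * d i) (fun i => by rw [hiff]; exact hall i) hdvd with
        h | ⟨j, hj, hjd⟩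
      · exact Or.inl (h.signs hsg)
      · right
        refine ⟨hall, Equiv.swap 1 j, ?_, ?_⟩
        · have e0 : (Equiv.swap 1 j) 0 = 0 := by
            rw [Equiv.swap_apply_of_ne_of_ne (by decide) (Ne.symm hj)]
          have e1 : (Equiv.swap 1 j) 1 = j := Equiv.swap_apply_left _ _
          rw [e0, e1]
          rcases hε 0 with h | h <;> rcases hε j with h' | h' <;> simp only [h, h'] at hjd
          · left; simpa using hjd
          · right; exact dvdeq hjd (by ring)
          · right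
            have h5 := (dvd_neg).2 hjd
            exact dvdeq h5 (by ring)
          · left
            have h5 := (dvd_neg).2 hjd
            exact dvdeq h5 (by ring)
        · have e0 : (Equiv.swap 1 j) 0 = 0 := by
            rw [Equiv.swap_apply_of_ne_of_ne (by decide) (Ne.symm hj)]
          have e1 : (Equiv.swap 1 j) 1 = j := Equiv.swap_apply_left _ _
          have htot : ∑ i, ε (Equiv.swap 1 j i) * d (Equiv.swap 1 j i) = ∑ i, ε i * d i :=
            Equiv.sum_comp (Equiv.swap 1 j) (fun i => ε i * d i)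
          rw [Fin.sum_univ_four, e0, e1] at htot
          have hrest : (N : ℤ) ∣ ε (Equiv.swap 1 j 2) * d (Equiv.swap 1 j 2) +
              ε (Equiv.swap 1 j 3) * d (Equiv.swap 1 j 3) := by
            have h5 := dvd_sub hdvd hjd
            rw [← htot] at h5
            exact dvdeq h5 (by ring)
          rcases hε (Equiv.swap 1 j 2) with h | h <;> rcases hε (Equiv.swap 1 j 3) with h' | h' <;>
            rw [h, h'] at hrest
          · left; simpa using hrest
          · right; exact dvdeq hrest (by ring)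
          · right
            have h5 := (dvd_neg).2 hrest
            exact dvdeq h5 (by ring)
          · left
            have h5 := (dvd_neg).2 hrest
            exact dvdeq h5 (by ring)
    · left
      push Not at hall
      obtain ⟨j, hj⟩ := hall
      refine (close_res3 h2 (fun i => ε i * d i) ?_ ?_ hdvd).signs hsg
      · have h1 : (univ.filter fun i => ¬ (N : ℤ) ∣ ε i * d i) ⊆ univ.erase j := by
          intro i hi
          rw [mem_filter, hiff] at hi
          refine mem_erase.2 ⟨?_, mem_univ _⟩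
          rintro rfl
          exact hi.2 hj
        have h3 := card_le_card h1
        rwa [card_erase_of_mem (mem_univ _), card_univ, Fintype.card_fin] at h3
      · obtain ⟨i, hi⟩ := hnz
        exact ⟨i, by rwa [hiff]⟩

/-- Any number of residues, at most four of them nonzero. -/
theorem core {ι : Type*} [Fintype ι] [DecidableEq ι] [Nonempty ι] {N : ℕ} [hN : Fact N.Prime]
    (h2 : N ≠ 2) (e : ι → ℤ) (h4 : (univ.filter fun i => ¬ (N : ℤ) ∣ e i).card ≤ 4) :
    (∃ (c : ℤ) (r : ι → ℤ), IsCoprime c (N : ℤ) ∧ (∀ i, (N : ℤ) ∣ r i - c * e i) ∧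
      ∑ i, |r i| ≤ N ∧ Odd (∑ i, r i)) ∨
    ∃ f : Fin 4 → ι, Function.Injective f ∧ (∀ i, (N : ℤ) ∣ e i ↔ i ∉ Set.range f) ∧
      ((N : ℤ) ∣ e (f 0) + e (f 1) ∨ (N : ℤ) ∣ e (f 0) - e (f 1)) ∧
      ((N : ℤ) ∣ e (f 2) + e (f 3) ∨ (N : ℤ) ∣ e (f 2) - e (f 3)) := by
  classical
  have hN0 : 0 < N := hN.out.pos
  have hNz : (0 : ℤ) < N := by exact_mod_cast hN0
  have hodd : Odd (N : ℤ) := by
    exact_mod_cast hN.out.odd_of_ne_two h2
  by_cases hall : ∀ i, (N : ℤ) ∣ e i
  · left
    obtain ⟨i0⟩ := ‹Nonempty ι›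
    have hs : ∀ g : ℤ → ℤ, g 0 = 0 → ∑ i, g (if i = i0 then (N : ℤ) else 0) = g N := by
      intro g hg
      rw [sum_eq_single i0]
      · rw [if_pos rfl]
      · intro b _ hb
        rw [if_neg hb, hg]
      · intro h
        exact absurd (mem_univ _) h
    refine ⟨1, fun i => if i = i0 then (N : ℤ) else 0, isCoprime_one_left, fun i => ?_, ?_, ?_⟩
    · have h1 := hall i
      rw [one_mul]
      beta_reduce
      split_ifs
      · exact dvd_sub dvd_rfl h1
      · rw [zero_sub]
        exact (dvd_neg).2 h1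
    · rw [hs (fun z => |z|) abs_zero, abs_of_pos hNz]
    · rw [hs (fun z => z) rfl]
      exact hodd
  push Not at hall
  obtain ⟨i1, hi1⟩ := hall
  -- enlarge the index set
  let e' : ι ⊕ Fin 4 → ℤ := Sum.elim e 0
  set S : Finset (ι ⊕ Fin 4) := univ.filter fun i => ¬ (N : ℤ) ∣ e' i with hS
  have hSeq : S = (univ.filter fun i => ¬ (N : ℤ) ∣ e i).map Function.Embedding.inl := by
    ext i
    rw [hS, mem_filter, mem_map]
    constructor
    · rintro ⟨-, h⟩
      rcases i with i | i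
      · exact ⟨i, mem_filter.2 ⟨mem_univ _, h⟩, rfl⟩
      · exact absurd (dvd_zero _) h
    · rintro ⟨j, hj, rfl⟩
      exact ⟨mem_univ _, (mem_filter.1 hj).2⟩
  have hSc : S.card ≤ 4 := by
    rw [hSeq, card_map]
    exact h4
  obtain ⟨T, hST, -, hT⟩ := exists_subsuperset_card_eq (subset_univ S) hSc (by
    rw [card_univ, Fintype.card_sum, Fintype.card_fin]
    omega)
  let F : T ≃ Fin 4 := T.equivFinOfCardEq hT
  let d : Fin 4 → ℤ := fun k => e' (F.symm k).1
  have hi1T : (Sum.inl i1 : ι ⊕ Fin 4) ∈ T := hST (mem_filter.2 ⟨mem_univ _, hi1⟩)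
  rcases core4 h2 d ⟨F ⟨_, hi1T⟩, by
    change ¬ (N : ℤ) ∣ e' (F.symm (F ⟨_, hi1T⟩)).1
    rw [Equiv.symm_apply_apply]
    exact hi1⟩ with ⟨c, r, hc, hr, h0, hn, ho⟩ | ⟨hnd, σ, hp1, hp2⟩
  · left
    -- extend by zero
    let r' : ι ⊕ Fin 4 → ℤ := fun i => if h : i ∈ T then r (F ⟨i, h⟩) else 0
    have hr'0 : ∀ i, (N : ℤ) ∣ e' i → r' i = 0 := by
      intro i hi
      simp only [r']
      split_ifs with h
      · apply h0
        change (N : ℤ) ∣ e' (F.symm (F ⟨i, h⟩)).1
        rw [Equiv.symm_apply_apply]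
        exact hi
      · rfl
    have hsum : ∀ g : ℤ → ℤ, g 0 = 0 → ∑ i, g (r' (Sum.inl i)) = ∑ k, g (r k) := by
      intro g hg
      have h1 : ∑ i, g (r' i) = ∑ i, g (r' (Sum.inl i)) := by
        rw [Fintype.sum_sum_type]
        have : ∑ i : Fin 4, g (r' (Sum.inr i)) = 0 := sum_eq_zero fun i _ => by
          rw [hr'0 _ (dvd_zero _), hg]
        rw [this, add_zero]
      have h3 : ∑ i, g (r' i) = ∑ i ∈ T, g (r' i) := by
        symm
        refine sum_subset (subset_univ _) fun i _ hi => ?_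
        simp only [r', dif_neg hi, hg]
      rw [← h1, h3, ← sum_coe_sort T, ← Equiv.sum_comp F.symm]
      refine sum_congr rfl fun k _ => ?_
      congr 1
      simp only [r', (F.symm k).2, dif_pos, Subtype.coe_eta, Equiv.apply_symm_apply]
    refine ⟨c, fun i => r' (Sum.inl i), hc, fun i => ?_, ?_, ?_⟩
    · by_cases h : (Sum.inl i : ι ⊕ Fin 4) ∈ T
      · simp only [r', dif_pos h]
        have h3 := hr (F ⟨_, h⟩)
        have h5 : d (F ⟨_, h⟩) = e i := by
          change e' (F.symm (F ⟨_, h⟩)).1 = e i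
          rw [Equiv.symm_apply_apply]
          rfl
        rwa [h5] at h3
      · have h1 : (N : ℤ) ∣ e i := by
          by_contra hcon
          exact h (hST (mem_filter.2 ⟨mem_univ _, hcon⟩))
        simp only [r', dif_neg h, zero_sub]
        exact (dvd_neg).2 (h1.mul_left c)
    · rw [hsum (fun z => |z|) abs_zero]
      exact hn
    · rw [hsum (fun z => z) rfl]
      exact ho
  · right
    -- all elements of `T` are in the left summand
    have hinl : ∀ k, ∃ i, (F.symm k).1 = Sum.inl i := by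
      intro k
      rcases h : (F.symm k).1 with i | i
      · exact ⟨i, rfl⟩
      · exfalso
        apply hnd k
        change (N : ℤ) ∣ e' (F.symm k).1
        rw [h]
        exact dvd_zero _
    choose f hf using hinl
    have hdf : ∀ k, d k = e (f k) := fun k => by
      change e' (F.symm k).1 = e (f k)
      rw [hf k]
      rfl
    have hfinj : Function.Injective f := by
      intro k l hkl
      have h1 : (F.symm k).1 = (F.symm l).1 := by rw [hf k, hf l, hkl]
      exact F.symm.injective (Subtype.ext h1)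
    refine ⟨fun k => f (σ k), hfinj.comp σ.injective, fun i => ?_, ?_, ?_⟩
    · constructor
      · rintro h ⟨k, rfl⟩
        exact hnd (σ k) (by rwa [hdf])
      · intro h
        by_contra hcon
        apply h
        have h1 : (Sum.inl i : ι ⊕ Fin 4) ∈ T := hST (mem_filter.2 ⟨mem_univ _, hcon⟩)
        refine ⟨σ.symm (F ⟨_, h1⟩), ?_⟩
        change f (σ (σ.symm (F ⟨_, h1⟩))) = i
        rw [Equiv.apply_symm_apply]
        have h3 := hf (F ⟨_, h1⟩)
        rw [Equiv.symm_apply_apply] at h3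
        exact (Sum.inl_injective h3).symm
    · simp only [hdf] at hp1
      exact hp1
    · simp only [hdf] at hp2
      exact hp2

end Pool.Agent.Helper104.PCV
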