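import Pool.Agent.Helper104.PCV.Semi
import Pool.Agent.Y227.RT.Final

set_option autoImplicit false

/-!
Rational numbers whose denominators are equal or coprime: multiples close to an odd point.
-/

namespace Pool.Agent.Helper104.PCV

open Finset Pool.Agent.Y227.RT

lemma dvdz {a b c : ℤ} (h : a ∣ b) (e : b = c) : a ∣ c := e ▸ h

lemma crt2 {A B : ℤ} (h : IsCoprime A B) (c v : ℤ) : ∃ c' : ℤ, A ∣ c' - c ∧ B ∣ c' - v := by
  obtain ⟨u, w, huw⟩ := h
  refine ⟨c * (w * B) + v * (u * A), ?_, ?_⟩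
  · refine ⟨u * (v - c), ?_⟩
    linear_combination (c : ℤ) * huw
  · refine ⟨w * (c - v), ?_⟩
    linear_combination (v : ℤ) * huw

lemma cop_of_dvd {A c c' : ℤ} (h : IsCoprime c A) (hd : A ∣ c' - c) : IsCoprime c' A := by
  obtain ⟨k, hk⟩ := hd
  have : c' = c + A * k := by linarith
  rw [this]
  exact IsCoprime.add_mul_left_left h k

/-- Chinese remainder theorem for units. -/
lemma crt {𝒟 : Finset ℕ} (hco : ∀ D ∈ 𝒟, ∀ D' ∈ 𝒟, D ≠ D' → D.Coprime D') (v : ℕ → ℤ)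
    (hv : ∀ D ∈ 𝒟, IsCoprime (v D) (D : ℤ)) :
    ∃ c : ℤ, IsCoprime c ((∏ D ∈ 𝒟, D : ℕ) : ℤ) ∧ ∀ D ∈ 𝒟, (D : ℤ) ∣ c - v D := by
  classical
  induction 𝒟 using Finset.induction_on with
  | empty => exact ⟨1, isCoprime_one_left, by simp⟩
  | insert D 𝒟 hD ih =>
    obtain ⟨c, hc, hcd⟩ := ih (fun D' h D'' h' => hco D' (mem_insert_of_mem h) D''
      (mem_insert_of_mem h')) (fun D' h => hv D' (mem_insert_of_mem h))
    have hcop : IsCoprime ((∏ D ∈ 𝒟, D : ℕ) : ℤ) (D : ℤ) := by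
      rw [Nat.isCoprime_iff_coprime]
      refine Nat.Coprime.prod_left fun D' h => ?_
      exact hco D' (mem_insert_of_mem h) D (mem_insert_self _ _) (fun h' => hD (h' ▸ h))
    obtain ⟨c', h1, h2⟩ := crt2 hcop c (v D)
    refine ⟨c', ?_, fun D' h => ?_⟩
    · rw [prod_insert hD, Nat.cast_mul]
      exact (cop_of_dvd (hv D (mem_insert_self _ _)) h2).mul_right (cop_of_dvd hc h1)
    · rcases mem_insert.1 h with rfl | h
      · exact h2
      · have h3 : (D' : ℤ) ∣ c' - c := by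
          refine dvd_trans ?_ h1
          exact_mod_cast dvd_prod_of_mem (fun D => D) h
        have h4 := dvd_add h3 (hcd D' h)
        rwa [sub_add_sub_cancel] at h4

/-- An odd integer `2 a s - ∑ ε` from two integers whose difference is odd. -/
lemma odd_or {x y : ℤ} (h : Odd (x - y)) : Odd x ∨ Odd y := by
  by_contra hcon
  push Not at hcon
  rw [Int.not_odd_iff_even, Int.not_odd_iff_even] at hcon
  exact (Int.not_even_iff_odd.2 h) (hcon.1.sub hcon.2)

section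

variable {ι : Type*} [Fintype ι] [DecidableEq ι]

/-- The data of the denominators. -/
structure Blk (θ : ι → ℚ) (ρ : ℕ → ι) (s : ι → ℤ) : Prop where
  hρ : ∀ x, (θ (ρ (θ x).den)).den = (θ x).den
  hs : ∀ x, s x = 1 ∨ s x = -1
  hz : ∀ x, ∃ z : ℤ, θ x = s x * θ (ρ (θ x).den) + z
  hco : ∀ x y, (θ x).den ≠ (θ y).den → (θ x).den.Coprime (θ y).den

lemma exists_blk (θ : ι → ℚ) (h : ∀ x y, (θ x).den.Coprime (θ y).den ∨
    (∃ m : ℤ, θ x - θ y = m) ∨ (∃ m : ℤ, θ x + θ y = m)) [Nonempty ι] :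
    ∃ (ρ : ℕ → ι) (s : ι → ℤ), Blk θ ρ s := by
  classical
  have hden : ∀ x y, ((∃ m : ℤ, θ x - θ y = m) ∨ (∃ m : ℤ, θ x + θ y = m)) →
      (θ x).den = (θ y).den := by
    rintro x y (⟨m, hm⟩ | ⟨m, hm⟩)
    · have : θ x = θ y + m := by linarith
      rw [this, Rat.add_intCast_den]
    · have : θ x = -θ y + m := by linarith
      rw [this, Rat.add_intCast_den, Rat.neg_den]
  let ρ : ℕ → ι := fun D => if h : ∃ x, (θ x).den = D then h.choose else Classical.arbitrary ι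
  have hρ : ∀ x, (θ (ρ (θ x).den)).den = (θ x).den := by
    intro x
    have hex : ∃ y, (θ y).den = (θ x).den := ⟨x, rfl⟩
    simp only [ρ, dif_pos hex]
    exact hex.choose_spec
  have hrel : ∀ x, ∃ s : ℤ, (s = 1 ∨ s = -1) ∧ ∃ z : ℤ, θ x = s * θ (ρ (θ x).den) + z := by
    intro x
    rcases h x (ρ (θ x).den) with h1 | ⟨m, hm⟩ | ⟨m, hm⟩
    · rw [hρ, Nat.coprime_self] at h1
      have h2 := Rat.den_eq_one_iff _ |>.1 h1
      have h3 := Rat.den_eq_one_iff _ |>.1 ((hρ x).trans h1)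
      refine ⟨1, Or.inl rfl, (θ x).num - (θ (ρ (θ x).den)).num, ?_⟩
      push_cast
      rw [h2, h3]
      ring
    · exact ⟨1, Or.inl rfl, m, by push_cast; linarith⟩
    · exact ⟨-1, Or.inr rfl, m, by push_cast; linarith⟩
  choose s hs hz using hrel
  refine ⟨ρ, s, hρ, hs, hz, fun x y hxy => ?_⟩
  rcases h x y with h1 | h1
  · exact h1
  · exact absurd (hden x y h1) hxy

/-- The residual vector. -/
def res (θ : ι → ℚ) (s : ι → ℤ) (t : ℕ → ℤ) : ι → ℚ := fun x =>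
  s x * t (θ x).den / (θ x).den

lemma res_int {θ : ι → ℚ} {ρ : ℕ → ι} {s : ι → ℤ} (hB : Blk θ ρ s) {t : ℕ → ℤ} {a : ℤ}
    (ha : ∀ x, ((θ x).den : ℤ) ∣ a * (θ (ρ (θ x).den)).num - t (θ x).den) (x : ι) :
    ∃ m : ℤ, a * θ x - res θ s t x = m := by
  obtain ⟨z, hz⟩ := hB.hz x
  obtain ⟨q, hq⟩ := ha x
  refine ⟨s x * q + a * z, ?_⟩
  have hD : ((θ x).den : ℚ) ≠ 0 := by exact_mod_cast (θ x).den_nz
  have h1 : θ (ρ (θ x).den) = (θ (ρ (θ x).den)).num / (θ x).den := by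
    conv_lhs => rw [← Rat.num_div_den (θ (ρ (θ x).den))]
    rw [hB.hρ x]
  have hqq : (a : ℚ) * (θ (ρ (θ x).den)).num - t (θ x).den = (θ x).den * q := by
    exact_mod_cast hq
  unfold res
  generalize hD' : (θ x).den = D at *
  generalize (θ (ρ D)).num = κ at *
  rw [hz, h1]
  push_cast
  field_simp
  linear_combination (s x : ℚ) * hqq

/-- The arithmetic theorem. -/
theorem blocks [Nonempty ι] {θ : ι → ℚ} (h : ∀ x y, (θ x).den.Coprime (θ y).den ∨
      (∃ m : ℤ, θ x - θ y = m) ∨ (∃ m : ℤ, θ x + θ y = m))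
    {σ : ℚ} {T : ℤ} (hsum : ∑ x, θ x = 2 * σ - T) {N : ℕ} (hN : 0 < N)
    (hNσ : ∃ m : ℤ, (N : ℚ) * σ = m)
    (x₀ : ι) (h0 : (θ x₀).den ≠ 1) (hodd : Odd (univ.filter fun x => (θ x).den = (θ x₀).den).card)
    (hlt : (∑ x, if (θ x).den = 1 then (0 : ℚ) else 1 / (θ x).den) +
      (if Even (θ x₀).den then 0 else
        ((univ.filter fun x => (θ x).den = (θ x₀).den).card : ℚ) / (θ x₀).den) < 1) :
    ∃ (a : ℤ) (ε : ι → ℚ), IsCoprime a (N : ℤ) ∧ (∀ x, ∃ m : ℤ, a * θ x - ε x = m) ∧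
      ∑ x, |ε x| < 1 ∧ ∃ e : ℤ, 2 * a * σ - ∑ x, ε x = 2 * e + 1 := by
  classical
  obtain ⟨ρ, s, hB⟩ := exists_blk θ h
  set D₀ := (θ x₀).den with hD₀
  set S₀ := univ.filter fun x => (θ x).den = D₀ with hS₀
  set 𝒟 : Finset ℕ := univ.image fun x => (θ x).den with h𝒟
  have hmem : ∀ x, (θ x).den ∈ 𝒟 := fun x => mem_image_of_mem _ (mem_univ x)
  have hco : ∀ D ∈ 𝒟, ∀ D' ∈ 𝒟, D ≠ D' → D.Coprime D' := by
    intro D hD D' hD' hne
    obtain ⟨x, -, rfl⟩ := mem_image.1 hD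
    obtain ⟨y, -, rfl⟩ := mem_image.1 hD'
    exact hB.hco x y hne
  have hpos : ∀ D ∈ 𝒟, 0 < D := by
    intro D hD
    obtain ⟨x, -, rfl⟩ := mem_image.1 hD
    exact (θ x).den_pos
  -- the inverses of the numerators
  have hinv : ∀ D : ℕ, ∃ v : ℤ, D ∈ 𝒟 → (IsCoprime v (D : ℤ) ∧
      (D : ℤ) ∣ v * (θ (ρ D)).num - 1) := by
    intro D
    by_cases hD : D ∈ 𝒟
    · have h1 : IsCoprime (θ (ρ D)).num (D : ℤ) := by
        obtain ⟨x, -, rfl⟩ := mem_image.1 hD
        have h2 := (θ (ρ (θ x).den)).isCoprime_num_den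
        rwa [hB.hρ x] at h2
      obtain ⟨u, w, huw⟩ := h1
      exact ⟨u, fun _ => ⟨⟨(θ (ρ D)).num, w, by linarith⟩, ⟨-w, by linarith⟩⟩⟩
    · exact ⟨0, fun h => absurd h hD⟩
  choose v hv using hinv
  obtain ⟨Nσ, hNσ⟩ := hNσ
  -- the integer of the parity condition
  have hW : ∀ (a : ℤ) (t : ℕ → ℤ), (∀ x, ((θ x).den : ℤ) ∣ a * (θ (ρ (θ x).den)).num -
      t (θ x).den) → ∃ W : ℤ, 2 * a * σ - ∑ x, res θ s t x = W := by
    intro a t ha
    choose m hm using res_int hB ha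
    refine ⟨∑ x, m x + a * T, ?_⟩
    have h1 : ∑ x, (a * θ x - res θ s t x) = ∑ x, (m x : ℚ) := sum_congr rfl fun x _ => hm x
    rw [sum_sub_distrib, ← mul_sum, hsum] at h1
    push_cast
    linarith
  -- the two cases
  suffices hmain : ∃ (a₁ a₂ : ℤ) (t₁ t₂ : ℕ → ℤ), IsCoprime a₁ (N : ℤ) ∧ IsCoprime a₂ (N : ℤ) ∧
      (∀ x, ((θ x).den : ℤ) ∣ a₁ * (θ (ρ (θ x).den)).num - t₁ (θ x).den) ∧
      (∀ x, ((θ x).den : ℤ) ∣ a₂ * (θ (ρ (θ x).den)).num - t₂ (θ x).den) ∧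
      ∑ x, |res θ s t₁ x| < 1 ∧ ∑ x, |res θ s t₂ x| < 1 ∧
      ∀ W₁ W₂ : ℤ, 2 * a₁ * σ - ∑ x, res θ s t₁ x = W₁ → 2 * a₂ * σ - ∑ x, res θ s t₂ x = W₂ →
        Odd (W₁ - W₂) by
    obtain ⟨a₁, a₂, t₁, t₂, h1, h2, h3, h4, h5, h6, h7⟩ := hmain
    obtain ⟨W₁, hW₁⟩ := hW a₁ t₁ h3
    obtain ⟨W₂, hW₂⟩ := hW a₂ t₂ h4
    rcases odd_or (h7 W₁ W₂ hW₁ hW₂) with ⟨e, he⟩ | ⟨e, he⟩
    · refine ⟨a₁, res θ s t₁, h1, res_int hB h3, h5, e, ?_⟩
      rw [hW₁, he]
      push_cast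
      ring
    · refine ⟨a₂, res θ s t₂, h2, res_int hB h4, h6, e, ?_⟩
      rw [hW₂, he]
      push_cast
      ring
  have habs : ∀ t : ℕ → ℤ, ∑ x, |res θ s t x| = ∑ x, |(t (θ x).den : ℚ)| / (θ x).den := by
    intro t
    refine sum_congr rfl fun x _ => ?_
    unfold res
    have hs1 : |(s x : ℚ)| = 1 := by
      rcases hB.hs x with h | h <;> rw [h] <;> simp
    rw [abs_div, abs_mul, hs1, one_mul, abs_of_nonneg (by positivity : (0 : ℚ) ≤ ((θ x).den : ℚ))]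
  let t : ℕ → ℤ := fun D => if D = 1 then 0 else 1
  have ht1 : ∑ x, |res θ s t x| = ∑ x, if (θ x).den = 1 then (0 : ℚ) else 1 / (θ x).den := by
    rw [habs]
    refine sum_congr rfl fun x _ => ?_
    simp only [t]
    split_ifs <;> simp
  have hdvdt : ∀ (a : ℤ) (x : ι), ((θ x).den : ℤ) ∣ a - v (θ x).den →
      ((θ x).den : ℤ) ∣ a * (θ (ρ (θ x).den)).num - t (θ x).den := by
    intro a x hax
    by_cases h1 : (θ x).den = 1
    · rw [h1]
      simp
    · simp only [t, if_neg h1]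
      have h2 := (hv _ (hmem x)).2
      have h3 := hax.mul_right (θ (ρ (θ x).den)).num
      have h4 := dvd_add h3 h2
      exact dvdz h4 (by ring)
  have hD₀mem : D₀ ∈ 𝒟 := hmem x₀
  have hcard : ∑ x, (if x ∈ S₀ then (1 : ℤ) else 0) = S₀.card := by simp
  rcases Nat.even_or_odd D₀ with hev | hod
  · -- even
    rw [if_pos hev, add_zero] at hlt
    set P : ℕ := ∏ D ∈ 𝒟, D with hP
    obtain ⟨c, hc, hcd⟩ := crt hco v (fun D hD => (hv D hD).1)
    have hDP : ∀ D ∈ 𝒟, D ∣ P := fun D hD => dvd_prod_of_mem (fun D => D) hD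
    have h2P : 2 ∣ P := hev.two_dvd.trans (hDP _ hD₀mem)
    have h2Pz : (2 : ℤ) ∣ (P : ℤ) := by exact_mod_cast h2P
    have hup : ∀ z : ℤ, IsCoprime z (P : ℤ) → IsCoprime z ((P * 2 : ℕ) : ℤ) := by
      intro z hz
      rw [Nat.cast_mul]
      exact hz.mul_right (hz.of_isCoprime_of_dvd_right h2Pz)
    have hc' : IsCoprime (c + P) (P : ℤ) := cop_of_dvd hc (by simp)
    obtain ⟨a₁, ha₁, k₁, hk₁⟩ := lift_unit (N' := N) hN c (hup c hc)
    obtain ⟨a₂, ha₂, k₂, hk₂⟩ := lift_unit (N' := N) hN (c + P) (hup _ hc')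
    have hd₁ : ∀ D ∈ 𝒟, (D : ℤ) ∣ a₁ - v D := by
      intro D hD
      have h1 : (D : ℤ) ∣ P := by exact_mod_cast hDP D hD
      refine dvdz (dvd_sub (hcd D hD) (h1.mul_right (2 * k₁))) ?_
      push_cast at hk₁
      linear_combination hk₁
    have hd₂ : ∀ D ∈ 𝒟, (D : ℤ) ∣ a₂ - v D := by
      intro D hD
      have h1 : (D : ℤ) ∣ P := by exact_mod_cast hDP D hD
      refine dvdz (dvd_sub (hcd D hD) (h1.mul_right (2 * k₂ - 1))) ?_
      push_cast at hk₂
      linear_combination hk₂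
    refine ⟨a₁, a₂, t, t, ha₁.of_isCoprime_of_dvd_right (by push_cast; exact dvd_mul_left _ _),
      ha₂.of_isCoprime_of_dvd_right (by push_cast; exact dvd_mul_left _ _),
      fun x => hdvdt _ _ (hd₁ _ (hmem x)), fun x => hdvdt _ _ (hd₂ _ (hmem x)),
      by rw [ht1]; exact hlt, by rw [ht1]; exact hlt, ?_⟩
    intro W₁ W₂ hW₁ hW₂
    -- the numbers `P θ`
    have hK : ∀ x, ∃ K : ℤ, (P : ℚ) * θ x = K ∧ (2 : ℤ) ∣ K - if x ∈ S₀ then 1 else 0 := by
      intro x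
      obtain ⟨cx, hcx⟩ := hDP _ (hmem x)
      refine ⟨cx * (θ x).num, ?_, ?_⟩
      · rw [hcx]
        push_cast
        have h1 : ((θ x).den : ℚ) * θ x = (θ x).num := Rat.den_mul_eq_num _
        linear_combination (cx : ℚ) * h1
      · by_cases hx : x ∈ S₀
        · rw [if_pos hx]
          have hx' : (θ x).den = D₀ := (mem_filter.1 hx).2
          rw [hx'] at hcx
          have h1 : cx = ∏ D ∈ 𝒟.erase D₀, D := by
            have h2 := mul_prod_erase 𝒟 (fun D => D) hD₀mem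
            rw [← hP, hcx] at h2
            exact (Nat.eq_of_mul_eq_mul_left (hpos _ hD₀mem) h2).symm
          have h3 : Odd cx := by
            rw [← Nat.not_even_iff_odd, even_iff_two_dvd, h1, Nat.prime_two.prime.dvd_finsetProd_iff]
            rintro ⟨D, hD, h2D⟩
            have h4 := hco D (mem_of_mem_erase hD) D₀ hD₀mem (ne_of_mem_erase hD)
            exact Nat.not_coprime_of_dvd_of_dvd (by norm_num) h2D hev.two_dvd h4
          have h5 : Odd (θ x).num := by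
            have h6 := (θ x).isCoprime_num_den
            rw [hx'] at h6
            rw [← Int.not_even_iff_odd, even_iff_two_dvd]
            intro h7
            have h8 : (2 : ℤ) ∣ D₀ := by exact_mod_cast hev.two_dvd
            have h9 := h6.isUnit_of_dvd' h7 h8
            rw [Int.isUnit_iff] at h9
            omega
          have h6 : Odd ((cx : ℤ) * (θ x).num) := by
            refine Odd.mul ?_ h5
            exact_mod_cast h3
          exact (h6.sub_odd odd_one).two_dvd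
        · rw [if_neg hx, sub_zero]
          have hx' : (θ x).den ≠ D₀ := fun h' => hx (mem_filter.2 ⟨mem_univ _, h'⟩)
          have h1 := (hB.hco x x₀ hx').mul_dvd_of_dvd_of_dvd (hDP _ (hmem x)) (hDP _ hD₀mem)
          rw [← hD₀, hcx] at h1
          have h3 := Nat.dvd_of_mul_dvd_mul_left (θ x).den_pos h1
          have h4 : (2 : ℤ) ∣ cx := by exact_mod_cast hev.two_dvd.trans h3
          exact h4.mul_right _
    choose K hK hKp using hK
    have hKodd : Odd (∑ x, K x) := by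
      have h1 : (2 : ℤ) ∣ ∑ x, (K x - if x ∈ S₀ then 1 else 0) := dvd_sum fun x _ => hKp x
      rw [sum_sub_distrib, hcard] at h1
      obtain ⟨m, hm⟩ := h1
      obtain ⟨m', hm'⟩ := hodd
      refine ⟨m + m', ?_⟩
      have h2 : (S₀.card : ℤ) = 2 * m' + 1 := by exact_mod_cast hm'
      linarith
    have hkey : W₁ - W₂ = (2 * (k₂ - k₁) - 1) * (∑ x, K x + P * T) := by
      have h1 : (P : ℚ) * (2 * σ) = ((∑ x, K x : ℤ) : ℚ) + P * T := by
        have h2 : (P : ℚ) * ∑ x, θ x = ((∑ x, K x : ℤ) : ℚ) := by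
          rw [mul_sum]
          push_cast
          exact sum_congr rfl fun x _ => hK x
        rw [hsum] at h2
        linarith
      have e1 : (c : ℚ) - a₁ = P * 2 * k₁ := by
        have := hk₁
        push_cast at this
        exact_mod_cast this
      have e2 : (c : ℚ) + P - a₂ = P * 2 * k₂ := by
        have := hk₂
        push_cast at this
        exact_mod_cast this
      have h3 : ((W₁ - W₂ : ℤ) : ℚ) =
          (((2 * (k₂ - k₁) - 1) * (∑ x, K x + P * T) : ℤ) : ℚ) := by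
        push_cast at h1 ⊢
        rw [← hW₁, ← hW₂]
        linear_combination (-(2 * σ)) * e1 + (2 * σ) * e2 + (2 * (k₂ - k₁) - 1 : ℚ) * h1
      exact_mod_cast h3
    rw [hkey]
    refine Odd.mul ⟨k₂ - k₁ - 1, by ring⟩ (hKodd.add_even ?_)
    exact (even_iff_two_dvd.2 h2Pz).mul_right T
  · -- odd
    have hnev : ¬ Even D₀ := Nat.not_even_iff_odd.2 hod
    rw [if_neg hnev] at hlt
    obtain ⟨w, M₀, hM₀, hNw⟩ := Nat.exists_eq_two_pow_mul_odd hN.ne'
    set 𝒟₁ := 𝒟.erase D₀ with h𝒟₁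
    set P₁ : ℕ := ∏ D ∈ 𝒟₁, D with hP₁
    obtain ⟨c₁, hc₁, hcd₁⟩ := crt (𝒟 := 𝒟₁) (fun D hD D' hD' => hco D (mem_of_mem_erase hD) D'
      (mem_of_mem_erase hD')) v (fun D hD => (hv D (mem_of_mem_erase hD)).1)
    obtain ⟨c₂, hc₂, hc₂d⟩ := lift_unit (N' := 2 ^ w) (by positivity) c₁ hc₁
    have hcop : IsCoprime ((P₁ * 2 ^ w : ℕ) : ℤ) (D₀ : ℤ) := by
      rw [Nat.isCoprime_iff_coprime]
      refine Nat.Coprime.mul_left ?_ ?_
      · exact Nat.Coprime.prod_left fun D hD => hco D (mem_of_mem_erase hD) D₀ hD₀mem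
          (ne_of_mem_erase hD)
      · exact (Nat.coprime_two_left.2 hod).pow_left w
    obtain ⟨b₁, hb₁, hb₁'⟩ := crt2 hcop c₂ (v D₀)
    obtain ⟨b₂, hb₂, hb₂'⟩ := crt2 hcop c₂ (2 * v D₀)
    have hv₀ : IsCoprime (v D₀) (D₀ : ℤ) := (hv D₀ hD₀mem).1
    have h2v₀ : IsCoprime (2 * v D₀) (D₀ : ℤ) := by
      refine IsCoprime.mul_left ?_ hv₀
      have := Nat.isCoprime_iff_coprime.2 (Nat.coprime_two_left.2 hod)
      exact_mod_cast this
    have hbc₁ : IsCoprime b₁ ((P₁ * 2 ^ w * D₀ : ℕ) : ℤ) := by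
      rw [Nat.cast_mul]
      exact (cop_of_dvd hc₂ hb₁).mul_right (cop_of_dvd hv₀ hb₁')
    have hbc₂ : IsCoprime b₂ ((P₁ * 2 ^ w * D₀ : ℕ) : ℤ) := by
      rw [Nat.cast_mul]
      exact (cop_of_dvd hc₂ hb₂).mul_right (cop_of_dvd h2v₀ hb₂')
    obtain ⟨a₁, ha₁, ha₁d⟩ := lift_unit (N' := N) hN b₁ hbc₁
    obtain ⟨a₂, ha₂, ha₂d⟩ := lift_unit (N' := N) hN b₂ hbc₂
    -- the residues
    have hp₁ : ∀ D ∈ 𝒟₁, (D : ℤ) ∣ (P₁ : ℤ) := fun D hD => by
      exact_mod_cast dvd_prod_of_mem (fun D => D) hD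
    have hres : ∀ (a b : ℤ), ((P₁ * 2 ^ w : ℕ) : ℤ) ∣ b - c₂ →
        ((P₁ * 2 ^ w * D₀ : ℕ) : ℤ) ∣ b - a → ∀ D ∈ 𝒟₁, (D : ℤ) ∣ a - v D := by
      intro a b hb ha D hD
      have h1 : (D : ℤ) ∣ ((P₁ * 2 ^ w : ℕ) : ℤ) := by
        rw [Nat.cast_mul]
        exact (hp₁ D hD).mul_right _
      have h2 : (D : ℤ) ∣ ((P₁ * 2 ^ w * D₀ : ℕ) : ℤ) := by
        rw [Nat.cast_mul]
        exact h1.mul_right _
      have h3 := dvd_sub (dvd_add (dvd_sub (h1.trans hb) (h2.trans ha)) (hcd₁ D hD))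
        ((hp₁ D hD).trans hc₂d)
      exact dvdz h3 (by ring)
    have hD₀d : (D₀ : ℤ) ∣ ((P₁ * 2 ^ w * D₀ : ℕ) : ℤ) := by
      rw [Nat.cast_mul]
      exact dvd_mul_left _ _
    have hr₁ : (D₀ : ℤ) ∣ a₁ - v D₀ := dvdz (dvd_sub hb₁' (hD₀d.trans ha₁d)) (by ring)
    have hr₂ : (D₀ : ℤ) ∣ a₂ - 2 * v D₀ := dvdz (dvd_sub hb₂' (hD₀d.trans ha₂d)) (by ring)
    let t₂ : ℕ → ℤ := fun D => if D = 1 then 0 else if D = D₀ then 2 else 1
    have hcase : ∀ x, (θ x).den = D₀ ∨ (θ x).den ∈ 𝒟₁ := by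
      intro x
      by_cases hx : (θ x).den = D₀
      · exact Or.inl hx
      · exact Or.inr (mem_erase.2 ⟨hx, hmem x⟩)
    have ht2 : ∀ x, |(t₂ (θ x).den : ℚ)| / (θ x).den =
        (if (θ x).den = 1 then (0 : ℚ) else 1 / (θ x).den) + if x ∈ S₀ then 1 / (D₀ : ℚ) else 0 := by
      intro x
      by_cases hx : x ∈ S₀
      · have hx' : (θ x).den = D₀ := (mem_filter.1 hx).2
        rw [if_pos hx, hx']
        simp only [t₂, if_neg h0, if_true]
        push_cast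
        rw [abs_of_pos (by norm_num : (0 : ℚ) < 2)]
        ring
      · have hx' : (θ x).den ≠ D₀ := fun h' => hx (mem_filter.2 ⟨mem_univ _, h'⟩)
        rw [if_neg hx, add_zero]
        simp only [t₂, if_neg hx']
        split_ifs <;> simp
    have hcardq : ∑ x, (if x ∈ S₀ then 1 / (D₀ : ℚ) else 0) = S₀.card / D₀ := by
      rw [sum_ite_mem, univ_inter, sum_const, nsmul_eq_mul]
      ring
    refine ⟨a₁, a₂, t, t₂, ha₁.of_isCoprime_of_dvd_right (by push_cast; exact dvd_mul_left _ _),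
      ha₂.of_isCoprime_of_dvd_right (by push_cast; exact dvd_mul_left _ _), fun x => ?_,
      fun x => ?_, ?_, ?_, ?_⟩
    · apply hdvdt
      rcases hcase x with h1 | h1
      · rw [h1]
        exact hr₁
      · exact hres a₁ b₁ hb₁ ha₁d _ h1
    · rcases hcase x with h1 | h1
      · rw [h1]
        simp only [t₂, if_neg h0, if_true]
        have h2 := (hv D₀ hD₀mem).2
        have h3 := hr₂.mul_right (θ (ρ D₀)).num
        exact dvdz (dvd_add h3 (h2.mul_left 2)) (by ring)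
      · have h2 := hdvdt a₂ x (hres a₂ b₂ hb₂ ha₂d _ h1)
        have h3 : t₂ (θ x).den = t (θ x).den := by
          simp only [t, t₂, if_neg (ne_of_mem_erase h1)]
        rw [h3]
        exact h2
    · rw [ht1]
      refine lt_of_le_of_lt ?_ hlt
      have : (0 : ℚ) ≤ S₀.card / D₀ := by positivity
      linarith
    · rw [habs, sum_congr rfl fun x _ => ht2 x, sum_add_distrib, hcardq]
      exact hlt
    · intro W₁ W₂ hW₁ hW₂
      -- powers of two
      have h2w : ((2 ^ w : ℕ) : ℤ) ∣ a₁ - a₂ := by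
        have hw1 : ((2 ^ w : ℕ) : ℤ) ∣ ((P₁ * 2 ^ w : ℕ) : ℤ) := by
          rw [Nat.cast_mul]
          exact dvd_mul_left _ _
        have hw2 : ((2 ^ w : ℕ) : ℤ) ∣ ((P₁ * 2 ^ w * D₀ : ℕ) : ℤ) := by
          rw [Nat.cast_mul]
          exact hw1.mul_right _
        have h3 := dvd_sub (dvd_sub (hw1.trans hb₁) (hw1.trans hb₂))
          (dvd_sub (hw2.trans ha₁d) (hw2.trans ha₂d))
        exact dvdz h3 (by ring)
      obtain ⟨q, hq⟩ := h2w
      have hres0 : ∑ x, res θ s t₂ x - ∑ x, res θ s t x =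
          ((∑ x ∈ S₀, s x : ℤ) : ℚ) / D₀ := by
        rw [← sum_sub_distrib]
        push_cast
        rw [sum_div, ← sum_subset (subset_univ S₀)]
        · refine sum_congr rfl fun x hx => ?_
          have hx' : (θ x).den = D₀ := (mem_filter.1 hx).2
          unfold res
          rw [hx']
          simp only [t, t₂, if_neg h0, if_true]
          push_cast
          ring
        · intro x _ hx
          have hx' : (θ x).den ≠ D₀ := fun h' => hx (mem_filter.2 ⟨mem_univ _, h'⟩)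
          unfold res
          simp only [t, t₂, if_neg hx']
          ring
      have hsodd : Odd (∑ x ∈ S₀, s x) := by
        have h1 : (2 : ℤ) ∣ ∑ x ∈ S₀, (s x - 1) := dvd_sum fun x _ => by
          rcases hB.hs x with h | h <;> rw [h] <;> norm_num
        rw [sum_sub_distrib] at h1
        simp only [sum_const, nsmul_eq_mul, mul_one] at h1
        obtain ⟨m, hm⟩ := h1
        obtain ⟨m', hm'⟩ := hodd
        refine ⟨m + m', ?_⟩
        have h2 : (S₀.card : ℤ) = 2 * m' + 1 := by exact_mod_cast hm'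
        linarith
      have hD₀q : (D₀ : ℚ) ≠ 0 := by exact_mod_cast (hpos _ hD₀mem).ne'
      have hkey : (M₀ : ℤ) * D₀ * (W₁ - W₂) = D₀ * 2 * q * Nσ + M₀ * ∑ x ∈ S₀, s x := by
        have h3 : (((M₀ : ℤ) * D₀ * (W₁ - W₂) : ℤ) : ℚ) =
            ((D₀ * 2 * q * Nσ + M₀ * ∑ x ∈ S₀, s x : ℤ) : ℚ) := by
          have e1 : (a₁ : ℚ) - a₂ = 2 ^ w * q := by
            have := hq
            push_cast at this
            exact_mod_cast this
          have e2 : (2 : ℚ) ^ w * M₀ * σ = Nσ := by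
            rw [← hNσ, hNw]
            push_cast
            ring
          have e3 : ((∑ x ∈ S₀, s x : ℤ) : ℚ) =
              D₀ * (∑ x, res θ s t₂ x - ∑ x, res θ s t x) := by
            rw [hres0]
            field_simp
          have e4 : (W₁ : ℚ) - W₂ = 2 * (a₁ - a₂) * σ +
              (∑ x, res θ s t₂ x - ∑ x, res θ s t x) := by
            rw [← hW₁, ← hW₂]
            ring
          rw [Int.cast_mul, Int.cast_sub, e4, Int.cast_add, Int.cast_mul (M₀ : ℤ) (∑ x ∈ S₀, s x),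
            e3]
          push_cast
          linear_combination (2 * M₀ * D₀ * σ : ℚ) * e1 + (2 * D₀ * q : ℚ) * e2
        exact_mod_cast h3
      have hoddR : Odd ((M₀ : ℤ) * D₀ * (W₁ - W₂)) := by
        rw [hkey]
        refine Even.add_odd ⟨D₀ * q * Nσ, by ring⟩ (Odd.mul ?_ hsodd)
        exact_mod_cast hM₀
      exact (Int.odd_mul.1 hoddR).2

end

end Pool.Agent.Helper104.PCV
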