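import Pool.Agent.Helper104.PCV.Sums
import Mathlib.Algebra.Order.Chebyshev

set_option autoImplicit false

/-!
The number of the multiples of a point which are near the odd points.
-/

namespace Pool.Agent.Helper104.PCV

open Finset Real

section

variable {S : Type*} [Fintype S] [DecidableEq S]

/-- The test function. -/
noncomputable def gg (u : S → ℝ) : ℝ :=
  (∑ y, cos (π * u y) - Fintype.card S * cos (π / Fintype.card S)) *
    ∏ x, FF (Fintype.card S) (u x)

lemma sum_single (y : S) (u : S → ℝ) (c : ℤ) :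
    ∑ x, ((Pi.single y c : S → ℤ) x : ℝ) * u x = c * u y := by
  rw [sum_eq_single y]
  · rw [Pi.single_eq_same]
  · intro x _ hx
    rw [Pi.single_eq_of_ne hx, Int.cast_zero, zero_mul]
  · intro h
    exact absurd (mem_univ _) h

lemma sum_gg (θ : S → ℝ) (I : ℤ) (𝒜 : Finset ℤ) :
    ((∑ a ∈ 𝒜, ∑ μ : S → Fin 2, (if WW I a μ then gg (fun x => a * θ x - (μ x : ℕ)) else 0) :
      ℝ) : ℂ) =
      ∑ y, (EE θ I 𝒜 (Fintype.card S) (Pi.single y 1) +
        EE θ I 𝒜 (Fintype.card S) (Pi.single y (-1))) / 2 -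
      (Fintype.card S * cos (π / Fintype.card S) : ℝ) * EE θ I 𝒜 (Fintype.card S) 0 := by
  unfold EE
  push_cast
  simp only [mul_sum, ← sum_add_distrib, sum_div]
  rw [sum_comm (s := (univ : Finset S)), ← sum_sub_distrib]
  refine sum_congr rfl fun a _ => ?_
  rw [sum_comm (s := (univ : Finset S)), ← sum_sub_distrib]
  refine sum_congr rfl fun μ _ => ?_
  split_ifs with h
  · unfold gg
    simp only [sum_single, one_mul]
    have h0 : ee (∑ x, ((0 : S → ℤ) x : ℝ) * (a * θ x - (μ x : ℕ))) = 1 := by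
      simp [ee_zero]
    rw [h0]
    have h1 : ∀ y, (ee (((1 : ℤ) : ℝ) * (a * θ y - (μ y : ℕ))) *
        ∏ x, ((FF (Fintype.card S) (a * θ x - (μ x : ℕ)) : ℝ) : ℂ) +
        ee (((-1 : ℤ) : ℝ) * (a * θ y - (μ y : ℕ))) *
          ∏ x, ((FF (Fintype.card S) (a * θ x - (μ x : ℕ)) : ℝ) : ℂ)) / 2 =
        ((cos (π * (a * θ y - (μ y : ℕ))) : ℝ) : ℂ) *
          ∏ x, ((FF (Fintype.card S) (a * θ x - (μ x : ℕ)) : ℝ) : ℂ) := by
      intro y
      rw [cos_ee]
      have e1 : ((1 : ℤ) : ℝ) * (a * θ y - (μ y : ℕ)) = a * θ y - (μ y : ℕ) := by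
        push_cast; ring
      have e2 : ((-1 : ℤ) : ℝ) * (a * θ y - (μ y : ℕ)) = -(a * θ y - (μ y : ℕ)) := by
        push_cast; ring
      rw [e1, e2]
      ring
    rw [sum_congr rfl fun y _ => h1 y, ← sum_mul]
    push_cast
    ring
  · simp

/-- Upper bound of the kernel. -/
lemma FF_le (m : ℕ) (t : ℝ) : FF m t ≤ m * nrm m := by
  have h1 : ‖∑ i : Fin m, (cc m i : ℂ) * ee (i * t)‖ ≤ ∑ i : Fin m, cc m i := by
    refine (norm_sum_le _ _).trans (le_of_eq (sum_congr rfl fun i _ => ?_))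
    rw [norm_mul, norm_ee, mul_one, Complex.norm_real, Real.norm_of_nonneg (cc_nonneg i.2)]
  unfold FF
  have h2 : ‖∑ i : Fin m, (cc m i : ℂ) * ee (i * t)‖ ^ 2 ≤ (∑ i : Fin m, cc m i) ^ 2 :=
    pow_le_pow_left₀ (norm_nonneg _) h1 2
  refine h2.trans ?_
  have h3 := sq_sum_le_card_mul_sum_sq (s := (univ : Finset (Fin m))) (f := fun i => cc m i)
  rw [card_univ, Fintype.card_fin] at h3
  exact h3

lemma sumcc_le (m : ℕ) (k : ℕ) : (∑ i : Fin m, cc m i) ^ (2 * k) ≤ (m * nrm m) ^ k := by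
  rw [pow_mul]
  refine pow_le_pow_left₀ (by positivity) ?_ k
  have h3 := sq_sum_le_card_mul_sum_sq (s := (univ : Finset (Fin m))) (f := fun i => cc m i)
  rw [card_univ, Fintype.card_fin] at h3
  exact h3

lemma gg_le [Nonempty S] (u : S → ℝ) :
    gg u ≤ 2 * Fintype.card S * (Fintype.card S * nrm (Fintype.card S)) ^ Fintype.card S := by
  unfold gg
  set M := Fintype.card S with hM
  have hM0 : (0 : ℝ) ≤ M := by positivity
  have hn0 : 0 ≤ (M : ℝ) * nrm M := by
    have := FF_nonneg M 0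
    exact this.trans (FF_le M 0)
  have h1 : ∏ x, FF M (u x) ≤ (M * nrm M) ^ M := by
    calc ∏ x, FF M (u x) ≤ ∏ _x : S, ((M : ℝ) * nrm M) :=
          prod_le_prod (fun _ _ => FF_nonneg _ _) fun x _ => FF_le M (u x)
      _ = (M * nrm M) ^ M := by rw [prod_const, card_univ]
  have h2 : ∑ y, cos (π * u y) - M * cos (π / M) ≤ 2 * M := by
    have h3 : ∑ y, cos (π * u y) ≤ M := by
      calc ∑ y, cos (π * u y) ≤ ∑ _y : S, (1 : ℝ) := sum_le_sum fun y _ => cos_le_one _
        _ = M := by rw [sum_const, card_univ, nsmul_eq_mul, mul_one]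
    have h4 := neg_one_le_cos (π / M)
    nlinarith
  have h5 : 0 ≤ ∏ x, FF M (u x) := prod_nonneg fun x _ => FF_nonneg _ _
  calc (∑ y, cos (π * u y) - M * cos (π / M)) * ∏ x, FF M (u x) ≤
      2 * M * ∏ x, FF M (u x) := mul_le_mul_of_nonneg_right h2 h5
    _ ≤ 2 * M * (M * nrm M) ^ M := mul_le_mul_of_nonneg_left h1 (by positivity)

/-- The lower bound. -/
theorem main_lower [Nonempty S] (θ : S → ℝ) (I : ℤ) (𝒜 : Finset ℤ) {B : ℝ} (hB0 : 0 ≤ B)
    (hB : ∀ j : S → ℤ, j ≠ 0 → (∀ x, |j x| ≤ Fintype.card S) → ‖TT θ I 𝒜 j‖ ≤ B) :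
    2 ^ Fintype.card S * 𝒜.card / 2 * (Fintype.card S * nrm (Fintype.card S) ^ Fintype.card S *
      (cos (π / (Fintype.card S + 1)) - cos (π / Fintype.card S))) -
      2 * Fintype.card S * (B * (Fintype.card S * nrm (Fintype.card S)) ^ Fintype.card S) ≤
    ∑ a ∈ 𝒜, ∑ μ : S → Fin 2, (if WW I a μ then gg (fun x => a * θ x - (μ x : ℕ)) else 0) := by
  set M := Fintype.card S with hM
  have hMpos : 0 < M := Fintype.card_pos
  set T₀ : ℝ := 2 ^ M * 𝒜.card / 2 with hT₀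
  have hTT : TT θ I 𝒜 0 = (T₀ : ℂ) := by
    rw [TT_zero, hT₀]
    push_cast
    rfl
  set E : ℝ := B * (M * nrm M) ^ M with hE
  -- the estimates
  have hest : ∀ s : S → ℤ, (∀ x, |s x| ≤ 1) →
      ‖EE θ I 𝒜 M s - ((T₀ * ∏ x, kap M (s x) : ℝ) : ℂ)‖ ≤ E := by
    intro s hs
    have h1 := EE_main θ I 𝒜 M s (B := B) (fun j hj hjs => hB j hj fun x => by
      have h2 := hs x
      have h3 := hjs x
      rw [abs_le] at h2 ⊢
      rw [abs_lt] at h3
      constructor <;> omega) hB0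
    rw [hTT] at h1
    push_cast at h1 ⊢
    refine h1.trans ?_
    exact mul_le_mul_of_nonneg_left (sumcc_le M M) hB0
  have hone : ∀ (y : S) (c : ℤ), (c = 1 ∨ c = -1) →
      ∏ x, kap M ((Pi.single y c : S → ℤ) x) = cos (π / (M + 1)) * nrm M ^ M := by
    intro y c hc
    rw [← mul_prod_erase _ _ (mem_univ y), Pi.single_eq_same]
    have h1 : ∏ x ∈ univ.erase y, kap M ((Pi.single y c : S → ℤ) x) = nrm M ^ (M - 1) := by
      have h2 : ∀ x ∈ univ.erase y, kap M ((Pi.single y c : S → ℤ) x) = nrm M := by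
        intro x hx
        rw [Pi.single_eq_of_ne (ne_of_mem_erase hx), kap_zero]
      rw [prod_congr rfl h2, prod_const, card_erase_of_mem (mem_univ y), card_univ]
    rw [h1]
    have h3 : kap M c = cos (π / (M + 1)) * nrm M := by
      rcases hc with rfl | rfl
      · exact kap_one_eq M
      · rw [kap_neg, kap_one_eq]
    rw [h3, mul_assoc, ← pow_succ']
    congr 2
    omega
  have hsingle : ∀ (y : S) (c : ℤ), (c = 1 ∨ c = -1) → ∀ x, |(Pi.single y c : S → ℤ) x| ≤ 1 := by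
    intro y c hc x
    by_cases hx : x = y
    · subst hx
      rw [Pi.single_eq_same]
      rcases hc with rfl | rfl <;> norm_num
    · rw [Pi.single_eq_of_ne hx]
      norm_num
  set C₁ := T₀ * (cos (π / (M + 1)) * nrm M ^ M) with hC₁
  have e1 : ∀ y, ‖EE θ I 𝒜 M (Pi.single y 1) - ((C₁ : ℝ) : ℂ)‖ ≤ E := by
    intro y
    have := hest (Pi.single y 1) (hsingle y 1 (Or.inl rfl))
    rwa [hone y 1 (Or.inl rfl)] at this
  have e2 : ∀ y, ‖EE θ I 𝒜 M (Pi.single y (-1)) - ((C₁ : ℝ) : ℂ)‖ ≤ E := by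
    intro y
    have := hest (Pi.single y (-1)) (hsingle y (-1) (Or.inr rfl))
    rwa [hone y (-1) (Or.inr rfl)] at this
  have e3 : ‖EE θ I 𝒜 M 0 - ((T₀ * nrm M ^ M : ℝ) : ℂ)‖ ≤ E := by
    have := hest 0 (fun x => by simp)
    have h1 : ∏ x : S, kap M ((0 : S → ℤ) x) = nrm M ^ M := by
      simp only [Pi.zero_apply, kap_zero, prod_const, card_univ]
      rfl
    rwa [h1] at this
  -- real parts
  have hre := congrArg Complex.re (sum_gg θ I 𝒜)
  rw [Complex.ofReal_re] at hre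
  rw [hre]
  have hlow : ∀ {z : ℂ} {c : ℝ}, ‖z - (c : ℂ)‖ ≤ E → c - E ≤ z.re ∧ z.re ≤ c + E := by
    intro z c h
    have h1 := (Complex.abs_re_le_norm (z - c)).trans h
    rw [Complex.sub_re, Complex.ofReal_re, abs_le] at h1
    constructor <;> linarith
  rw [Complex.sub_re, Complex.re_sum, ← hM, Complex.re_ofReal_mul]
  have h5 : ∑ _y : S, (C₁ - E) ≤ ∑ y, ((EE θ I 𝒜 M (Pi.single y 1) +
      EE θ I 𝒜 M (Pi.single y (-1))) / 2).re := by
    refine sum_le_sum fun y _ => ?_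
    have h6 := (hlow (e1 y)).1
    have h7 := (hlow (e2 y)).1
    have h8 : ((EE θ I 𝒜 M (Pi.single y 1) + EE θ I 𝒜 M (Pi.single y (-1))) / 2).re =
        ((EE θ I 𝒜 M (Pi.single y 1)).re + (EE θ I 𝒜 M (Pi.single y (-1))).re) / 2 := by
      rw [Complex.div_ofNat_re, Complex.add_re]
    rw [h8]
    linarith
  rw [sum_const, card_univ, nsmul_eq_mul, ← hM] at h5
  have hE0 : 0 ≤ E := (norm_nonneg _).trans e3
  have hM0 : (0 : ℝ) < M := by exact_mod_cast hMpos
  have h9 : M * cos (π / M) * (EE θ I 𝒜 M 0).re ≤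
      M * cos (π / M) * (T₀ * nrm M ^ M) + M * E := by
    have h10 := hlow e3
    have h11 : |M * cos (π / M) * ((EE θ I 𝒜 M 0).re - T₀ * nrm M ^ M)| ≤ M * 1 * E := by
      rw [abs_mul, abs_mul, abs_of_pos hM0]
      refine mul_le_mul (mul_le_mul_of_nonneg_left (abs_cos_le_one _) hM0.le) ?_ (abs_nonneg _)
        (by positivity)
      rw [abs_le]
      constructor <;> linarith
    have h12 := (abs_le.1 h11).2
    linarith
  have h13 : T₀ * (M * nrm M ^ M * (cos (π / (M + 1)) - cos (π / M))) - 2 * M * E =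
      M * (C₁ - E) - (M * cos (π / M) * (T₀ * nrm M ^ M) + M * E) := by
    rw [hC₁]
    ring
  rw [h13]
  linarith

/-- The difference of the cosines. -/
lemma cos_gap {m : ℕ} (hm : 0 < m) :
    4 / ((m : ℝ) * (m + 1) ^ 2) ≤ cos (π / (m + 1)) - cos (π / m) := by
  have hm0 : (0 : ℝ) < m := by exact_mod_cast hm
  have hpi := pi_pos
  by_cases hm2 : m = 1
  · subst hm2
    have h1 : π / (((1 : ℕ) : ℝ) + 1) = π / 2 := by norm_num
    have h2 : π / ((1 : ℕ) : ℝ) = π := by norm_num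
    rw [h1, h2, cos_pi_div_two, cos_pi]
    norm_num
  have hm3 : (2 : ℝ) ≤ m := by exact_mod_cast (show 2 ≤ m by omega)
  rw [cos_sub_cos]
  have h1 : sin ((π / (m + 1) - π / m) / 2) = - sin ((π / m - π / (m + 1)) / 2) := by
    rw [← sin_neg]
    congr 1
    ring
  rw [h1]
  have hx1 : (π / m - π / (m + 1)) / 2 = π / (2 * (m * (m + 1))) := by
    field_simp
    ring
  have hx2 : (π / (m + 1) + π / m) / 2 = π * (2 * m + 1) / (2 * (m * (m + 1))) := by
    field_simp
    ring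
  rw [hx1, hx2]
  have hle1 : π / (2 * (m * (m + 1))) ≤ π / 2 := by
    apply div_le_div_of_nonneg_left hpi.le (by norm_num)
    nlinarith
  have s1 : 2 / π * (π / (2 * (m * (m + 1)))) ≤ sin (π / (2 * (m * (m + 1)))) :=
    mul_le_sin (by positivity) hle1
  have s2 : 2 / ((m : ℝ) + 1) ≤ sin (π * (2 * m + 1) / (2 * (m * (m + 1)))) := by
    have hle2 : π * (2 * m + 1) / (2 * (m * (m + 1))) ≤ π / 2 := by
      rw [div_le_div_iff₀ (by positivity) (by norm_num)]
      have : (2 * (m : ℝ) + 1) * 2 ≤ 2 * (m * (m + 1)) := by nlinarith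
      nlinarith [mul_le_mul_of_nonneg_left this hpi.le]
    have s3 := mul_le_sin (by positivity) hle2
    refine le_trans ?_ s3
    have h5 : 2 / π * (π * (2 * m + 1) / (2 * (m * (m + 1)))) = (2 * m + 1) / (m * (m + 1)) := by
      field_simp
    rw [h5, div_le_div_iff₀ (by positivity) (by positivity)]
    nlinarith
  have s4 : 1 / ((m : ℝ) * (m + 1)) ≤ sin (π / (2 * (m * (m + 1)))) := by
    refine le_trans (le_of_eq ?_) s1
    field_simp
  have h6 : 0 ≤ 1 / ((m : ℝ) * (m + 1)) := by positivity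
  have h7 : 0 ≤ 2 / ((m : ℝ) + 1) := by positivity
  have h8 := mul_le_mul s2 s4 h6 (h7.trans s2)
  have h9 : 4 / ((m : ℝ) * (m + 1) ^ 2) = 2 * (2 / (m + 1) * (1 / (m * (m + 1)))) := by
    field_simp
    ring
  rw [h9]
  linarith

end

end Pool.Agent.Helper104.PCV
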