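import Mathlib.Analysis.SpecialFunctions.Trigonometric.Bounds
import Mathlib.Analysis.Convex.SpecificFunctions.Deriv
import Mathlib.Analysis.Convex.Jensen
import Mathlib.Analysis.SpecialFunctions.Complex.CircleAddChar
import Mathlib.Tactic

set_option autoImplicit false

/-!
A trigonometric kernel which is positive only near the odd points.
-/

namespace Pool.Agent.Helper104.PCV

open Finset Real

/-! ### The exponential -/

/-- `exp (π i t)`. -/
noncomputable def ee (t : ℝ) : ℂ := Complex.exp ((π * t : ℝ) * Complex.I)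

lemma ee_add (s t : ℝ) : ee (s + t) = ee s * ee t := by
  unfold ee
  rw [← Complex.exp_add]
  congr 1
  push_cast
  ring

lemma ee_zero : ee 0 = 1 := by simp [ee]

lemma norm_ee (t : ℝ) : ‖ee t‖ = 1 := Complex.norm_exp_ofReal_mul_I _

lemma ee_nat_mul (n : ℕ) (t : ℝ) : ee (n * t) = ee t ^ n := by
  induction n with
  | zero => simp [ee_zero]
  | succ n ih => rw [pow_succ, ← ih, ← ee_add]; congr 1; push_cast; ring

lemma ee_eq_one_iff (t : ℝ) : ee t = 1 ↔ ∃ z : ℤ, t = 2 * z := by
  unfold ee
  rw [Complex.exp_eq_one_iff]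
  constructor
  · rintro ⟨z, hz⟩
    refine ⟨z, ?_⟩
    have h1 : (((π * t : ℝ) : ℂ)) = ((z * (2 * π) : ℝ) : ℂ) := by
      apply mul_right_cancel₀ Complex.I_ne_zero
      rw [hz]
      push_cast
      ring
    have h2 : π * t = z * (2 * π) := by exact_mod_cast h1
    apply mul_left_cancel₀ pi_ne_zero
    linarith
  · rintro ⟨z, hz⟩
    refine ⟨z, ?_⟩
    rw [hz]
    push_cast
    ring

lemma ee_int (z : ℤ) : ee z = if Odd z then -1 else 1 := by
  split_ifs with h
  · obtain ⟨k, rfl⟩ := h
    have h1 : ((2 * k + 1 : ℤ) : ℝ) = 2 * k + 1 := by push_cast; ring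
    rw [h1, ee_add, (ee_eq_one_iff _).2 ⟨k, rfl⟩, one_mul]
    unfold ee
    rw [mul_one, Complex.exp_pi_mul_I]
  · rw [Int.not_odd_iff_even] at h
    obtain ⟨k, rfl⟩ := h
    rw [ee_eq_one_iff]
    exact ⟨k, by push_cast; ring⟩

lemma conj_ee (t : ℝ) : (starRingEnd ℂ) (ee t) = ee (-t) := by
  unfold ee
  rw [← Complex.exp_conj]
  congr 1
  simp

lemma cos_ee (t : ℝ) : ((Real.cos (π * t) : ℝ) : ℂ) = (ee t + ee (-t)) / 2 := by
  unfold ee
  rw [Complex.ofReal_cos, Complex.cos]
  congr 2
  congr 1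
  push_cast
  ring

lemma ee_sum {S : Type*} (s : Finset S) (f : S → ℝ) : ee (∑ x ∈ s, f x) = ∏ x ∈ s, ee (f x) := by
  classical
  induction s using Finset.induction_on with
  | empty => simp [ee_zero]
  | insert x s hx ih => rw [sum_insert hx, prod_insert hx, ee_add, ih]

/-! ### The sum of the cosines -/

lemma cos_pair {v w : ℝ} (hv : 0 ≤ v) (hw : 0 ≤ w) (h : v + w ≤ π) :
    cos v + cos w ≤ 2 * cos ((v + w) / 2) := by
  rw [cos_add_cos]
  have h1 : 0 ≤ cos ((v + w) / 2) := cos_nonneg_of_mem_Icc ⟨by linarith [pi_pos], by linarith⟩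
  nlinarith [cos_le_one ((v - w) / 2)]

lemma jensen_cos {S : Type*} [Fintype S] [Nonempty S] (v : S → ℝ) (h0 : ∀ x, 0 ≤ v x)
    (h1 : ∀ x, v x ≤ π / 2) :
    ∑ x, cos (v x) ≤ Fintype.card S * cos ((∑ x, v x) / Fintype.card S) := by
  have hm : (0 : ℝ) < Fintype.card S := by exact_mod_cast Fintype.card_pos
  have h2 := strictConcaveOn_cos_Icc.concaveOn.le_map_sum (t := (univ : Finset S))
    (w := fun _ => 1 / (Fintype.card S : ℝ)) (p := v) (fun _ _ => by positivity) (by
      rw [sum_const, card_univ, nsmul_eq_mul]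
      field_simp) (fun x _ => ⟨by linarith [h0 x, pi_pos], h1 x⟩)
  simp only [smul_eq_mul, ← mul_sum] at h2
  rw [one_div, inv_mul_le_iff₀ hm] at h2
  have h3 : (Fintype.card S : ℝ)⁻¹ * ∑ x, v x = (∑ x, v x) / Fintype.card S := by
    rw [div_eq_inv_mul]
  rw [h3] at h2
  exact h2

lemma cos_sum_eq {S : Type*} [Fintype S] [Nonempty S] (v : S → ℝ) (h0 : ∀ x, 0 ≤ v x)
    (hs : ∑ x, v x = π) :
    ∑ x, cos (v x) ≤ Fintype.card S * cos (π / Fintype.card S) := by
  classical
  by_cases h1 : ∀ x, v x ≤ π / 2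
  · have := jensen_cos v h0 h1
    rwa [hs] at this
  · push Not at h1
    obtain ⟨x, hx⟩ := h1
    by_cases h2 : ∃ y, y ≠ x
    · obtain ⟨y, hy⟩ := h2
      have hle : ∀ z, z ≠ x → v z + v x ≤ π := by
        intro z hz
        rw [← hs]
        have h3 := sum_le_sum_of_subset_of_nonneg (subset_univ ({z, x} : Finset S))
          (f := v) (fun i _ _ => h0 i)
        rwa [sum_pair hz] at h3
      let v' : S → ℝ := fun z => if z = x ∨ z = y then (v y + v x) / 2 else v z
      have hsplit : ∀ f : S → ℝ, ∑ z, f z = f x + f y + ∑ z ∈ (univ.erase x).erase y, f z := by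
        intro f
        rw [← add_sum_erase _ _ (mem_univ x),
          ← add_sum_erase _ _ (mem_erase.2 ⟨hy, mem_univ y⟩), add_assoc]
      have hv' : ∀ z ∈ (univ.erase x).erase y, v' z = v z := by
        intro z hz
        simp only [mem_erase] at hz
        simp only [v']
        rw [if_neg (by tauto)]
      have hvx : v' x = (v y + v x) / 2 := by simp [v']
      have hvy : v' y = (v y + v x) / 2 := by simp [v']
      have h4 := jensen_cos v' (fun z => by
        simp only [v']
        split_ifs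
        · linarith [h0 x, h0 y]
        · exact h0 z) (fun z => by
        simp only [v']
        split_ifs with h
        · linarith [hle y hy]
        · push Not at h
          linarith [hle z h.1])
      have h5 : ∑ z, v' z = π := by
        rw [hsplit, hvx, hvy, sum_congr rfl hv', ← hs, hsplit v]
        ring
      rw [h5] at h4
      refine le_trans ?_ h4
      have h6 : ∑ z ∈ (univ.erase x).erase y, cos (v' z) =
          ∑ z ∈ (univ.erase x).erase y, cos (v z) := sum_congr rfl fun z hz => by rw [hv' z hz]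
      rw [hsplit, hsplit (fun z => cos (v' z)), hvx, hvy, h6]
      have := cos_pair (h0 y) (h0 x) (hle y hy)
      linarith
    · push Not at h2
      have : Unique S := ⟨⟨x⟩, h2⟩
      rw [Fintype.sum_unique] at hs ⊢
      rw [hs, Fintype.card_unique]
      simp

lemma cos_sum_le {S : Type*} [Fintype S] [Nonempty S] (u : S → ℝ) (h0 : ∀ x, 0 ≤ u x)
    (h1 : ∀ x, u x ≤ 1) (hs : 1 ≤ ∑ x, u x) :
    ∑ x, cos (π * u x) ≤ Fintype.card S * cos (π / Fintype.card S) := by
  set s := ∑ x, u x with hs'
  have hpos : 0 < s := by linarith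
  have h2 := cos_sum_eq (fun x => π * (u x / s)) (fun x => by
    have := h0 x
    positivity) (by
      rw [← mul_sum, ← sum_div, ← hs', div_self hpos.ne', mul_one])
  refine le_trans (sum_le_sum fun x _ => ?_) h2
  apply cos_le_cos_of_nonneg_of_le_pi
  · have := h0 x
    positivity
  · nlinarith [h1 x, pi_pos]
  · apply mul_le_mul_of_nonneg_left _ pi_pos.le
    exact div_le_self (h0 x) hs

lemma exists_rep (t : ℝ) : ∃ z : ℤ, |t - 2 * z| ≤ 1 := by
  refine ⟨⌊(t + 1) / 2⌋, ?_⟩
  have h1 := Int.floor_le ((t + 1) / 2)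
  have h2 := Int.lt_floor_add_one ((t + 1) / 2)
  rw [abs_le]
  constructor <;> linarith

/-- If the sum of the cosines is large, the vector is close to an even vector. -/
lemma close_of_cos {S : Type*} [Fintype S] [Nonempty S] (u : S → ℝ)
    (h : Fintype.card S * cos (π / Fintype.card S) < ∑ x, cos (π * u x)) :
    ∃ z : S → ℤ, ∑ x, |u x - 2 * z x| < 1 := by
  choose z hz using fun x => exists_rep (u x)
  refine ⟨z, ?_⟩
  by_contra hcon
  push Not at hcon
  have h1 := cos_sum_le (fun x => |u x - 2 * z x|) (fun x => abs_nonneg _) hz hcon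
  have h2 : ∀ x, cos (π * |u x - 2 * z x|) = cos (π * u x) := by
    intro x
    have h3 : π * |u x - 2 * z x| = |π * (u x - 2 * z x)| := by
      rw [abs_mul, abs_of_pos pi_pos]
    rw [h3, cos_abs, mul_sub]
    have h4 : π * (2 * z x) = z x * (2 * π) := by ring
    rw [h4, cos_sub_int_mul_two_pi]
  simp only [h2] at h1
  linarith

end Pool.Agent.Helper104.PCV
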