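import Pool.Agent.Y227.RT.Bundle

set_option autoImplicit false

/-!
The weights of a semistable bundle of rank two are in the closed region.
-/

open Finset Polynomial

namespace Pool.Agent.Helper104.PCV

open Pool.Agent.Y227.SS Pool.Agent.Y227.RT

variable {K : Type*} [Field K] {n : ℕ}

/-- The key inequality. -/
lemma key_semi {β : Fin n → K} {P : Fin n → Matrix (Fin 2) (Fin 2) K} {w : Fin n → Fin 2 → ℝ}
    {e : Fin 2 → ℝ} (hP : ∀ j, (P j).det ≠ 0) (hsum : ∑ j, ∑ l, w j l = ∑ l, e l)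
    (hst : Semistable β P w e) (c : Fin n → Fin 2) (M : Fin n → ℤ) (c' : Fin 2) (M' : ℤ)
    (h1 : ∀ j, w j (c j) - w j (c j).rev ≤ M j) (h2 : -(e c' - e c'.rev) ≤ M')
    (h3 : ∃ H : ℤ, (∑ j, M j) + M' = 1 - 2 * H) :
    1 ≤ ∑ j, (M j - (w j (c j) - w j (c j).rev)) + (M' + (e c' - e c'.rev)) := by
  by_contra hle
  push Not at hle
  obtain ⟨H, hH⟩ := h3
  set k : Fin n → ℕ := fun j => (M j).natAbs with hk
  set h : ℤ := (∑ j, (k j : ℤ)) - H with hh
  have hkM : ∀ j, 0 ≤ (k j : ℤ) + M j := fun j => by simp only [hk]; omega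
  let N : Fin 2 → ℕ := fun l => if l = c' then (h + 1).toNat else (h - M' + 1).toNat
  let κ : Fin n → Fin 2 → ℕ := fun j l => if l = c j then k j else ((k j : ℤ) + M j).toNat
  have hrev : ∀ a : Fin 2, a.rev ≠ a := by decide
  have hor : ∀ a b : Fin 2, b = a ∨ b = a.rev := by decide
  have hsum2 : ∀ {A : Type} [AddCommMonoid A] (f : Fin 2 → A) (a : Fin 2),
      ∑ l, f l = f a + f a.rev := by
    intro A _ f a
    fin_cases a
    · simp [Fin.sum_univ_two]
    · simp [Fin.sum_univ_two, add_comm]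
  obtain ⟨U, hU0, hUd, hUdvd⟩ := exists_section β P N κ (by
    have e1 : ((∑ j, ∑ l, κ j l : ℕ) : ℤ) = ∑ j, (2 * (k j : ℤ) + M j) := by
      push_cast
      refine sum_congr rfl fun j _ => ?_
      rw [hsum2 _ (c j)]
      simp only [κ, if_true, if_neg (hrev (c j))]
      rw [Int.toNat_of_nonneg (hkM j)]
      ring
    have e2 : ((∑ l, N l : ℕ) : ℤ) = ((h + 1).toNat : ℤ) + ((h - M' + 1).toNat : ℤ) := by
      push_cast
      rw [hsum2 _ c']
      simp only [N, if_true, if_neg (hrev c')]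
    have e3 := Int.self_le_toNat (h + 1)
    have e4 := Int.self_le_toNat (h - M' + 1)
    have e5 : ((∑ j, ∑ l, κ j l : ℕ) : ℤ) < ((∑ l, N l : ℕ) : ℤ) := by
      rw [e1, e2, sum_add_distrib, ← mul_sum]
      rw [hh] at e3 e4 ⊢
      linarith
    exact_mod_cast e5)
  -- apply stability
  let UM : Matrix (Fin 1) (Fin 2) K[X] := Matrix.of fun _ i => U i
  have hmnr : ∀ J : Fin 1 → Fin 2, mnr UM J = U (J 0) := by
    intro J
    simp [mnr, UM]
  have hmnr2 : ∀ (j : Fin n) (J : Fin 1 → Fin 2),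
      mnr (UM * (P j).map C) J = ∑ i, U i * C (P j i (J 0)) := by
    intro j J
    simp [mnr, UM, Matrix.mul_apply]
  obtain ⟨l₀, hl₀⟩ : ∃ l, U l ≠ 0 := by
    by_contra hcon
    push Not at hcon
    exact hU0 (funext hcon)
  obtain ⟨J, hJ, hlt⟩ := hst 1 UM ⟨fun _ => l₀, by rw [hmnr]; exact hl₀⟩
    (fun j => w j (c j) + k j) (by
      intro j J hJ
      rw [hmnr2] at hJ ⊢
      have hd := hUdvd j (J 0)
      have hm := (le_rootMultiplicity_iff hJ).mpr hd
      rw [Fin.sum_univ_one]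
      rcases hor (c j) (J 0) with h' | h'
      · have : κ j (J 0) = k j := by simp only [κ, if_pos h']
        rw [this] at hm
        have hm' : (k j : ℝ) ≤ (rootMultiplicity (β j) (∑ i, U i * C (P j i (J 0))) : ℝ) := by
          exact_mod_cast hm
        rw [h'] at hm' ⊢
        linarith
      · have : κ j (J 0) = ((k j : ℤ) + M j).toNat := by
          simp only [κ]; rw [if_neg]; rw [h']; exact hrev _
        rw [this] at hm
        have hm2 : ((k j : ℤ) + M j) ≤
            (rootMultiplicity (β j) (∑ i, U i * C (P j i (J 0))) : ℤ) :=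
          (Int.toNat_le.mp hm)
        have hm' : (k j : ℝ) + M j ≤
            (rootMultiplicity (β j) (∑ i, U i * C (P j i (J 0))) : ℝ) := by exact_mod_cast hm2
        have := h1 j
        rw [h'] at hm' ⊢
        linarith)
  rw [hmnr] at hJ hlt
  rw [Fin.sum_univ_one] at hlt
  have hdeg : ((U (J 0)).natDegree : ℝ) + e (J 0) ≤ h + e c' := by
    have hmem := mem_degreeLT.mp (hUd (J 0))
    have hnd : ((U (J 0)).natDegree : ℕ) < N (J 0) := (natDegree_lt_iff_degree_lt hJ).mpr hmem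
    rcases hor c' (J 0) with h' | h'
    · have hN : N (J 0) = (h + 1).toNat := by simp only [N, if_pos h']
      rw [hN] at hnd
      have h5 : ((U (J 0)).natDegree : ℤ) < h + 1 := Int.lt_toNat.mp hnd
      have h6 : ((U (J 0)).natDegree : ℝ) ≤ h := by exact_mod_cast Int.lt_add_one_iff.mp h5
      have h7 : e (J 0) = e c' := by rw [h']
      rw [h7]
      linarith
    · have hN : N (J 0) = (h - M' + 1).toNat := by
        simp only [N]; rw [if_neg]; rw [h']; exact hrev _
      rw [hN] at hnd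
      have h5 : ((U (J 0)).natDegree : ℤ) < h - M' + 1 := Int.lt_toNat.mp hnd
      have h6 : ((U (J 0)).natDegree : ℝ) ≤ h - M' := by exact_mod_cast Int.lt_add_one_iff.mp h5
      have h7 : e (J 0) = e c'.rev := by rw [h']
      rw [h7]
      linarith
  have hlt2 := hlt.trans hdeg
  have hsum' : ∑ j, (w j (c j) + w j (c j).rev) = e c' + e c'.rev := by
    rw [← hsum2 e c', ← hsum]
    exact sum_congr rfl fun j _ => (hsum2 (w j) (c j)).symm
  have hHR : (∑ j, (M j : ℝ)) + M' = 1 - 2 * H := by exact_mod_cast hH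
  have hhR : (h : ℝ) = (∑ j, (k j : ℝ)) - H := by rw [hh]; push_cast; ring
  rw [sum_add_distrib] at hlt2 hsum'
  rw [sum_sub_distrib, sum_sub_distrib] at hle
  linarith

/-- The weights of semistable bundles are in the closed region. -/
theorem semistable_not_lo {x : Fin n → Fin 2 → ℝ} {y : Fin 2 → ℝ} (h : SemistableWeights K x y) :
    ¬ Lo (zz x y) := by
  obtain ⟨β, P, w, e, -, hP, -, hw, ⟨σe, he⟩, hsum, hst⟩ := h
  choose σ hσ using hw
  choose m hm using hσ
  choose me hme using he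
  rintro ⟨μ, ⟨E, hE⟩, hle⟩
  -- local data at one point
  have hloc : ∀ (σ : Equiv.Perm (Fin 2)) (x w : Fin 2 → ℝ) (m : Fin 2 → ℤ) (μ : ℤ),
      (∀ l, w l = x (σ l) + m l) → ∃ (c : Fin 2) (M : ℤ), w c - w c.rev ≤ M ∧
        M - (w c - w c.rev) = |x 0 - x 1 - μ| ∧ ∃ a : ℤ, M = μ + m 0 + m 1 + 2 * a := by
    intro σ x w m μ hwx
    have hσ : σ 0 = 0 ∧ σ 1 = 1 ∨ σ 0 = 1 ∧ σ 1 = 0 := by
      have h1 : σ 0 ≠ σ 1 := fun h => by simpa using σ.injective h
      generalize σ 0 = a at h1 ⊢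
      generalize σ 1 = b at h1 ⊢
      fin_cases a <;> fin_cases b <;> simp_all
    have h0 := hwx 0
    have h1 := hwx 1
    have r0 : (0 : Fin 2).rev = 1 := rfl
    have r1 : (1 : Fin 2).rev = 0 := rfl
    rcases hσ with ⟨ha, hb⟩ | ⟨ha, hb⟩ <;> rw [ha] at h0 <;> rw [hb] at h1
    · rcases le_total (x 0 - x 1) μ with hle' | hle'
      · refine ⟨0, μ + m 0 - m 1, ?_, ?_, -m 1, by ring⟩
        · rw [r0, h0, h1]; push_cast; linarith
        · rw [r0, h0, h1, abs_of_nonpos (by linarith)]; push_cast; ring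
      · refine ⟨1, -μ - m 0 + m 1, ?_, ?_, -μ - m 0, by ring⟩
        · rw [r1, h0, h1]; push_cast; linarith
        · rw [r1, h0, h1, abs_of_nonneg (by linarith)]; push_cast; ring
    · rcases le_total (x 0 - x 1) μ with hle' | hle'
      · refine ⟨1, μ + m 1 - m 0, ?_, ?_, -m 0, by ring⟩
        · rw [r1, h0, h1]; push_cast; linarith
        · rw [r1, h0, h1, abs_of_nonpos (by linarith)]; push_cast; ring
      · refine ⟨0, -μ - m 1 + m 0, ?_, ?_, -μ - m 1, by ring⟩
        · rw [r0, h0, h1]; push_cast; linarith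
        · rw [r0, h0, h1, abs_of_nonneg (by linarith)]; push_cast; ring
  choose c M hM1 hM2 a hMa using fun j => hloc (σ j) (x j) (w j) (m j) (μ (some j)) (hm j)
  obtain ⟨c1, M1, hc1, hc2, a1, ha1⟩ := hloc σe y e me (μ none) hme
  -- at infinity we need the opposite sign
  have hinf : ∃ (c' : Fin 2) (M' : ℤ), -(e c' - e c'.rev) ≤ M' ∧
      M' + (e c' - e c'.rev) = |y 0 - y 1 - μ none| ∧ ∃ a : ℤ, M' = μ none + me 0 + me 1 + 2 * a := by
    refine ⟨c1.rev, M1, ?_, ?_, a1, ha1⟩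
    · rw [Fin.rev_rev]; linarith
    · rw [Fin.rev_rev, ← hc2]; ring
  obtain ⟨c', M', h2', h2'', a', ha'⟩ := hinf
  -- parity
  have hwx : ∑ j, ∑ l, w j l = ∑ j, ∑ l, x j l + ∑ j, ((m j 0 : ℝ) + m j 1) := by
    rw [← sum_add_distrib]
    refine sum_congr rfl fun j _ => ?_
    have h1 : ∑ l, w j l = ∑ l, x j (σ j l) + ∑ l, (m j l : ℝ) := by
      rw [← sum_add_distrib]
      exact sum_congr rfl fun l _ => hm j l
    rw [h1, Equiv.sum_comp (σ j) (x j), Fin.sum_univ_two (fun l => (m j l : ℝ))]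
  have hey : ∑ l, e l = ∑ l, y l + ((me 0 : ℝ) + me 1) := by
    have h1 : ∑ l, e l = ∑ l, y (σe l) + ∑ l, (me l : ℝ) := by
      rw [← sum_add_distrib]
      exact sum_congr rfl fun l _ => hme l
    rw [h1, Equiv.sum_comp σe y, Fin.sum_univ_two (fun l => (me l : ℝ))]
  have hpar : ∃ H : ℤ, (∑ j, M j) + M' = 1 - 2 * H := by
    -- the parity relation
    have e1 : (2 * zz x y none - ∑ i, zz x y (some i)) = ∑ j, ∑ l, x j l - ∑ l, y l := by
      rw [Fintype.sum_option]
      simp only [zz, Fin.sum_univ_two, sum_sub_distrib, sum_add_distrib]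
      ring
    rw [e1] at hE
    have e2 : ((∑ i, μ i : ℤ) : ℝ) + (((me 0 + me 1 - ∑ j, (m j 0 + m j 1) : ℤ)) : ℝ) =
        ((2 * E + 1 : ℤ) : ℝ) := by
      push_cast at hE ⊢
      linarith
    have e3 : (∑ i, μ i) + (me 0 + me 1 - ∑ j, (m j 0 + m j 1)) = 2 * E + 1 := by
      exact_mod_cast e2
    rw [Fintype.sum_option] at e3
    have e4 : ∑ j, M j = ∑ j, μ (some j) + ∑ j, (m j 0 + m j 1) + 2 * ∑ j, a j := by
      rw [mul_sum, ← sum_add_distrib, ← sum_add_distrib]
      exact sum_congr rfl fun j _ => by rw [hMa j]; ring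
    refine ⟨-(E + ∑ j, (m j 0 + m j 1) + ∑ j, a j + a'), ?_⟩
    rw [e4, ha']
    linarith
  have key := key_semi hP hsum hst c M c' M' hM1 h2' hpar
  have hle' : ∑ j, ((M j : ℝ) - (w j (c j) - w j (c j).rev)) + (M' + (e c' - e c'.rev)) < 1 := by
    refine lt_of_eq_of_lt ?_ hle
    rw [Fintype.sum_option, add_comm, h2'']
    congr 1
    exact sum_congr rfl fun j _ => hM2 j
  linarith

end Pool.Agent.Helper104.PCV
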