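import Pool.Agent.Helper104.PCV.Kernel

set_option autoImplicit false

/-!
Sums of a trigonometric kernel over the multiples of a point.
-/

namespace Pool.Agent.Helper104.PCV

open Finset Real

section kernel

/-- The coefficients. -/
noncomputable def cc (m : ℕ) (i : ℕ) : ℝ := sin (π * (i + 1) / (m + 1))

lemma cc_nonneg {m i : ℕ} (h : i < m) : 0 ≤ cc m i := by
  unfold cc
  have hm : (0 : ℝ) < m + 1 := by positivity
  apply sin_nonneg_of_nonneg_of_le_pi
  · positivity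
  · rw [div_le_iff₀ hm]
    have h1 : (i : ℝ) + 1 ≤ m := by exact_mod_cast h
    nlinarith [pi_pos]

/-- The value of the Fourier coefficient. -/
noncomputable def kap (m : ℕ) (s : ℤ) : ℝ :=
  ∑ p : Fin m × Fin m, if s + p.1 - p.2 = 0 then cc m p.1 * cc m p.2 else 0

/-- The norm. -/
noncomputable def nrm (m : ℕ) : ℝ := ∑ i : Fin m, cc m i ^ 2

lemma kap_zero (m : ℕ) : kap m 0 = nrm m := by
  unfold kap nrm
  rw [Fintype.sum_prod_type]
  refine sum_congr rfl fun i _ => ?_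
  rw [sum_eq_single i]
  · rw [if_pos (by ring)]
    ring
  · intro j _ hj
    rw [if_neg]
    intro h
    apply hj
    apply Fin.ext
    have : (i : ℤ) = j := by linarith
    exact_mod_cast this.symm
  · intro h
    exact absurd (mem_univ _) h

lemma kap_one (m : ℕ) : kap m 1 = ∑ i : Fin m, cc m i * sin (π * (i + 2) / (m + 1)) := by
  unfold kap
  rw [Fintype.sum_prod_type]
  refine sum_congr rfl fun i _ => ?_
  by_cases hi : (i : ℕ) + 1 < m
  · rw [sum_eq_single (⟨i + 1, hi⟩ : Fin m)]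
    · rw [if_pos (by push_cast; ring)]
      congr 1
      unfold cc
      congr 1
      push_cast
      ring
    · intro j _ hj
      rw [if_neg]
      intro h
      apply hj
      apply Fin.ext
      have : (i : ℤ) + 1 = j := by linarith
      exact_mod_cast this.symm
    · intro h
      exact absurd (mem_univ _) h
  · have hi' : (i : ℕ) + 1 = m := by omega
    have h1 : sin (π * (i + 2) / (m + 1)) = 0 := by
      have h2 : π * ((i : ℝ) + 2) / (m + 1) = π := by
        have h3 : (m : ℝ) = i + 1 := by exact_mod_cast hi'.symm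
        rw [h3]
        field_simp
        ring
      rw [h2, sin_pi]
    rw [h1, mul_zero]
    apply sum_eq_zero
    intro j _
    rw [if_neg]
    intro h
    have h2 : (i : ℤ) + 1 = j := by linarith
    have h3 : (i : ℕ) + 1 = j := by exact_mod_cast h2
    omega

lemma kap_neg (m : ℕ) (s : ℤ) : kap m (-s) = kap m s := by
  unfold kap
  rw [← Equiv.sum_comp (Equiv.prodComm (Fin m) (Fin m))]
  refine sum_congr rfl fun p _ => ?_
  simp only [Equiv.prodComm_apply, Prod.fst_swap, Prod.snd_swap]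
  have h1 : (-s + (p.2 : ℤ) - p.1 = 0) ↔ (s + (p.1 : ℤ) - p.2 = 0) := by omega
  rw [if_congr h1 rfl rfl]
  congr 1
  ring

lemma kap_neg_one (m : ℕ) : kap m (-1) = ∑ i : Fin m, cc m i * sin (π * i / (m + 1)) := by
  unfold kap
  rw [Fintype.sum_prod_type]
  refine sum_congr rfl fun i _ => ?_
  by_cases hi : 0 < (i : ℕ)
  · rw [sum_eq_single (⟨i - 1, by omega⟩ : Fin m)]
    · have h1 : (((i : ℕ) - 1 : ℕ) : ℤ) = i - 1 := by omega
      have h2 : (((i : ℕ) - 1 : ℕ) : ℝ) = i - 1 := by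
        have := congrArg (fun z : ℤ => (z : ℝ)) h1
        push_cast at this
        exact this
      rw [if_pos (by rw [h1]; ring)]
      congr 1
      unfold cc
      congr 1
      rw [h2]
      ring
    · intro j _ hj
      rw [if_neg]
      intro h
      apply hj
      apply Fin.ext
      change (j : ℕ) = i - 1
      have h' : (-1 : ℤ) + (i : ℕ) - (j : ℕ) = 0 := h
      omega
    · intro h
      exact absurd (mem_univ _) h
  · have hi' : (i : ℕ) = 0 := by omega
    rw [hi']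
    have h1 : sin (π * ((0 : ℕ) : ℝ) / (m + 1)) = 0 := by simp
    rw [h1, mul_zero]
    apply sum_eq_zero
    intro j _
    rw [if_neg]
    intro h
    have := j.2
    push_cast at h
    omega

lemma kap_one_eq (m : ℕ) : kap m 1 = cos (π / (m + 1)) * nrm m := by
  have h1 : kap m 1 + kap m (-1) = 2 * cos (π / (m + 1)) * nrm m := by
    rw [kap_one, kap_neg_one, nrm, mul_sum, ← sum_add_distrib]
    refine sum_congr rfl fun i _ => ?_
    have h2 : sin (π * ((i : ℝ) + 2) / (m + 1)) + sin (π * (i : ℝ) / (m + 1)) =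
        2 * cos (π / (m + 1)) * cc m i := by
      unfold cc
      have e1 : π * ((i : ℝ) + 2) / (m + 1) = π * (i + 1) / (m + 1) + π / (m + 1) := by ring
      have e2 : π * (i : ℝ) / (m + 1) = π * (i + 1) / (m + 1) - π / (m + 1) := by ring
      rw [e1, e2, sin_add, sin_sub]
      ring
    linear_combination (cc m i) * h2
  rw [kap_neg] at h1
  linarith

lemma nrm_pos {m : ℕ} (hm : 0 < m) : 0 < nrm m := by
  unfold nrm
  apply sum_pos'
  · intro i _
    positivity
  · refine ⟨⟨0, hm⟩, mem_univ _, ?_⟩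
    apply pow_pos
    unfold cc
    have hm' : (0 : ℝ) < m := by exact_mod_cast hm
    apply sin_pos_of_pos_of_lt_pi
    · simp only [CharP.cast_eq_zero, zero_add, mul_one]
      positivity
    · simp only [CharP.cast_eq_zero, zero_add, mul_one]
      rw [div_lt_iff₀ (by positivity)]
      nlinarith [pi_pos]

/-- The kernel in one variable. -/
noncomputable def FF (m : ℕ) (t : ℝ) : ℝ := ‖∑ i : Fin m, (cc m i : ℂ) * ee (i * t)‖ ^ 2

lemma FF_nonneg (m : ℕ) (t : ℝ) : 0 ≤ FF m t := by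
  unfold FF
  positivity

lemma FF_eq (m : ℕ) (t : ℝ) : ((FF m t : ℝ) : ℂ) =
    ∑ p : Fin m × Fin m, ((cc m p.1 * cc m p.2 : ℝ) : ℂ) * ee (((p.1 : ℝ) - p.2) * t) := by
  unfold FF
  rw [← Complex.normSq_eq_norm_sq, ← Complex.mul_conj, map_sum, sum_mul_sum,
    Fintype.sum_prod_type]
  refine sum_congr rfl fun i _ => sum_congr rfl fun j _ => ?_
  rw [map_mul, Complex.conj_ofReal, conj_ee]
  have h1 : ee (((i : ℝ) - j) * t) = ee (i * t) * ee (-(j * t)) := by
    rw [← ee_add]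
    congr 1
    ring
  rw [h1]
  push_cast
  ring

end kernel

section sums

variable {S : Type*} [Fintype S] [DecidableEq S]

/-- The parity condition. -/
def WW (I : ℤ) (a : ℤ) (μ : S → Fin 2) : Prop := Odd (a * I + ∑ x, ((μ x : ℕ) : ℤ))

instance (I a : ℤ) (μ : S → Fin 2) : Decidable (WW I a μ) := by
  unfold WW
  infer_instance

/-- The twisted exponential sum. -/
noncomputable def TT (θ : S → ℝ) (I : ℤ) (𝒜 : Finset ℤ) (j : S → ℤ) : ℂ :=
  ∑ a ∈ 𝒜, ∑ μ : S → Fin 2, (if WW I a μ then 1 else 0) *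
    ee (∑ x, j x * (a * θ x - (μ x : ℕ)))

lemma ite_WW (I a : ℤ) (μ : S → Fin 2) : (if WW I a μ then (1 : ℂ) else 0) =
    (1 - ee (a * I) * ∏ x, ee ((μ x : ℕ) : ℝ)) / 2 := by
  have h1 : ee (a * I) * ∏ x, ee ((μ x : ℕ) : ℝ) =
      ee ((a * I + ∑ x, ((μ x : ℕ) : ℤ) : ℤ) : ℝ) := by
    rw [← ee_sum, ← ee_add]
    push_cast
    rfl
  rw [h1, ee_int]
  unfold WW
  split_ifs <;> norm_num

lemma sum_prod_ee (k : S → ℝ) : ∑ μ : S → Fin 2, ∏ x, ee (k x * (μ x : ℕ)) =
    ∏ x, (1 + ee (k x)) := by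
  have h1 := Finset.prod_univ_sum (fun _ : S => (univ : Finset (Fin 2)))
    (fun x (b : Fin 2) => ee (k x * (b : ℕ)))
  rw [Fintype.piFinset_univ] at h1
  rw [← h1]
  refine prod_congr rfl fun x _ => ?_
  rw [Fin.sum_univ_two]
  simp [ee_zero]

lemma TT_formula (θ : S → ℝ) (I : ℤ) (𝒜 : Finset ℤ) (j : S → ℤ) :
    TT θ I 𝒜 j = (∏ x, (1 + ee (-j x))) * (∑ a ∈ 𝒜, ee (a * ∑ x, j x * θ x)) / 2 -
      (∏ x, (1 + ee (1 - j x))) * (∑ a ∈ 𝒜, ee (a * (∑ x, j x * θ x + I))) / 2 := by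
  unfold TT
  rw [mul_sum, mul_sum, sum_div, sum_div, ← sum_sub_distrib]
  refine sum_congr rfl fun a _ => ?_
  have h0 : ∀ μ : S → Fin 2, ee (∑ x, j x * (a * θ x - (μ x : ℕ))) =
      ee (a * ∑ x, j x * θ x) * ∏ x, ee (-j x * (μ x : ℕ)) := by
    intro μ
    rw [← ee_sum, ← ee_add]
    congr 1
    rw [mul_sum, ← sum_add_distrib]
    exact sum_congr rfl fun x _ => by ring
  have h1 : ∀ μ : S → Fin 2, (if WW I a μ then (1 : ℂ) else 0) *
      ee (∑ x, j x * (a * θ x - (μ x : ℕ))) =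
      (∏ x, ee (-j x * (μ x : ℕ))) * (ee (a * ∑ x, j x * θ x) / 2) -
        (∏ x, ee ((1 - j x) * (μ x : ℕ))) * (ee (a * (∑ x, j x * θ x + I)) / 2) := by
    intro μ
    rw [h0, ite_WW]
    have h2 : ∏ x, ee ((1 - j x) * ((μ x : ℕ) : ℝ)) =
        (∏ x, ee ((μ x : ℕ) : ℝ)) * ∏ x, ee (-j x * ((μ x : ℕ) : ℝ)) := by
      rw [← prod_mul_distrib]
      refine prod_congr rfl fun x _ => ?_
      rw [← ee_add]
      congr 1
      ring
    have h3 : ee (a * (∑ x, j x * θ x + I)) = ee (a * ∑ x, j x * θ x) * ee (a * I) := by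
      rw [← ee_add]
      congr 1
      ring
    rw [h2, h3]
    ring
  rw [sum_congr rfl fun μ _ => h1 μ, sum_sub_distrib, ← sum_mul, ← sum_mul, sum_prod_ee,
    sum_prod_ee]
  ring

lemma TT_zero [Nonempty S] (θ : S → ℝ) (I : ℤ) (𝒜 : Finset ℤ) :
    TT θ I 𝒜 0 = 2 ^ Fintype.card S * 𝒜.card / 2 := by
  rw [TT_formula]
  have h1 : ee (1 - ((0 : S → ℤ) (Classical.arbitrary S) : ℝ)) = -1 := by
    have := ee_int 1
    simp only [Int.cast_one, odd_one, if_true] at this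
    simpa using this
  have h2 : ∏ x : S, (1 + ee (1 - ((0 : S → ℤ) x : ℝ))) = 0 :=
    prod_eq_zero (mem_univ (Classical.arbitrary S)) (by rw [h1]; norm_num)
  rw [h2]
  simp [ee_zero, one_add_one_eq_two, prod_const, card_univ]

/-- Bound of the exponential sum for a nonzero frequency. -/
lemma TT_le [Nonempty S] (θ : S → ℝ) (I : ℤ) (𝒜 : Finset ℤ) (j : S → ℤ) {B : ℝ} (hB : 0 ≤ B)
    (h0 : (∀ x, Even (j x)) → ‖∑ a ∈ 𝒜, ee (a * ∑ x, j x * θ x)‖ ≤ B)
    (h1 : (∀ x, Odd (j x)) → ‖∑ a ∈ 𝒜, ee (a * (∑ x, j x * θ x + I))‖ ≤ B) :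
    ‖TT θ I 𝒜 j‖ ≤ 2 ^ Fintype.card S * B / 2 := by
  rw [TT_formula]
  have hz0 : ¬ (∀ x, Even (j x)) → ∏ x, (1 + ee (-j x)) = 0 := by
    intro h
    push Not at h
    obtain ⟨x, hx⟩ := h
    apply prod_eq_zero (mem_univ x)
    have h2 := ee_int (-j x)
    rw [if_pos ((Int.not_even_iff_odd.1 hx).neg)] at h2
    push_cast at h2
    rw [h2]
    norm_num
  have hz1 : ¬ (∀ x, Odd (j x)) → ∏ x, (1 + ee (1 - j x)) = 0 := by
    intro h
    push Not at h
    obtain ⟨x, hx⟩ := h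
    apply prod_eq_zero (mem_univ x)
    have h2 := ee_int (1 - j x)
    rw [if_pos (odd_one.sub_even (Int.not_odd_iff_even.1 hx))] at h2
    push_cast at h2
    rw [h2]
    norm_num
  have hnorm : ∀ k : S → ℝ, ‖∏ x, (1 + ee (k x))‖ ≤ 2 ^ Fintype.card S := by
    intro k
    rw [norm_prod]
    calc ∏ x, ‖1 + ee (k x)‖ ≤ ∏ _x : S, (2 : ℝ) := by
          refine prod_le_prod (fun _ _ => norm_nonneg _) fun x _ => ?_
          refine (norm_add_le _ _).trans ?_
          rw [norm_one, norm_ee]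
          norm_num
      _ = 2 ^ Fintype.card S := by rw [prod_const, card_univ]
  have hpow : (0 : ℝ) ≤ 2 ^ Fintype.card S := by positivity
  by_cases he : ∀ x, Even (j x)
  · have hno : ¬ ∀ x, Odd (j x) := by
      intro h
      have x := Classical.arbitrary S
      exact Int.not_even_iff_odd.2 (h x) (he x)
    rw [hz1 hno, zero_mul, zero_div, sub_zero, norm_div, norm_mul, Complex.norm_ofNat]
    have := mul_le_mul (hnorm fun x => -j x) (h0 he) (norm_nonneg _) hpow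
    linarith
  · rw [hz0 he, zero_mul, zero_div, zero_sub, norm_neg, norm_div, norm_mul, Complex.norm_ofNat]
    by_cases ho : ∀ x, Odd (j x)
    · have := mul_le_mul (hnorm fun x => 1 - j x) (h1 ho) (norm_nonneg _) hpow
      linarith
    · rw [hz1 ho, norm_zero, zero_mul]
      have := mul_nonneg hpow hB
      linarith

/-- The sum with the kernel. -/
noncomputable def EE (θ : S → ℝ) (I : ℤ) (𝒜 : Finset ℤ) (m : ℕ) (s : S → ℤ) : ℂ :=
  ∑ a ∈ 𝒜, ∑ μ : S → Fin 2, (if WW I a μ then 1 else 0) *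
    ee (∑ x, s x * (a * θ x - (μ x : ℕ))) * ∏ x, ((FF m (a * θ x - (μ x : ℕ)) : ℝ) : ℂ)

lemma EE_eq (θ : S → ℝ) (I : ℤ) (𝒜 : Finset ℤ) (m : ℕ) (s : S → ℤ) :
    EE θ I 𝒜 m s = ∑ r : S → Fin m × Fin m,
      ((∏ x, (cc m (r x).1 * cc m (r x).2) : ℝ) : ℂ) *
        TT θ I 𝒜 (fun x => s x + (r x).1 - (r x).2) := by
  unfold EE TT
  simp only [mul_sum]
  symm
  rw [sum_comm]
  refine sum_congr rfl fun a _ => ?_
  rw [sum_comm]
  refine sum_congr rfl fun μ _ => ?_
  symm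
  have h1 := Finset.prod_univ_sum (fun _ : S => (univ : Finset (Fin m × Fin m)))
    (fun x (p : Fin m × Fin m) => ((cc m p.1 * cc m p.2 : ℝ) : ℂ) *
      ee (((p.1 : ℝ) - p.2) * (a * θ x - (μ x : ℕ))))
  rw [Fintype.piFinset_univ] at h1
  have h2 : ∏ x, ((FF m (a * θ x - (μ x : ℕ)) : ℝ) : ℂ) =
      ∏ x, ∑ p : Fin m × Fin m, ((cc m p.1 * cc m p.2 : ℝ) : ℂ) *
        ee (((p.1 : ℝ) - p.2) * (a * θ x - (μ x : ℕ))) :=
    prod_congr rfl fun x _ => FF_eq m _
  rw [h2, h1, mul_sum]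
  refine sum_congr rfl fun r _ => ?_
  rw [prod_mul_distrib, ← ee_sum]
  have h3 : ee (∑ x, ((s x + (r x).1 - (r x).2 : ℤ) : ℝ) * (a * θ x - (μ x : ℕ))) =
      ee (∑ x, s x * (a * θ x - (μ x : ℕ))) *
        ee (∑ x, (((r x).1 : ℝ) - (r x).2) * (a * θ x - (μ x : ℕ))) := by
    rw [← ee_add, ← sum_add_distrib]
    congr 1
    refine sum_congr rfl fun x _ => ?_
    push_cast
    ring
  rw [h3]
  push_cast
  ring

lemma EE_main [Nonempty S] (θ : S → ℝ) (I : ℤ) (𝒜 : Finset ℤ) (m : ℕ) (s : S → ℤ) {B : ℝ}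
    (hB : ∀ j : S → ℤ, j ≠ 0 → (∀ x, |j x - s x| < m) → ‖TT θ I 𝒜 j‖ ≤ B) (hB0 : 0 ≤ B) :
    ‖EE θ I 𝒜 m s - TT θ I 𝒜 0 * ((∏ x, kap m (s x) : ℝ) : ℂ)‖ ≤
      B * (∑ i : Fin m, cc m i) ^ (2 * Fintype.card S) := by
  classical
  have hk : ((∏ x, kap m (s x) : ℝ) : ℂ) = ∑ r : S → Fin m × Fin m,
      if (fun x => s x + ((r x).1 : ℤ) - ((r x).2 : ℤ)) = 0 then
        ((∏ x, (cc m (r x).1 * cc m (r x).2) : ℝ) : ℂ) else 0 := by
    have h1 := Finset.prod_univ_sum (fun _ : S => (univ : Finset (Fin m × Fin m)))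
      (fun x (p : Fin m × Fin m) => if s x + (p.1 : ℤ) - p.2 = 0 then cc m p.1 * cc m p.2 else 0)
    rw [Fintype.piFinset_univ] at h1
    unfold kap
    rw [h1, Complex.ofReal_sum]
    refine sum_congr rfl fun r _ => ?_
    split_ifs with h
    · congr 1
      refine prod_congr rfl fun x _ => ?_
      have hx : s x + ((r x).1 : ℤ) - ((r x).2 : ℤ) = 0 := congrFun h x
      rw [if_pos hx]
    · have h2 : ∃ x, ¬ (s x + ((r x).1 : ℤ) - ((r x).2 : ℤ) = 0) := by
        by_contra hcon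
        push Not at hcon
        exact h (funext hcon)
      obtain ⟨x, hx⟩ := h2
      rw [prod_eq_zero (mem_univ x) (if_neg hx)]
      simp
  rw [EE_eq, hk, mul_sum, ← sum_sub_distrib]
  refine (norm_sum_le _ _).trans ?_
  have hnn : ∀ (r : S → Fin m × Fin m), 0 ≤ ∏ x, (cc m (r x).1 * cc m (r x).2) := fun r =>
    prod_nonneg fun x _ => mul_nonneg (cc_nonneg (r x).1.2) (cc_nonneg (r x).2.2)
  have hterm : ∀ r : S → Fin m × Fin m,
      ‖((∏ x, (cc m (r x).1 * cc m (r x).2) : ℝ) : ℂ) *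
        TT θ I 𝒜 (fun x => s x + (r x).1 - (r x).2) - TT θ I 𝒜 0 *
          (if (fun x => s x + ((r x).1 : ℤ) - ((r x).2 : ℤ)) = 0 then
        ((∏ x, (cc m (r x).1 * cc m (r x).2) : ℝ) : ℂ) else 0)‖ ≤
        B * ∏ x, (cc m (r x).1 * cc m (r x).2) := by
    intro r
    split_ifs with h
    · rw [h, mul_comm, sub_self, norm_zero]
      exact mul_nonneg hB0 (hnn r)
    · rw [mul_zero, sub_zero, norm_mul, Complex.norm_real, Real.norm_of_nonneg (hnn r), mul_comm]
      refine mul_le_mul_of_nonneg_right (hB _ h fun x => ?_) (hnn r)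
      have h1 := (r x).1.2
      have h2 := (r x).2.2
      rw [abs_lt]
      constructor <;> omega
  refine (sum_le_sum fun r _ => hterm r).trans ?_
  rw [← mul_sum]
  refine mul_le_mul_of_nonneg_left (le_of_eq ?_) hB0
  have h1 := Finset.prod_univ_sum (fun _ : S => (univ : Finset (Fin m × Fin m)))
    (fun _ (p : Fin m × Fin m) => cc m p.1 * cc m p.2)
  rw [Fintype.piFinset_univ] at h1
  rw [← h1, prod_const, card_univ, Fintype.sum_prod_type, pow_mul, sq, sum_mul_sum]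

end sums

end Pool.Agent.Helper104.PCV
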